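import Pool.Agent.MP_ed9623_an.R1.Base

/-! The second normal derivative is affine along a straight piece. -/

open MeasureTheory Filter Topology Set
open scoped ContDiff ComplexConjugate

namespace Pool.Agent.MP_ed9623_an.R1

open H77 (P ee)

theorem rowAff : OfAff := by
  intro han n O Z ps al pr p h hp hl h0
  obtain ⟨s₀, c⟩ := p
  have j := h.j4
  obtain ⟨r, r0, hr⟩ := Metric.eventually_nhds_iff_ball.1
    (((h.oO.eventually_mem hp).and hl.2).and ((continuous_fst.tendsto (s₀, c)).eventually h0))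
  have mem : ∀ s ∈ Metric.ball s₀ r, ∀ y ∈ Metric.ball c r, (s, y) ∈ Metric.ball (s₀, c) r :=
    fun s a y b => by rw [← ball_prod_same]; exact ⟨a, b⟩
  have sub : ∀ s ∈ Metric.ball s₀ r, uIcc s₀ s ⊆ Metric.ball s₀ r := fun s a =>
    (convex_ball s₀ r).ordConnected.uIcc_subset (Metric.mem_ball_self r0) a
  have z20 : ∀ s ∈ Metric.ball s₀ r, cz n ps 2 0 (s, c) = 0 := fun s a =>
    (hr _ (mem s a c (Metric.mem_ball_self r0))).2
  have K : ∀ s ∈ Metric.ball s₀ r, cz n ps 1 0 (s, c) = cz n ps 1 0 (s₀, c) := fun s a => by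
    have := intervalIntegral.integral_eq_sub_of_hasDerivAt (a := s₀) (b := s)
      (f := fun x => cz n ps 1 0 (x, c)) (f' := fun _ => 0)
      (fun x hx => (hd0_of (cz_hasF j (a := 1) (b := 0) le_rfl (x, c))).congr_deriv
        (z20 x (sub s a hx))) intervalIntegrable_const
    simp only [intervalIntegral.integral_zero] at this
    exact sub_eq_zero.1 this.symm
  have c10 := cz_ct (n := n) j (a := 1) (b := 0) (by omega)
  have c20 := cz_ct (n := n) j (a := 2) (b := 0) le_rfl
  have c02 := cz_ct (n := n) j (a := 0) (b := 2) le_rfl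
  refine ⟨cz n ps 0 2 (s₀, c) - Complex.I * √n * cz n ps 1 0 (s₀, c) * s₀,
    Complex.I * √n * cz n ps 1 0 (s₀, c), ?_⟩
  filter_upwards [Metric.ball_mem_nhds s₀ r0] with s a
  have low : ∀ᶠ y in 𝓝[<] c, ∫ x in s₀..s, Complex.I * √n * cz n ps 1 0 (x, y)
      = (cz n ps 2 0 (s, y) + cz n ps 0 2 (s, y)) - (cz n ps 2 0 (s₀, y) + cz n ps 0 2 (s₀, y)) := by
    filter_upwards [self_mem_nhdsWithin, mem_nhdsWithin_of_mem_nhds (Metric.ball_mem_nhds c r0)]
      with y hy hb
    refine intervalIntegral.integral_eq_sub_of_hasDerivAt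
      (f := fun x => cz n ps 2 0 (x, y) + cz n ps 0 2 (x, y)) (fun x hx => ?_)
      (Continuous.intervalIntegrable (by fun_prop) _ _)
    have m := (hr _ (mem x (sub s a hx) y hb)).1
    obtain ⟨u, v⟩ := han n O Z ps al pr h (x, y) ⟨m.1, m.2 hy⟩
    have d : DifferentiableAt ℝ (fun q => cz n ps 2 0 q + cz n ps 0 2 q) (x, y) :=
      ((u 2 0 (Or.inr rfl)).1.add (u 0 2 (Or.inr rfl)).1).differentiableAt
    refine (hd0_of (hasF_cd d)).congr_deriv ?_
    rw [cd, v]
    simp [ee]
  have ct : Continuous fun y => ∫ x in s₀..s, Complex.I * √n * cz n ps 1 0 (x, y) :=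
    intervalIntegral.continuous_parametric_intervalIntegral_of_continuous'
      (f := fun y x => Complex.I * √n * cz n ps 1 0 (x, y)) (by fun_prop) s₀ s
  have e := tendsto_nhds_unique_of_eventuallyEq ((ct.tendsto c).mono_left nhdsWithin_le_nhds)
    ((Continuous.tendsto (by fun_prop) c).mono_left nhdsWithin_le_nhds) low
  rw [intervalIntegral.integral_congr (g := fun _ => Complex.I * √n * cz n ps 1 0 (s₀, c))
    (fun x hx => by simp only [K x (sub s a hx)]), intervalIntegral.integral_const,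
    z20 s a, z20 s₀ (Metric.mem_ball_self r0), Complex.real_smul] at e
  push_cast at e
  linear_combination -e

end Pool.Agent.MP_ed9623_an.R1
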