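import Pool.Agent.MP_ed9623_an.R1.Spec
import Pool.Agent.MP_ed9623_an.R77.Rep

/-! Two charts agree, and there is a global representative. -/

open MeasureTheory Filter Topology Set

namespace Pool.Agent.MP_ed9623_an.R1

open H77 (P E6 vl)
open R77

namespace XAgr

theorem lf_inj {u v u' v' : ℝ} (h : lf u v = lf u' v') : u = u' ∧ v = v' := by
  have a := congrArg (fun L : P →L[ℝ] ℝ => L (1, 0)) h
  have b := congrArg (fun L : P →L[ℝ] ℝ => L (0, 1)) h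
  simp only [lf_apply, mul_one, mul_zero, add_zero, zero_add] at a b
  exact ⟨a, b⟩

theorem one {O : Set P} {v : E6} {F G : J2} (o : IsOpen O) (hF : Jt 4 F) (hG : Jt 4 G)
    (a : St2 O v F) (b : St2 O v G) : ∀ y ∈ O, F 1 0 y = G 1 0 y ∧ F 0 1 y = G 0 1 y := by
  intro y hy
  have f1 := (hF.ct (a := 1) (b := 0) (by omega)).continuousOn (s := O)
  have g1 := (hG.ct (a := 1) (b := 0) (by omega)).continuousOn (s := O)
  have f2 := (hF.ct (a := 0) (b := 1) (by omega)).continuousOn (s := O)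
  have g2 := (hG.ct (a := 0) (b := 1) (by omega)).continuousOn (s := O)
  refine ⟨eq_of_ae o f1 g1 ?_ hy, eq_of_ae o f2 g2 ?_ hy⟩
  · filter_upwards [a, b] with p c d e
    rw [(c e).1, (d e).1]
  · filter_upwards [a, b] with p c d e
    rw [(c e).2, (d e).2]

theorem step {O : Set P} {F G : J2} (o : IsOpen O) (hF : Jt 4 F) (hG : Jt 4 G) {u v : ℕ}
    (e : u + v ≤ 1) (h : ∀ y ∈ O, F u v y = G u v y) :
    ∀ y ∈ O, F (u + 1) v y = G (u + 1) v y ∧ F u (v + 1) y = G u (v + 1) y := by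
  intro y hy
  have ev : F u v =ᶠ[𝓝 y] G u v := by
    filter_upwards [o.mem_nhds hy] with p hp using h p hp
  exact lf_inj ((hF.d u v (by omega) y).unique ((hG.d u v (by omega) y).congr_of_eventuallyEq ev))

theorem agr {a w : ℝ → E6} {O O' : Set P} {ps al pr ps' al' pr' : ℝ → ℕ → J2}
    (h : Lk O a w ps al pr) (h' : Lk O' a w ps' al' pr') (t : ℝ) (u v : ℕ)
    (e : u + v = 1 ∨ u + v = 2) : ∀ y ∈ O ∩ O', ps t 0 u v y = ps' t 0 u v y := by
  have o : IsOpen (O ∩ O') := h.oO.inter h'.oO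
  have jF := (h.tj t).jp 0
  have jG := (h'.tj t).jp 0
  have k := one (v := iteratedDeriv 0 w t) o jF jG
    ((h.sw t 0).mono fun _ c d => c d.1) ((h'.sw t 0).mono fun _ c d => c d.2)
  have k1 := step o jF jG (u := 1) (v := 0) (by omega) fun y hy => (k y hy).1
  have k2 := step o jF jG (u := 0) (v := 1) (by omega) fun y hy => (k y hy).2
  intro y hy
  have c : (u = 1 ∧ v = 0) ∨ (u = 0 ∧ v = 1) ∨ (u = 2 ∧ v = 0) ∨ (u = 1 ∧ v = 1) ∨
      (u = 0 ∧ v = 2) := by omega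
  rcases c with ⟨rfl, rfl⟩ | ⟨rfl, rfl⟩ | ⟨rfl, rfl⟩ | ⟨rfl, rfl⟩ | ⟨rfl, rfl⟩
  · exact (k y hy).1
  · exact (k y hy).2
  · exact (k1 y hy).1
  · exact (k1 y hy).2
  · exact (k2 y hy).2

theorem loc (a w : ℝ → E6) (t : ℝ) (y : P) : ∃ c : Fin 2 → ℝ, ∀ O ps al pr,
    Lk O a w ps al pr → y ∈ O → ps t 0 1 0 y = c 0 ∧ ps t 0 0 1 y = c 1 := by
  by_cases h : ∃ O ps al pr, Lk O a w ps al pr ∧ y ∈ O
  · obtain ⟨O', ps', al', pr', h', hy'⟩ := h
    exact ⟨![ps' t 0 1 0 y, ps' t 0 0 1 y], fun O ps al pr k hy =>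
      ⟨agr k h' t 1 0 (Or.inl rfl) y ⟨hy, hy'⟩, agr k h' t 0 1 (Or.inl rfl) y ⟨hy, hy'⟩⟩⟩
  · exact ⟨0, fun O ps al pr k hy => absurd ⟨O, ps, al, pr, k, hy⟩ h⟩

end XAgr

theorem rowAgr : OfAgr := by
  intro a w
  refine ⟨fun O O' ps al pr ps' al' pr' h h' t u v e => XAgr.agr h h' t u v e, ?_⟩
  choose c hc using XAgr.loc a w
  exact ⟨fun t j y => c t y j, fun O ps al pr k t y hy => hc t y O ps al pr k hy⟩

end Pool.Agent.MP_ed9623_an.R1
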