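import Pool.Agent.MP_ed9623_an.R1.Base

/-! The amplitude solves the Helmholtz equation and is analytic in the zone. -/

open MeasureTheory Filter Topology Set
open scoped ContDiff ComplexConjugate

namespace Pool.Agent.MP_ed9623_an.R1

open H64 (pd)
open H77 (P M2 Van Test WD ee)
open R77

namespace XAnZ

variable {n : ℝ} {O Z : Set P} {ps al pr : ℝ → ℕ → J2} {a b : ℕ} {φ : P → ℝ}

/-- The heat equation in the zone. -/
theorem heat (h : L0 n O Z ps al pr) (t : ℝ) (e : a + b = 1) :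
    ∀ᵐ p, p ∈ O ∩ Z → ps t 0 (a + 2) b p + ps t 0 a (b + 2) p = ps t 1 a b p := by
  have o := h.oO.inter h.oZ
  have j := (h.tj t).j0
  have v : Van (O ∩ Z) (al t 0 a b) := Eventually.of_forall fun p hp => h.za t 0 a b e p hp
  filter_upwards [(h.tj t).e1 0 a b e,
    ((j.x a b (by omega)).mono (subset_univ _)).van o (j.m _ _ (by omega)) v,
    ((j.y a b (by omega)).mono (subset_univ _)).van o (j.m _ _ (by omega)) v] with p h1 h2 h3 hp
  have := h1 hp.1
  simp only [R77.lp, br, zero_add, Finset.range_one, Finset.sum_singleton, Nat.sub_zero, h2 hp, h3 hp,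
    h.za t 0 1 0 rfl p hp, h.za t 0 0 1 rfl p hp, mul_zero, zero_mul, sub_zero, add_zero] at this
  exact this

/-- The weak form at one time. -/
theorem weak (h : L0 n O Z ps al pr) (t : ℝ) (e : a + b = 1) (hφ : Test (O ∩ Z) φ) :
    (∫ x, ps t 0 (a + 1) b x * pd (ee 0) φ x) + (∫ x, ps t 0 a (b + 1) x * pd (ee 1) φ x)
      + ∫ x, ps t 1 a b x * φ x = 0 := by
  have j := h.j4 t
  rw [j.x (a + 1) b (by omega) φ hφ.top, j.y a (b + 1) (by omega) φ hφ.top,
    ← H77.int_test_congr (fun _ => hφ.off) (heat h t e)]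
  simp only [add_mul]
  rw [integral_add ((j.m _ _ (by omega)).int_mul hφ.m2) ((j.m _ _ (by omega)).int_mul hφ.m2)]
  ring

theorem amp (hz' : CzS) (h : L0 n O Z ps al pr) (e : a + b = 1) {p : P} (hp : p ∈ O ∩ Z) :
    (ps 0 1 a b p : ℂ) - Complex.I * ps (Real.pi / (2 * √n)) 1 a b p
      = Complex.I * √n * cz n ps a b p := by
  have c : p ∈ O ∩ closure Z := ⟨hp.1, subset_closure hp.2⟩
  have s : √n * (Real.pi / (2 * √n)) = Real.pi / 2 := by
    have := (Real.sqrt_pos.2 h.n0).ne'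
    field_simp
  rw [hz' n O Z ps al pr h 0 1 a b (Or.inl e) p c, hz' n O Z ps al pr h _ 1 a b (Or.inl e) p c]
  simp only [ex_succ n _ 0, mul_comm _ (ex n _ 0), mul_assoc, ex_re, s, mul_zero, Real.cos_zero,
    Real.sin_zero, Real.cos_pi_div_two, Real.sin_pi_div_two]
  apply Complex.ext <;> simp

theorem hw (hz' : CzS) (h : L0 n O Z ps al pr) (e : a + b = 1) :
    Hw (Complex.I * √n) (O ∩ Z) (cz n ps a b) := by
  intro φ hφ
  have i : ∀ {f g : P → ℝ}, M2 f → M2 g → Integrable fun x => ((f x * g x : ℝ) : ℂ) :=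
    fun hf hg => (hf.int_mul hg).ofReal
  have A := fun t => i ((h.j4 t).m (a + 1) b (by omega)) (hφ.pd (ee 0)).m2
  have B := fun t => i ((h.j4 t).m a (b + 1) (by omega)) (hφ.pd (ee 1)).m2
  have C := fun t => i (((h.tj t).jp 1).m a b (by omega)) hφ.m2
  have W : ∀ t, ∫ x, (((ps t 0 (a + 1) b x * pd (ee 0) φ x : ℝ) : ℂ)
      + ((ps t 0 a (b + 1) x * pd (ee 1) φ x : ℝ) : ℂ) + ((ps t 1 a b x * φ x : ℝ) : ℂ)) = 0 :=
    fun t => by
      have := integral_add ((A t).add (B t)) (C t)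
      simp only [Pi.add_apply] at this
      rw [this, integral_add (A t) (B t), integral_complex_ofReal,
        integral_complex_ofReal, integral_complex_ofReal]
      exact_mod_cast weak h t e hφ
  have I := fun t => ((A t).add (B t)).add (C t)
  have S := integral_sub (I 0) ((I (Real.pi / (2 * √n))).const_mul Complex.I)
  rw [integral_const_mul] at S
  simp only [Pi.add_apply] at S
  rw [W, W, mul_zero, sub_zero] at S
  rw [← S, cd0_cz h.j4 e.le, cd1_cz h.j4 e.le]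
  refine integral_congr_ae (Eventually.of_forall fun x => ?_)
  by_cases hx : x ∈ O ∩ Z
  · simp only [← amp hz' h e hx]
    simp only [cz]
    push_cast
    ring
  · simp only [hφ.off hx, cz]
    push_cast
    ring

theorem lap_cd {F : P → ℂ} {p : P} {c : ℂ} (e : P)
    (h : ∀ᶠ y in 𝓝 p, ContDiffAt ℝ ∞ F y ∧ lapC F y = c * F y) :
    lapC (cd e F) p = c * cd e F p := by
  have s := h.self_of_nhds.1
  have two : ∀ {G : P → ℂ} {y : P}, ContDiffAt ℝ ∞ G y → ContDiffAt ℝ (2 : ℕ) G y :=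
    fun g => g.of_le (WithTop.coe_le_coe.2 le_top)
  have dif : ∀ {G : P → ℂ} {y : P}, ContDiffAt ℝ ∞ G y → DifferentiableAt ℝ G y :=
    fun g => g.differentiableAt (by simp)
  have k : ∀ e', cd e' (cd e' (cd e F)) p = cd e (cd e' (cd e' F)) p := fun e' => by
    rw [← cd_comm e' e (two (cd_sm e' s))]
    exact (cd_congr e' (h.mono fun y hy => cd_comm e' e (two hy.1))).eq_of_nhds
  rw [lapC, k, k, ← cd_add e (dif (cd_sm _ (cd_sm _ s))) (dif (cd_sm _ (cd_sm _ s))),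
    ← cd_cmul e c (dif s)]
  exact (cd_congr e (h.mono fun y hy => hy.2)).eq_of_nhds

end XAnZ

open XAnZ in
theorem rowAnZ : OfAnZ := by
  intro hz' hA hB n O Z ps al pr h p hp
  have o := h.oO.inter h.oZ
  have nb := o.mem_nhds hp
  have ev : ∀ a b, a + b = 1 → ∀ᶠ y in 𝓝 p, ContDiffAt ℝ ∞ (cz n ps a b) y ∧
      lapC (cz n ps a b) y = Complex.I * √n * cz n ps a b y := fun a b e => by
    obtain ⟨h1, h2⟩ := hA _ _ _ o (cz_c1 h.j4 e.le).contDiffOn (hw hz' h e)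
    filter_upwards [nb] with y hy using ⟨h1.contDiffAt (o.mem_nhds hy), h2 y hy⟩
  have an : ∀ a b, a + b = 1 → AnalyticAt ℝ (cz n ps a b) p := fun a b e =>
    hB √n _ p (Real.sqrt_pos.2 h.n0).ne' (ev a b e)
  have e20 : cz n ps 2 0 = cd (ee 0) (cz n ps 1 0) := (cd0_cz h.j4 le_rfl).symm
  have e11 : cz n ps 1 1 = cd (ee 0) (cz n ps 0 1) := (cd0_cz h.j4 le_rfl).symm
  have e11' : cz n ps 1 1 = cd (ee 1) (cz n ps 1 0) := (cd1_cz h.j4 le_rfl).symm
  have e02 : cz n ps 0 2 = cd (ee 1) (cz n ps 0 1) := (cd1_cz h.j4 le_rfl).symm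
  refine ⟨fun a b e => ?_, fun e => ?_⟩
  · rcases e with e | e
    · exact ⟨an a b e, (ev a b e).self_of_nhds.2⟩
    · obtain ⟨rfl, rfl⟩ | ⟨rfl, rfl⟩ | ⟨rfl, rfl⟩ :
        (a = 2 ∧ b = 0) ∨ (a = 1 ∧ b = 1) ∨ (a = 0 ∧ b = 2) := by omega
      · rw [e20]; exact ⟨cd_ana _ (an 1 0 rfl), lap_cd _ (ev 1 0 rfl)⟩
      · rw [e11]; exact ⟨cd_ana _ (an 0 1 rfl), lap_cd _ (ev 0 1 rfl)⟩
      · rw [e02]; exact ⟨cd_ana _ (an 0 1 rfl), lap_cd _ (ev 0 1 rfl)⟩
  · have d1 : DifferentiableAt ℝ (cz n ps 2 0) p := e20 ▸ (cd_ana _ (an 1 0 rfl)).differentiableAt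
    have d2 : DifferentiableAt ℝ (cz n ps 0 2) p := e02 ▸ (cd_ana _ (an 0 1 rfl)).differentiableAt
    have c1 := cd_comm (ee 0) (ee 1) (an 1 0 rfl).contDiffAt
    have c2 := cd_comm (ee 0) (ee 1) (an 0 1 rfl).contDiffAt
    have l1 := (ev 1 0 rfl).self_of_nhds.2
    have l2 := (ev 0 1 rfl).self_of_nhds.2
    rw [lapC, ← e20, ← e11'] at l1
    rw [lapC, ← e11, ← e02] at l2
    rw [← e20, ← e11'] at c1
    rw [← e02, ← e11] at c2
    have d : DifferentiableAt ℝ (fun y => cz n ps 2 0 y + cz n ps 0 2 y) p := d1.add d2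
    rw [(hasF_cd d).fderiv, lc_apply, cd_add _ d1 d2, cd_add _ d1 d2, c2, ← c1, l1, l2]
    ring

end Pool.Agent.MP_ed9623_an.R1
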