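import Pool.Agent.MP_ed9623_an.R1.Base

/-! Uniqueness in the Cauchy problem for analytic solutions of the Helmholtz equation. -/

open MeasureTheory Filter Topology Set
open scoped ContDiff ComplexConjugate

namespace Pool.Agent.MP_ed9623_an.R1

open H77 (P ee)

namespace XCau

/-- Analytic solutions with zero Cauchy data on a line, in an open set. -/
def Cl (k : ℂ) (c : ℝ) (U : Set P) (F : P → ℂ) : Prop := ∀ y ∈ U, AnalyticAt ℝ F y ∧
  lapC F y = k * F y ∧ (y.2 = c → F y = 0 ∧ cd (ee 1) F y = 0)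

variable {k : ℂ} {c : ℝ} {U : Set P} {F : P → ℂ}

theorem tang (hU : IsOpen U) (ha : ∀ y ∈ U, AnalyticAt ℝ F y) (hz : ∀ y ∈ U, y.2 = c → F y = 0) :
    ∀ y ∈ U, y.2 = c → cd (ee 0) F y = 0 := by
  rintro ⟨s, r⟩ hy (rfl : r = c)
  have d := hd0_of (hasF_cd (ha _ hy).differentiableAt)
  have e : (fun t => F (t, r)) =ᶠ[𝓝 s] fun _ => 0 := by
    have : ∀ᶠ t in 𝓝 s, (t, r) ∈ U :=
      (Continuous.prodMk_left r).continuousAt.preimage_mem_nhds (hU.mem_nhds hy)
    filter_upwards [this] with t ht using hz _ ht rfl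
  exact d.unique ((hasDerivAt_const s (0 : ℂ)).congr_of_eventuallyEq e)

theorem step (hU : IsOpen U) (h : Cl k c U F) : Cl k c U (cd (ee 1) F) := by
  intro y hy
  have a := (h y hy).1
  have n : ∀ᶠ z in 𝓝 y, z ∈ U := hU.mem_nhds hy
  refine ⟨cd_ana _ a, ?_, fun e => ⟨((h y hy).2.2 e).2, ?_⟩⟩
  · have e1 : cd (ee 0) (cd (ee 1) F) =ᶠ[𝓝 y] cd (ee 1) (cd (ee 0) F) := by
      filter_upwards [n] with z hz using cd_comm _ _ (h z hz).1.contDiffAt
    have e2 : cd (ee 0) (cd (ee 0) (cd (ee 1) F)) y = cd (ee 1) (cd (ee 0) (cd (ee 0) F)) y := by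
      rw [(cd_congr (ee 0) e1).eq_of_nhds]
      exact cd_comm _ _ (cd_ana _ a).contDiffAt
    have e3 : (fun z => cd (ee 0) (cd (ee 0) F) z + cd (ee 1) (cd (ee 1) F) z) =ᶠ[𝓝 y]
        fun z => k * F z := by
      filter_upwards [n] with z hz using (h z hz).2.1
    have e4 := (cd_congr (ee 1) e3).eq_of_nhds
    rw [cd_add _ (cd_ana _ (cd_ana _ a)).differentiableAt (cd_ana _ (cd_ana _ a)).differentiableAt,
      cd_cmul _ _ a.differentiableAt] at e4
    rw [lapC, e2, e4]
  · have t1 := tang hU (fun z hz => (h z hz).1) fun z hz e => ((h z hz).2.2 e).1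
    have t2 := tang hU (fun z hz => cd_ana (ee 0) (h z hz).1) t1 y hy e
    have l := (h y hy).2.1
    rw [lapC, t2, ((h y hy).2.2 e).1] at l
    simpa using l

theorem iter (hU : IsOpen U) (m : ℕ) : ∀ F : P → ℂ, Cl k c U F → ∀ s, (s, c) ∈ U →
    iteratedDeriv m (fun r => F (s, r)) c = 0 := by
  induction m with
  | zero => exact fun F h s hs => by simpa using ((h _ hs).2.2 rfl).1
  | succ m ih =>
    intro F h s hs
    have e : deriv (fun r => F (s, r)) =ᶠ[𝓝 c] fun r => cd (ee 1) F (s, r) := by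
      have : ∀ᶠ r in 𝓝 c, (s, r) ∈ U :=
        (Continuous.prodMk_right s).continuousAt.preimage_mem_nhds (hU.mem_nhds hs)
      filter_upwards [this] with r hr using (hd1_of (hasF_cd (h _ hr).1.differentiableAt)).deriv
    rw [iteratedDeriv_succ', e.iteratedDeriv_eq]
    exact ih _ (step hU h) s hs

end XCau

open XCau in
theorem rowCau : OfCau := by
  intro k F p h
  obtain ⟨ε, hε, hb⟩ := Metric.eventually_nhds_iff_ball.1 h
  have hc : Cl k p.2 (Metric.ball p ε) F := hb
  filter_upwards [Metric.ball_mem_nhds p hε] with y hy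
  have m : ∀ r ∈ Metric.ball p.2 ε, (y.1, r) ∈ Metric.ball p ε := fun r hr => by
    rw [Metric.mem_ball, Prod.dist_eq, max_lt_iff] at hy ⊢
    exact ⟨hy.1, hr⟩
  have an : AnalyticOnNhd ℝ (fun r => F (y.1, r)) (Metric.ball p.2 ε) := fun r hr =>
    (hc _ (m r hr)).1.comp (analyticAt_const.prod analyticAt_id)
  have c0 := Metric.mem_ball_self (x := p.2) hε
  have top : analyticOrderAt (fun r => F (y.1, r)) p.2 = ⊤ :=
    ENat.eq_top_iff_forall_ge.2 fun n =>
      (natCast_le_analyticOrderAt_iff_iteratedDeriv_eq_zero (an _ c0)).2 fun i _ =>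
        iter Metric.isOpen_ball i F hc _ (m _ c0)
  have y2 : y.2 ∈ Metric.ball p.2 ε := by
    rw [Metric.mem_ball, Prod.dist_eq, max_lt_iff] at hy
    exact hy.2
  exact an.eqOn_zero_of_preconnected_of_eventuallyEq_zero (convex_ball _ _).isPreconnected c0
    (analyticOrderAt_eq_top.1 top) y2

end Pool.Agent.MP_ed9623_an.R1
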