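import Pool.Agent.MP_ed9623_an.R1.Spec
import Pool.Agent.MP_ed9623_an.S64.BCk

/-! Charts with stream functions on an open part of the domain. -/

open MeasureTheory Filter Topology Set
open scoped ContDiff

namespace Pool.Agent.MP_ed9623_an.R1

open H64
open H77 (P L E6 M2 Van Test ip perp vl gj Sv Pv TU Rp Zn vo Circ ee)

open S64 S64.BCk in
theorem rowCkN : OfCkN := by
  intro hC h1 h2 hS Ω N g G R a w A W o hN hP hG hA hW x hx
  obtain ⟨r, r0, s, c1, c2⟩ := hC N o x hx
  choose u hu using fun j => c1 _ (hA.sm j)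
  choose v hv using fun j => c1 _ (hW.sm j)
  obtain ⟨G', hG'⟩ := c2 G hG.1
  have ob : IsOpen (Metric.ball x r) := Metric.isOpen_ball
  have au : ∀ t j, ∀ᵐ y, y ∈ Metric.ball x r → (u j).1 (t, y) = vl (a t) j y := fun t j =>
    (hA.ae t j).mono fun y b c => (hu j _ c).trans (b (s c))
  have av : ∀ t j, ∀ᵐ y, y ∈ Metric.ball x r → (v j).1 (t, y) = vl (w t) j y := fun t j =>
    (hW.ae t j).mono fun y b c => (hv j _ c).trans (b (s c))
  have q := h1 Ω _ g R a w u v ob (s.trans hN) hP au av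
  obtain ⟨α, hα⟩ := hS _ _ x r fun z b => (q z b).1
  obtain ⟨ψ, hψ⟩ := hS _ _ x r fun z b => (q z b).2.1
  have cu : ∀ θ, Test (Metric.ball x r) θ → -ip g (perp (fun _ => 0) θ) = ∫ y, G'.1 y * θ y :=
    fun θ b => (hG.2 θ (b.mono s)).trans (H77.int_test_congr
      (fun y c => image_eq_zero_of_notMem_tsupport fun d => c (b.2.2 d))
      (Eventually.of_forall fun y c => (hG' y c).symm))
  obtain ⟨k1, k2, k3⟩ := alg DS (FI (𝓟 {z : ST | z.2 ∈ Metric.ball x r}))
    (fun i f b => mem.2 fun z c => NI_val (NI_d (((continuous_snd.tendsto z).eventually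
      (ob.mem_nhds c)).mono (mem.1 b)) i)) (α := α) (ψ := ψ) (G := pb Prod.snd contDiff_snd G')
    (mem.2 fun z b => by rw [val_sub, (hα z b).1, sub_self])
    (mem.2 fun z b => by rw [val_sub, val_neg, (hα z b).2, neg_neg, sub_self])
    (mem.2 fun z b => by rw [val_sub, (hψ z b).1, sub_self])
    (mem.2 fun z b => by rw [val_sub, val_neg, (hψ z b).2, neg_neg, sub_self])
    (fun j => mem.2 fun z b => (q z b).2.2 j)
    (SA_ext fun z => (hd_time _ z.1 z.2).unique (hasDerivAt_const z.1 (G'.1 z.2)))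
    (mem.2 fun z b => sub_eq_zero.2 (h2 Ω _ g G' R _ (u + v) ob (s.trans hN) hP.mg hP.s1 cu (fun t j => by
      filter_upwards [au t j, av t j, H77.co_add (a t) (w t) (j, none)] with y c d e f
      exact (congrArg₂ (· + ·) (c f) (d f)).trans e.symm) z b))
    (mem.2 fun z b => sub_eq_zero.2 (h2 Ω _ g G' R _ (u - v) ob (s.trans hN) hP.mg hP.s2 cu (fun t j => by
      filter_upwards [au t j, av t j, H77.co_sub (a t) (w t) (j, none)] with y c d e f
      exact (congrArg₂ (· - ·) (c f) (d f)).trans e.symm) z b))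
  refine ⟨_, α, ψ, Metric.mem_ball_self r0, s, ob, fun j hj z b => ?_, fun z b => ?_,
    fun z b => (hα z b).1.trans (hu 1 z b), fun z b => by rw [(hα z b).2, hu 0 z b],
    fun z b => (hψ z b).1.trans (hv 1 z b), fun z b => by rw [(hψ z b).2, hv 0 z b]⟩
  · fin_cases j
    · exact absurd rfl hj
    · exact mem.1 k1 z b
    · exact neg_eq_zero.1 (mem.1 k2 z b)
  · simpa using mem.1 k3 z b

end Pool.Agent.MP_ed9623_an.R1
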