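import Pool.Agent.MP_ed9623_an.R1.Spec

/-! Elementary facts on the complex amplitude. -/

open MeasureTheory Filter Topology Set
open scoped ContDiff ComplexConjugate

namespace Pool.Agent.MP_ed9623_an.R1

open H64 (pd SA)
open H77 (P ee)
open R77
open S64 (Low Crv cst)

/-- The complex linear form with coefficients `u`, `v`. -/
noncomputable def lc (u v : ℂ) : P →L[ℝ] ℂ :=
  (ContinuousLinearMap.fst ℝ ℝ ℝ).smulRight u + (ContinuousLinearMap.snd ℝ ℝ ℝ).smulRight v

@[simp] theorem lc_apply (u v : ℂ) (h : P) : lc u v h = h.1 * u + h.2 * v := by simp [lc]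

section der

variable {F G : P → ℂ} {u v : ℂ} {p : P}

theorem cd0_of (h : HasFDerivAt F (lc u v) p) : cd (ee 0) F p = u := by simp [cd, h.fderiv, ee]

theorem cd1_of (h : HasFDerivAt F (lc u v) p) : cd (ee 1) F p = v := by simp [cd, h.fderiv, ee]

theorem hasF_cd (h : DifferentiableAt ℝ F p) :
    HasFDerivAt F (lc (cd (ee 0) F p) (cd (ee 1) F p)) p :=
  h.hasFDerivAt.congr_fderiv (by ext <;> simp [cd, ee])

theorem hd0_of {s c : ℝ} (h : HasFDerivAt F (lc u v) (s, c)) :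
    HasDerivAt (fun r => F (r, c)) u s :=
  (h.comp_hasDerivAt s ((hasDerivAt_id s).prodMk (hasDerivAt_const s c))).congr_deriv (by simp)

theorem hd1_of {s c : ℝ} (h : HasFDerivAt F (lc u v) (s, c)) :
    HasDerivAt (fun r => F (s, r)) v c :=
  (h.comp_hasDerivAt c ((hasDerivAt_const c s).prodMk (hasDerivAt_id c))).congr_deriv (by simp)

theorem cd_congr (e : P) (h : F =ᶠ[𝓝 p] G) : cd e F =ᶠ[𝓝 p] cd e G :=
  h.fderiv.mono fun _ a => congrArg (fun L : P →L[ℝ] ℂ => L e) a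

theorem lapC_congr (h : F =ᶠ[𝓝 p] G) : lapC F =ᶠ[𝓝 p] lapC G := by
  filter_upwards [cd_congr (ee 0) (cd_congr (ee 0) h), cd_congr (ee 1) (cd_congr (ee 1) h)]
    with y a b
  rw [lapC, lapC, a, b]

theorem cd_ana (e : P) (h : AnalyticAt ℝ F p) : AnalyticAt ℝ (cd e F) p :=
  ((ContinuousLinearMap.apply ℝ ℂ e).analyticAt _).comp h.fderiv

theorem cd_cd {k : ℕ} (e : P) (h : ContDiffAt ℝ (k + 1 : ℕ) F p) : ContDiffAt ℝ k (cd e F) p :=
  (h.fderiv_right (by push_cast; exact le_rfl)).clm_apply contDiffAt_const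

theorem cd_sm (e : P) (h : ContDiffAt ℝ ∞ F p) : ContDiffAt ℝ ∞ (cd e F) p :=
  (h.fderiv_right (by simp)).clm_apply contDiffAt_const

theorem cd_comm (e e' : P) (h : ContDiffAt ℝ (2 : ℕ) F p) :
    cd e (cd e' F) p = cd e' (cd e F) p := by
  have d : DifferentiableAt ℝ (fderiv ℝ F) p :=
    (h.fderiv_right (m := 1) (by norm_num)).differentiableAt one_ne_zero
  have k : ∀ a b : P, cd a (cd b F) p = fderiv ℝ (fderiv ℝ F) p a b := fun a b => by
    unfold cd
    rw [fderiv_clm_apply d (differentiableAt_const b)]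
    simp
  rw [k, k]
  exact (h.isSymmSndFDerivAt (by simp)).eq e e'

theorem cd_add (e : P) (h : DifferentiableAt ℝ F p) (h' : DifferentiableAt ℝ G p) :
    cd e (fun y => F y + G y) p = cd e F p + cd e G p := by
  simp [cd, fderiv_fun_add h h']

theorem cd_sub (e : P) (h : DifferentiableAt ℝ F p) (h' : DifferentiableAt ℝ G p) :
    cd e (fun y => F y - G y) p = cd e F p - cd e G p := by
  simp [cd, fderiv_fun_sub h h']

theorem cd_cmul (e : P) (k : ℂ) (h : DifferentiableAt ℝ F p) :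
    cd e (fun y => k * F y) p = k * cd e F p := by
  simp [cd, fderiv_const_mul h]

theorem hasF_compC {x τ : P} (h : HasFDerivAt F (lc u v) (mo x τ p)) :
    HasFDerivAt (fun q => F (mo x τ q)) (lc (τ.1 * u + τ.2 * v) (-τ.2 * u + τ.1 * v)) p := by
  refine (h.comp p (hasF_mo x τ p)).congr_fderiv ?_
  ext <;> simp

end der

section amp

variable {n t : ℝ} {O Z : Set P} {ps al pr : ℝ → ℕ → J2} {a b : ℕ} {p : P} {w w' : ℂ}

theorem cz_hasF (h : ∀ t, Jt 4 (ps t 0)) (e : a + b ≤ 1) (p : P) :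
    HasFDerivAt (cz n ps a b) (lc (cz n ps (a + 1) b p) (cz n ps a (b + 1) p)) p := by
  have k := fun t => Complex.ofRealCLM.hasFDerivAt.comp p ((h t).d a b (by omega) p)
  refine ((k 0).sub ((k _).const_mul Complex.I)).congr_fderiv ?_
  ext <;> simp [cz]

theorem cz_ct (h : ∀ t, Jt 4 (ps t 0)) (e : a + b ≤ 2) : Continuous (cz n ps a b) := by
  have k := fun t => (h t).ct (a := a) (b := b) (by omega)
  unfold cz
  fun_prop

theorem cz_c1 (h : ∀ t, Jt 4 (ps t 0)) (e : a + b ≤ 1) : ContDiff ℝ (1 : ℕ) (cz n ps a b) := by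
  have k := fun t => Complex.ofRealCLM.contDiff.comp ((h t).cd1 (a := a) (b := b) (by omega))
  exact (k 0).sub (contDiff_const.mul (k _))

theorem cd0_cz (h : ∀ t, Jt 4 (ps t 0)) (e : a + b ≤ 1) :
    cd (ee 0) (cz n ps a b) = cz n ps (a + 1) b := funext fun p => cd0_of (cz_hasF h e p)

theorem cd1_cz (h : ∀ t, Jt 4 (ps t 0)) (e : a + b ≤ 1) :
    cd (ee 1) (cz n ps a b) = cz n ps a (b + 1) := funext fun p => cd1_of (cz_hasF h e p)

theorem cz_line (h : ∀ t, Jt 4 (ps t 0)) (e : a + b ≤ 2) (c : ℝ) :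
    Continuous fun s => cz n ps a b (s, c) := (cz_ct h e).comp (Continuous.prodMk_left c)

theorem L0.j4 (h : L0 n O Z ps al pr) (t : ℝ) : Jt 4 (ps t 0) := (h.tj t).jp 0

theorem Lx.l0 (h : Lx n O Z ps al pr) : L0 n O Z ps al pr := h.toLz.l0

theorem Lx.j4 (h : Lx n O Z ps al pr) (t : ℝ) : Jt 4 (ps t 0) := (h.tj t).jp 0

theorem L0.mono {O' : Set P} (h : L0 n O Z ps al pr) (o : IsOpen O') (hO : O' ⊆ O) :
    L0 n O' Z ps al pr :=
  have s : O' ∩ Z ⊆ O ∩ Z := inter_subset_inter_left _ hO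
  ⟨h.n0, o, h.oZ, fun t => (h.tj t).mono hO, fun t j a b e p c => h.za t j a b e p (s c),
    fun t j a b e p c => h.zp t j a b e p (s c), fun t j a b e p c => h.zt t j a b e p (s c)⟩

theorem ex_re (n t : ℝ) (w : ℂ) :
    (ex n t 0 * w).re = Real.cos (√n * t) * w.re - Real.sin (√n * t) * w.im := by
  rw [ex, pow_zero, one_mul, mul_comm Complex.I, ← Complex.ofReal_mul, Complex.mul_re,
    Complex.exp_ofReal_mul_I_re, Complex.exp_ofReal_mul_I_im]

theorem ex_succ (n t : ℝ) (j : ℕ) : ex n t (j + 1) = Complex.I * √n * ex n t j := by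
  rw [ex, ex, pow_succ]; ring

theorem ex_hd (n t : ℝ) (j : ℕ) : HasDerivAt (fun s => ex n s j) (ex n t (j + 1)) t := by
  have := (((Complex.ofRealCLM.hasDerivAt (x := t)).const_mul (√n : ℂ)).const_mul
    Complex.I).cexp.const_mul ((Complex.I * √n) ^ j)
  refine this.congr_deriv ?_
  simp only [ex, pow_succ, Complex.ofRealCLM_apply, Complex.ofReal_one]
  ring

theorem ex_re_hd (n t : ℝ) (j : ℕ) (w : ℂ) :
    HasDerivAt (fun s => (ex n s j * w).re) (ex n t (j + 1) * w).re t :=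
  Complex.reCLM.hasFDerivAt.comp_hasDerivAt t ((ex_hd n t j).mul_const w)

theorem ex_re_ct (n : ℝ) (j : ℕ) (w : ℂ) : Continuous fun s => (ex n s j * w).re :=
  continuous_iff_continuousAt.2 fun t => (ex_re_hd n t j w).continuousAt

theorem ex_ne (n t : ℝ) : ex n t 0 ≠ 0 := by simp [ex]

/-- A sinusoid which vanishes near one time vanishes. -/
theorem ex_zero (h0 : 0 < n) (h : ∀ᶠ s in 𝓝 t, (ex n s 0 * w).re = 0) : w = 0 := by
  have a := h.self_of_nhds
  have b := (ex_re_hd n t 0 w).unique ((hasDerivAt_const t (0 : ℝ)).congr_of_eventuallyEq h)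
  rw [ex_succ, mul_assoc, mul_assoc, Complex.I_mul_re, Complex.im_ofReal_mul, neg_eq_zero] at b
  exact (mul_eq_zero.1 (Complex.ext a ((mul_eq_zero.1 b).resolve_left
    (Real.sqrt_pos.2 h0).ne'))).resolve_left (ex_ne n t)

theorem ex_freq (h0 : 0 < n) (h : w ≠ 0) (t : ℝ) : ∃ᶠ s in 𝓝 t, (ex n s 0 * w).re ≠ 0 :=
  fun k => h (ex_zero h0 (k.mono fun _ => not_not.1))

theorem ex_exists (h0 : 0 < n) (h : w ≠ 0) : ∃ t, (ex n t 0 * w).re ≠ 0 := (ex_freq h0 h 0).exists

/-- The Wronskian of two sinusoids. -/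
theorem ex_wr (n t : ℝ) (w w' : ℂ) : (ex n t 0 * w).re * (ex n t 1 * w').re
    - (ex n t 1 * w).re * (ex n t 0 * w').re = √n * (w * conj w').im := by
  simp only [ex_succ n t 0, mul_comm _ (ex n t 0), mul_assoc, ex_re]
  simp only [Complex.mul_re, Complex.mul_im, Complex.I_re, Complex.I_im, Complex.ofReal_re,
    Complex.ofReal_im, Complex.conj_re, Complex.conj_im]
  linear_combination √n * (w.im * w'.re - w.re * w'.im) * Real.cos_sq_add_sin_sq (√n * t)

/-- The scalar product of two sinusoids. -/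
theorem ex_ip (h0 : 0 < n) (t : ℝ) (w w' : ℂ) : n * ((ex n t 0 * w).re * (ex n t 0 * w').re)
    + (ex n t 1 * w).re * (ex n t 1 * w').re = n * (w * conj w').re := by
  simp only [ex_succ n t 0, mul_comm _ (ex n t 0), mul_assoc, ex_re]
  simp only [Complex.mul_re, Complex.mul_im, Complex.I_re, Complex.I_im, Complex.ofReal_re,
    Complex.ofReal_im, Complex.conj_re, Complex.conj_im]
  linear_combination n * (w.re * w'.re + w.im * w'.im) * Real.cos_sq_add_sin_sq (√n * t)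
    + (Real.cos (√n * t) * w.im + Real.sin (√n * t) * w.re)
      * (Real.cos (√n * t) * w'.im + Real.sin (√n * t) * w'.re) * Real.mul_self_sqrt h0.le

theorem hs_eq (hz' : CzS) (h : L0 n O Z ps al pr) (c : p ∈ O ∩ closure Z) (t : ℝ) (e e' : P) :
    hs (ps t 0) e e' p = (ex n t 0 * hz n ps e e' p).re := by
  rw [hs, hz, hz' n O Z ps al pr h t 0 2 0 (Or.inr rfl) p c,
    hz' n O Z ps al pr h t 0 1 1 (Or.inr rfl) p c, hz' n O Z ps al pr h t 0 0 2 (Or.inr rfl) p c]
  simp only [mul_add, Complex.add_re, ← Complex.ofReal_mul, ← Complex.ofReal_add,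
    mul_left_comm (ex n t 0), Complex.re_ofReal_mul]

theorem hz_of_hs {e e' : P} (h : ∀ t, hs (ps t 0) e e' p = 0) : hz n ps e e' p = 0 := by
  have a := congrArg Complex.ofReal (h 0)
  have b := congrArg Complex.ofReal (h (Real.pi / (2 * √n)))
  simp only [hs] at a b
  push_cast at a b
  simp only [hz, cz]
  linear_combination a - Complex.I * b

variable {x τ : P}

theorem cz_rot10 : cz n (fun t j => rot x τ (ps t j)) 1 0 p
    = τ.1 * cz n ps 1 0 (mo x τ p) + τ.2 * cz n ps 0 1 (mo x τ p) := by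
  simp only [cz, rot10]; push_cast; ring

theorem cz_rot01 : cz n (fun t j => rot x τ (ps t j)) 0 1 p
    = -τ.2 * cz n ps 1 0 (mo x τ p) + τ.1 * cz n ps 0 1 (mo x τ p) := by
  simp only [cz, rot01]; push_cast; ring

theorem cz_rot20 : cz n (fun t j => rot x τ (ps t j)) 2 0 p = hz n ps τ τ (mo x τ p) := by
  simp only [hz, cz, rot20]; push_cast; ring

theorem cz_rot11 : cz n (fun t j => rot x τ (ps t j)) 1 1 p
    = hz n ps τ (-τ.2, τ.1) (mo x τ p) := by
  simp only [hz, cz, rot11]; push_cast; ring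

theorem cz_rot02 : cz n (fun t j => rot x τ (ps t j)) 0 2 p
    = hz n ps (-τ.2, τ.1) (-τ.2, τ.1) (mo x τ p) := by
  simp only [hz, cz, rot02]; push_cast; ring

theorem mo_one (x p : P) : mo x (1, 0) p = x + p := by
  rw [mo_apply]; ext <;> simp

theorem mo_eq (x τ : P) : mo x τ = S64.mv x τ := funext fun p => mo_apply x τ p

theorem Tc.cl {Φ : P → ℝ} (h : Tc Z p Φ) : p ∈ closure Z := by
  refine mem_closure_iff_frequently.2 ((Frequently.and_eventually ?_ h.up).mono fun _ a => a.2 a.1)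
  intro a
  have m : IsLocalMax Φ p := a.mono fun _ => not_lt.1
  rcases h.ne with b | b <;> exact b (by rw [pd, m.fderiv_eq_zero]; rfl)

/-- A horizontal boundary is touched by the lines themselves. -/
theorem tc_of_crv {c : ℝ} (h : Crv Z p (cst c)) : Tc Z p (fun y => -y.2) ∧
    pd (ee 0) (fun y : P => -y.2) p = 0 ∧ pd (ee 1) (fun y : P => -y.2) p = -1 := by
  have d : HasFDerivAt (fun y : P => -y.2) (lf 0 (-1)) p :=
    hasFDerivAt_snd.neg.congr_fderiv (by ext <;> simp)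
  refine ⟨⟨h.nm, contDiff_snd.neg, Or.inr (by rw [pd1_of d]; norm_num), h.1.2.mono fun y a b => a ?_⟩,
    pd0_of d, pd1_of d⟩
  rw [h.1.1] at b
  exact neg_lt_neg_iff.1 b

theorem Sr.ev (hj : ∀ t, Jt 4 (ps t 0)) (h : Sr n Z ps p) :
    ∀ᶠ s in 𝓝 p.1, Sr n Z ps (s, p.2) := by
  filter_upwards [((Continuous.prodMk_left p.2).tendsto p.1).eventually h.crv.ev,
    h.nul.eventually_nhds, h.rr.eventually_nhds,
    (cz_line hj (a := 1) (b := 1) le_rfl p.2).continuousAt.eventually_ne h.nd] with s a b c d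
  exact ⟨a rfl, b, d, c⟩

theorem dt_ct {F : J2} (h : Jt 4 F) : Continuous (dt F) :=
  ((h.ct (by omega)).mul (h.ct (by omega))).sub ((h.ct (by omega)).pow 2)

end amp

section line

variable {h h' E E' : ℝ → ℂ} {s N : ℝ}

theorem r0_congr (e : h =ᶠ[𝓝 s] h') : r0 h =ᶠ[𝓝 s] r0 h' := by
  filter_upwards [e.deriv, e.deriv.deriv] with r a b
  rw [r0, r0, a, b]

theorem Pb_congr (e : h =ᶠ[𝓝 s] h') : Pb N h =ᶠ[𝓝 s] Pb N h' := by
  filter_upwards [r0_congr e, (r0_congr e).deriv] with r a b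
  rw [Pb, Pb, a, b]

theorem Mf_congr (e : h =ᶠ[𝓝 s] h') : Mf N h =ᶠ[𝓝 s] Mf N h' := by
  filter_upwards [e, e.deriv, r0_congr e, Pb_congr (N := N) e] with r a b c d
  rw [Mf, Mf, a, b, c, d]

theorem Ty.congr (k : Ty h E s) (e : h =ᶠ[𝓝 s] h') (e' : E =ᶠ[𝓝 s] E') : Ty h' E' s := by
  have r := r0_congr e
  refine ⟨?_, k.2.imp (fun a => ?_) fun ⟨N, a, b, c, d⟩ => ⟨N, a, r.eq_of_nhds ▸ b, ?_,
    d.imp (fun d => ?_) fun d => ?_⟩⟩
  · filter_upwards [k.1, r, e.deriv, e.deriv.deriv] with x a b c d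
    rwa [← b, ← c, ← d]
  · filter_upwards [a, r, e, e.deriv] with x a b c d
    rwa [← b, ← c, ← d]
  · filter_upwards [c, r, (Mf_congr (N := N) e).eventuallyEq_nhds] with x a b c
    rw [← b, ← c.eq_of_nhds]
    exact a.congr_of_eventuallyEq c.symm
  · filter_upwards [d, Pb_congr (N := N) e, e', e'.deriv, e.deriv] with x a b c d f
    rwa [← b, ← c, ← d, ← f]
  · filter_upwards [d, Pb_congr (N := N) e, e, r, e.deriv] with x a b c d f
    rwa [← b, ← c, ← d, ← f]

end line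

end Pool.Agent.MP_ed9623_an.R1
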