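import Pool.Agent.MP_ed9623_an.R1.Spec
import Pool.Agent.MP_ed9623_an.R1.Base

/-! There are no straight pieces of the boundary of the zone. -/

open MeasureTheory Filter Topology Set
open scoped ContDiff ComplexConjugate

namespace Pool.Agent.MP_ed9623_an.R1

open H77 (P ee)
open R77

namespace XCont

/-- The global amplitude. -/
noncomputable def gz (n : ℝ) (f : ℝ → Fin 2 → P → ℝ) (j : Fin 2) (y : P) : ℂ :=
  f 0 j y - Complex.I * f (Real.pi / (2 * √n)) j y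

variable {n : ℝ} {Ω Z O O' : Set P} {f : ℝ → Fin 2 → P → ℝ} {ps al pr ps' al' pr' : ℝ → ℕ → J2}
  {y : P} {s : ℝ}

theorem eq1 (h : Cx n Ω Z f O ps al pr) (a : y ∈ O) :
    cz n ps 1 0 y = gz n f 0 y ∧ cz n ps 0 1 y = gz n f 1 y := by
  simp only [cz, gz, (h.eq _ y a).1, (h.eq _ y a).2, and_self]

theorem eq2 (h : Cx n Ω Z f O ps al pr) (a : y ∈ O) :
    cz n ps 2 0 y = cd (ee 0) (gz n f 0) y ∧ cz n ps 1 1 y = cd (ee 0) (gz n f 1) y ∧
      cz n ps 0 2 y = cd (ee 1) (gz n f 1) y := by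
  have e : ∀ᶠ z in 𝓝 y, z ∈ O := h.lx.oO.mem_nhds a
  have e0 : cz n ps 1 0 =ᶠ[𝓝 y] gz n f 0 := e.mono fun _ b => (eq1 h b).1
  have e1 : cz n ps 0 1 =ᶠ[𝓝 y] gz n f 1 := e.mono fun _ b => (eq1 h b).2
  rw [← (cd_congr _ e0).eq_of_nhds, ← (cd_congr _ e1).eq_of_nhds, ← (cd_congr _ e1).eq_of_nhds,
    cd0_cz h.lx.j4 le_rfl, cd0_cz h.lx.j4 le_rfl, cd1_cz h.lx.j4 le_rfl]
  exact ⟨rfl, rfl, rfl⟩

theorem ev (h : Cx n Ω Z f O ps al pr) (a : ((s, 0) : P) ∈ O) : ∀ᶠ r in 𝓝 s, ((r, 0) : P) ∈ O :=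
  ((Continuous.prodMk_left (0 : ℝ)).tendsto s).eventually (h.lx.oO.mem_nhds a)

theorem tr (h : Cx n Ω Z f O ps al pr) (h' : Cx n Ω Z f O' ps' al' pr') (a : ((s, 0) : P) ∈ O)
    (a' : ((s, 0) : P) ∈ O') (k : Sr n Z ps (s, 0)) : Sr n Z ps' (s, 0) := by
  refine ⟨k.crv, ?_, ?_, ?_⟩
  · filter_upwards [k.nul, ev h a, ev h' a'] with r u v w
    rw [(eq2 h' w).1, ← (eq2 h v).1, u]
  · rw [(eq2 h' a').2.1, ← (eq2 h a).2.1]
    exact k.nd
  · filter_upwards [k.rr, ev h a, ev h' a'] with r u v w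
    rw [(eq2 h' w).2.1, ← (eq2 h v).2.1, (eq1 h' w).1, ← (eq1 h v).1, u]

end XCont

open XCont in
theorem rowCont : OfCont := by
  intro aff rfl' step line n Ω Z f O ps al pr cor ch hp sg ty
  obtain ⟨s₀, t0, k0, a0⟩ := (ty.and_eventually ((sg.ev ch.lx.j4).and (ev ch hp))).exists
  refine line (fun s => gz n f 1 (s, 0)) (fun s => cd (ee 0) (gz n f 1) (s, 0))
    (fun s => cd (ee 1) (gz n f 1) (s, 0)) {s | ((s, 0) : P) ∈ Ω}
    {s | ∃ O ps al pr, Cx n Ω Z f O ps al pr ∧ ((s, 0) : P) ∈ O ∧ Sr n Z ps (s, 0)} s₀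
    (cor.b.image_fst.subset fun s a => ⟨_, a, rfl⟩) ⟨O, ps, al, pr, ch, a0, k0⟩
    (fun s ⟨_, _, _, _, a, b, _⟩ => a.sub b) (isOpen_iff_mem_nhds.2 ?_) (fun s hs => ?_) ?_
    (t0.congr ((ev ch a0).mono fun _ b => (eq1 ch b).2) ((ev ch a0).mono fun _ b => (eq2 ch b).2.2))
    (fun s hs hG h0 h2 => ?_) fun s hs => ?_
  · rintro s ⟨O, ps, al, pr, a, b, k⟩
    filter_upwards [k.ev a.lx.j4, ev a b] with r u v
    exact ⟨O, ps, al, pr, a, v, u⟩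
  · obtain ⟨O, ps, al, pr, a, b⟩ := cor.ch _ hs
    refine ⟨?_, (cz_line b.lx.j4 (a := 1) (b := 1) le_rfl 0).continuousAt.congr
      ((ev b a).mono fun _ c => (eq2 b c).2.1), (cz_line b.lx.j4 (a := 0) (b := 2) le_rfl
        0).continuousAt.congr ((ev b a).mono fun _ c => (eq2 b c).2.2)⟩
    rw [← (eq2 b a).2.1]
    exact (hd0_of (cz_hasF b.lx.j4 (a := 0) (b := 1) le_rfl _)).congr_of_eventuallyEq
      ((ev b a).mono fun _ c => (eq1 b c).2.symm)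
  · rintro s ⟨O, ps, al, pr, b, a, k⟩
    obtain ⟨F, hF⟩ := rfl' n O Z ps al pr _ b.lx.l0 a k.crv.1 k.nul
    obtain ⟨A, B, hA⟩ := aff n O Z ps al pr _ b.lx.l0 a k.crv.1 k.nul
    refine ⟨(hF.self_of_nhds.1.comp (f := fun r : ℝ => ((r, 0) : P))
      (analyticAt_id.prod analyticAt_const)).congr ?_,
      (analyticAt_const.add (analyticAt_const.mul (Complex.ofRealCLM.analyticAt s))).congr
        (f := fun r : ℝ => A + B * r) ?_, (eq2 b a).2.1 ▸ k.nd⟩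
    · filter_upwards [((Continuous.prodMk_left (0 : ℝ)).tendsto s).eventually hF, ev b a]
        with r u v
      exact (u.2.2 le_rfl).trans (eq1 b v).2
    · filter_upwards [hA, ev b a] with r u v
      exact u.symm.trans (eq2 b v).2.2
  · obtain ⟨O, ps, al, pr, a, b⟩ := cor.ch _ hs
    have key : ∀ l : Filter ℝ, l ≤ 𝓝 s → {s | ∃ O ps al pr, Cx n Ω Z f O ps al pr ∧
        ((s, 0) : P) ∈ O ∧ Sr n Z ps (s, 0)} ∈ l → ∀ᶠ r in l, Sr n Z ps (r, 0) := fun l hl hG => by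
      filter_upwards [hG, hl (ev b a)]
      rintro r ⟨O', ps', al', pr', b', a', k⟩ v
      exact tr b' b a' v k
    simp only [← (eq2 b a).2.1, ← (eq2 b a).2.2, ← (eq1 b a).2] at h0 h2
    refine ⟨O, ps, al, pr, b, a, ?_⟩
    rcases hG with hG | hG
    · exact step n O Z ps al pr (s, 0) _ b.lx a (Or.inl rfl) (key _ nhdsWithin_le_nhds hG) h0 h2
    · exact step n O Z ps al pr (s, 0) _ b.lx a (Or.inr rfl) (key _ nhdsWithin_le_nhds hG) h0 h2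
  · have T : Tendsto (fun r : ℝ => ((r, 0) : P)) (𝓝[{s | ∃ O ps al pr, Cx n Ω Z f O ps al pr ∧
        ((s, 0) : P) ∈ O ∧ Sr n Z ps (s, 0)}] s) (𝓝[Ω] (s, 0)) :=
      (Continuous.prodMk_left (0 : ℝ)).continuousWithinAt.tendsto_nhdsWithin
        fun r ⟨_, _, _, _, a, b, _⟩ => a.sub b
    have L := fun t => ((cor.bd t 1 (s, 0) hs).comp T).ofReal
    have := (L 0).sub ((L (Real.pi / (2 * √n))).const_mul Complex.I)
    simpa [gz] using this

end Pool.Agent.MP_ed9623_an.R1
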