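import Pool.Agent.MP_ed9623_an.R1.Spec

/-! Where the fields are smooth at one time, the curl of the force is smooth. -/

open MeasureTheory Filter Topology Set
open scoped ContDiff

namespace Pool.Agent.MP_ed9623_an.R1

open H64 (pd)
open H77 (P E6 M2 Test ee vl gj ip perp di tl Pv P2 E2 Gam)
open S64 (CurlS)

namespace XCur

variable {N : Set P} {G θ : P → ℝ} {T T' : (P → ℝ) → ℝ}

theorem sm (o : IsOpen N) (hG : ContDiffOn ℝ ∞ G N) (hθ : Test N θ) :
    ContDiff ℝ ∞ fun x => G x * θ x := by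
  refine contDiff_iff_contDiffAt.2 fun x => ?_
  by_cases hx : x ∈ tsupport θ
  · exact (hG.contDiffAt (o.mem_nhds (hθ.2.2 hx))).mul hθ.1.contDiffAt
  · refine (contDiffAt_const (c := (0 : ℝ))).congr_of_eventuallyEq ?_
    filter_upwards [notMem_tsupport_iff_eventuallyEq.1 hx] with y hy
    simp [hy]

theorem int (o : IsOpen N) (hG : ContDiffOn ℝ ∞ G N) (hθ : Test N θ) :
    Integrable fun x => G x * θ x :=
  (sm o hG hθ).continuous.integrable_of_hasCompactSupport hθ.2.1.mul_left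

theorem smp (o : IsOpen N) (hG : ContDiffOn ℝ ∞ G N) (e : P) : ContDiffOn ℝ ∞ (pd e G) N :=
  fun _ hx => (((hG.contDiffAt (o.mem_nhds hx)).fderiv_right (m := ∞) (by simp)).clm_apply
    contDiffAt_const).contDiffWithinAt

theorem ibp (o : IsOpen N) (hG : ContDiffOn ℝ ∞ G N) (hθ : Test N θ) (e : P) :
    ∫ x, G x * pd e θ x = ∫ x, -pd e G x * θ x := by
  have h0 := H64.integral_pd_eq_zero volume e (contDiff_infty.1 (sm o hG hθ) 1) hθ.2.1.mul_left
  have k : ∀ x, pd e (fun y => G y * θ y) x = pd e G x * θ x + G x * pd e θ x := fun x => by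
    by_cases hx : x ∈ tsupport θ
    · exact H64.pd_mul e ((hG.contDiffAt (o.mem_nhds (hθ.2.2 hx))).differentiableAt (by simp))
        (H77.sm_diff hθ.1 x)
    · have a := notMem_tsupport_iff_eventuallyEq.1 hx
      have b : (fun y => G y * θ y) =ᶠ[𝓝 x] fun _ => 0 := a.mono fun y hy => by simp [hy]
      rw [H64.pd_congr_pt e b, H64.pd_zero_fun, image_eq_zero_of_notMem_tsupport hx,
        image_eq_zero_of_notMem_tsupport fun h => hx (H77.tsupport_pd e θ h)]
      simp
  simp only [k] at h0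
  rw [integral_add (int o (smp o hG e) hθ) (int o hG (hθ.pd e))] at h0
  simp only [neg_mul, integral_neg]
  linarith

/-- The functional `T` is given by a smooth function on `N`. -/
def Rp (N : Set P) (T : (P → ℝ) → ℝ) : Prop :=
  ∃ G, ContDiffOn ℝ ∞ G N ∧ ∀ θ, Test N θ → T θ = ∫ x, G x * θ x

theorem Rp.congr (h : Rp N T) (e : ∀ θ, Test N θ → T' θ = T θ) : Rp N T' := by
  obtain ⟨G, a, b⟩ := h
  exact ⟨G, a, fun θ hθ => (e θ hθ).trans (b θ hθ)⟩

theorem Rp.add (o : IsOpen N) (h : Rp N T) (h' : Rp N T') : Rp N fun θ => T θ + T' θ := by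
  obtain ⟨G, a, b⟩ := h
  obtain ⟨G', a', b'⟩ := h'
  refine ⟨fun x => G x + G' x, a.add a', fun θ hθ => ?_⟩
  simp only [add_mul]
  rw [integral_add (int o a hθ) (int o a' hθ), b θ hθ, b' θ hθ]

theorem Rp.cmul (h : Rp N T) (c : ℝ) : Rp N fun θ => c * T θ := by
  obtain ⟨G, a, b⟩ := h
  refine ⟨fun x => c * G x, contDiffOn_const.mul a, fun θ hθ => ?_⟩
  simp only [mul_assoc, integral_const_mul, b θ hθ]

theorem Rp.der (o : IsOpen N) (h : Rp N T) (e : P) : Rp N fun θ => T (pd e θ) := by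
  obtain ⟨G, a, b⟩ := h
  exact ⟨fun x => -pd e G x, (smp o a e).neg, fun θ hθ => (b _ (hθ.pd e)).trans (ibp o a hθ e)⟩

theorem Rp.ng (h : Rp N T) : Rp N fun θ => T fun x => -θ x := by
  obtain ⟨G, a, b⟩ := h
  refine ⟨fun x => -G x, a.neg, fun θ hθ => (b _ hθ.neg).trans ?_⟩
  simp only [mul_neg, neg_mul]

theorem Rp.pp (o : IsOpen N) (h : Rp N T) (j : Fin 2) :
    Rp N fun θ => T (perp (fun _ => 0) θ j) := by
  fin_cases j
  · exact (h.ng.der o (ee 1)).congr fun θ _ => by simp [perp, H77.dd_zero]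
  · exact (h.der o (ee 0)).congr fun θ _ => by simp [perp, H77.dd_zero]

theorem Rp.sum (o : IsOpen N) {S : Fin 2 → (P → ℝ) → ℝ} (h : ∀ j, Rp N (S j)) :
    Rp N fun θ => ∑ j, S j θ :=
  ((h 0).add o (h 1)).congr fun _ _ => Fin.sum_univ_two _

theorem base {f : P → ℝ} (hG : ContDiffOn ℝ ∞ G N) (e : ∀ᵐ x, x ∈ N → G x = f x) :
    Rp N fun θ => ∫ x, f x * θ x :=
  ⟨G, hG, fun _ hθ => (H77.int_test_congr (fun _ => hθ.off) e).symm⟩

/-- The right-hand side of the stationary system is smooth where the field is. -/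
theorem p2 (o : IsOpen N) {Ω : Set P} (s : N ⊆ Ω) {R : ℝ} {u U f : Fin 2 → P → ℝ}
    {du : Fin 2 → Fin 2 → P → ℝ} (h : P2 (fun _ => 0) 1 Ω univ R u du f)
    (hU : ∀ j, ContDiffOn ℝ ∞ (U j) N) (e : ∀ j, ∀ᵐ x, x ∈ N → U j x = u j x) :
    Rp N fun θ => ip f (perp (fun _ => 0) θ) := by
  have a : Rp N fun θ => di (fun _ => 0) du (perp (fun _ => 0) θ) := by
    refine (Rp.sum o fun j => Rp.sum o fun i =>
      (((((base (hU j) (e j)).der o (ee i)).der o (ee i)).pp o j).cmul (-1))).congr fun θ hθ => ?_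
    refine Finset.sum_congr rfl fun j _ => Finset.sum_congr rfl fun i _ => ?_
    have := ((H77.H1O.zero_iff.1 (h.vf.h1 j)).2 i).2 _
      (((hθ.perp Gam.zero j).pd (ee i)).top)
    rw [H77.dd_zero, this]
    ring
  have b : Rp N fun θ => tl (fun _ => 0) u u (perp (fun _ => 0) θ) := by
    refine (Rp.sum o fun j => Rp.sum o fun i =>
      (((base (f := fun x => u i x * u j x) ((hU i).mul (hU j)) ?_).der o (ee i)).pp o j)).congr
        fun θ _ => ?_
    · filter_upwards [e i, e j] with x a b hx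
      rw [a hx, b hx]
    · simp only [tl, H77.dd_zero]
  refine (a.add o (b.cmul (-1))).congr fun θ hθ => ?_
  have := h.eq θ (hθ.mono s)
  unfold E2 at this
  linarith

end XCur

open XCur in
theorem rowCur : OfCur := by
  intro Ω N g R t a w A B W o s hP h
  have a1 := p2 o s (hP.p1 t) (U := fun j x => A j x + W j x)
    (fun j => (h j).1.add (h j).2.2.1)
    (fun j => (h j).2.2.2.mono fun x k hx => by rw [(k hx).1, (k hx).2.2])
  have a2 := p2 o s (hP.p2 t) (U := fun j x => A j x - W j x)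
    (fun j => (h j).1.sub (h j).2.2.1)
    (fun j => (h j).2.2.2.mono fun x k hx => by rw [(k hx).1, (k hx).2.2])
  have a3 : Rp N fun θ => ip (vl (deriv a t)) (perp (fun _ => 0) θ) :=
    Rp.sum o fun j => (base (h j).2.1 ((h j).2.2.2.mono fun x k hx => (k hx).2.1)).pp o j
  refine ((((a1.add o a2).cmul (-1 / 2)).add o (a3.cmul (-1))).congr fun θ hθ => ?_ :
    Rp N fun θ => -ip g (perp (fun _ => 0) θ))
  have m : ∀ j, M2 (perp (fun _ => 0) θ j) := fun j => (hθ.perp Gam.zero j).m2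
  have ma : ∀ j, M2 (vl (deriv a t) j) := fun j => M2.coe _
  have mw : ∀ j, M2 (vl (deriv w t) j) := fun j => M2.coe _
  have k : ∀ j, ∫ x, g j x * perp (fun _ => 0) θ j x =
      ((∫ x, (g j x - (vl (deriv a t) j x + vl (deriv w t) j x)) * perp (fun _ => 0) θ j x)
        + ∫ x, (g j x - (vl (deriv a t) j x - vl (deriv w t) j x)) * perp (fun _ => 0) θ j x) / 2
        + ∫ x, vl (deriv a t) j x * perp (fun _ => 0) θ j x := fun j => by
    have i1 := (hP.mg j).int_mul (m j)
    have i2 := (ma j).int_mul (m j)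
    have i3 := (mw j).int_mul (m j)
    simp only [sub_mul, add_mul]
    rw [integral_sub i1 (by exact i2.add i3), integral_sub i1 (by exact i2.sub i3),
      integral_add i2 i3, integral_sub i2 i3]
    ring
  simp only [ip, Fin.sum_univ_two, k]
  ring

end Pool.Agent.MP_ed9623_an.R1
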