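import Pool.Agent.MP_ed9623_an.R1.Base

/-! The jets are sinusoids on the closure of the zone. -/

open Filter Topology Set

namespace Pool.Agent.MP_ed9623_an.R1

open H77 (P ee)
open R77

theorem rowCz : OfCz := by
  intro n O Z ps al pr h t j
  have s0 := (Real.sqrt_pos.2 h.n0).ne'
  have one : ∀ a b, a + b = 1 → ∀ p ∈ O ∩ Z, ps t j a b p = (ex n t j * cz n ps a b p).re := by
    intro a b e p c
    have q : ps (Real.pi / (2 * √n)) 0 a b p = ps 0 1 a b p / √n := by
      rw [h.zt _ 0 a b e p c, show √n * (Real.pi / (2 * √n)) = Real.pi / 2 by field_simp,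
        Real.cos_pi_div_two, Real.sin_pi_div_two]
      ring
    have k : ∀ i, ps 0 i a b p = ((Complex.I * √n) ^ i * cz n ps a b p).re := fun i => by
      induction i using Nat.twoStepInduction with
      | zero => simp [cz]
      | one => simp [cz, q]; field_simp
      | more i h1 _ =>
        rw [h.zp 0 i a b e p c, h1, pow_add, mul_pow Complex.I _ 2, Complex.I_sq, ← Complex.ofReal_pow,
          Real.sq_sqrt h.n0.le, mul_right_comm]
        simp [mul_comm]
    rw [h.zt t j a b e p c, k, k, show ex n t j * cz n ps a b p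
      = ex n t 0 * ((Complex.I * √n) ^ j * cz n ps a b p) by simp only [ex]; ring, ex_re, pow_succ',
      mul_assoc, mul_assoc, Complex.I_mul_re, Complex.im_ofReal_mul]
    field_simp
    ring
  have o := h.oO.inter h.oZ
  have d : ∀ a b, a + b = 1 → ∀ p ∈ O ∩ Z,
      ps t j (a + 1) b p = (ex n t j * cz n ps (a + 1) b p).re ∧
        ps t j a (b + 1) p = (ex n t j * cz n ps a (b + 1) p).re := fun a b e p c => by
    have k := (((h.tj t).jp j).d a b (by omega) p).unique ((Complex.reCLM.hasFDerivAt.comp p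
      ((cz_hasF (n := n) h.j4 e.le p).const_mul (ex n t j))).congr_of_eventuallyEq
        (mem_of_superset (o.mem_nhds c) (one a b e)))
    exact ⟨by simpa using congrArg (fun L : P →L[ℝ] ℝ => L (1, 0)) k,
      by simpa using congrArg (fun L : P →L[ℝ] ℝ => L (0, 1)) k⟩
  intro a b e p c
  refine (isClosed_eq (((h.tj t).jp j).ct (by omega)) (Complex.continuous_re.comp
    (continuous_const.mul (cz_ct h.j4 (by omega))))).closure_subset_iff.2 (fun y hy => ?_)
      (h.oO.inter_closure c)
  rcases e with e | e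
  · exact one a b e y hy
  · obtain ⟨rfl, rfl⟩ | ⟨rfl, rfl⟩ | ⟨rfl, rfl⟩ :
      (a = 2 ∧ b = 0) ∨ (a = 1 ∧ b = 1) ∨ (a = 0 ∧ b = 2) := by omega
    exacts [(d 1 0 rfl y hy).1, (d 1 0 rfl y hy).2, (d 0 1 rfl y hy).2]

end Pool.Agent.MP_ed9623_an.R1
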