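import Pool.Agent.MP_ed9623_an.R77.Lz
import Pool.Agent.MP_ed9623_an.S64.SpecB

/-! The rough local and global structures, and the statements of the main parts. -/

open MeasureTheory Filter Topology Set
open scoped ContDiff ComplexConjugate

namespace Pool.Agent.MP_ed9623_an.R1

open H64 (pd SA D ST)
open H77 (P E6 M2 Van Test ee vl Pv TU)
open R77
open S64 (S3 DS Crv cst)

/-- The complex amplitude. -/
noncomputable def cz (n : ℝ) (ps : ℝ → ℕ → J2) (a b : ℕ) (p : P) : ℂ :=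
  ps 0 0 a b p - Complex.I * ps (Real.pi / (2 * √n)) 0 a b p

/-- The time factor. -/
noncomputable def ex (n t : ℝ) (j : ℕ) : ℂ :=
  (Complex.I * √n) ^ j * Complex.exp (Complex.I * (√n * t))

/-- The complex Hessian as a bilinear form. -/
noncomputable def hz (n : ℝ) (ps : ℝ → ℕ → J2) (e e' p : P) : ℂ :=
  e.1 * e'.1 * cz n ps 2 0 p + (e.1 * e'.2 + e.2 * e'.1) * cz n ps 1 1 p + e.2 * e'.2 * cz n ps 0 2 p

/-- The resultant of the real and imaginary parts of the Hessian. -/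
noncomputable def rsc (n : ℝ) (ps : ℝ → ℕ → J2) (p : P) : ℝ :=
  (cz n ps 2 0 p * conj (cz n ps 0 2 p)).im ^ 2
    - 4 * (cz n ps 2 0 p * conj (cz n ps 1 1 p)).im * (cz n ps 1 1 p * conj (cz n ps 0 2 p)).im

/-- Partial derivative and Laplacian of a complex function. -/
noncomputable def cd (e : P) (F : P → ℂ) : P → ℂ := fun x => fderiv ℝ F x e
noncomputable def lapC (F : P → ℂ) (x : P) : ℂ :=
  cd (ee 0) (cd (ee 0) F) x + cd (ee 1) (cd (ee 1) F) x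

/-- A level curve of the `C¹` function `Φ` touches the complement of `Z` at `p`. -/
structure Tc (Z : Set P) (p : P) (Φ : P → ℝ) : Prop where
  nm : p ∉ Z
  c1 : ContDiff ℝ (1 : ℕ) Φ
  ne : pd (ee 0) Φ p ≠ 0 ∨ pd (ee 1) Φ p ≠ 0
  up : ∀ᶠ y in 𝓝 p, Φ p < Φ y → y ∈ Z

/-- At some time, the two fields and the time derivative of the half sum are smooth near `p`. -/
def Smo (ps al : ℝ → ℕ → J2) (p : P) : Prop := ∃ t, ∀ a b, a + b = 1 → ∀ᶠ y in 𝓝 p,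
  ContDiffAt ℝ ∞ (ps t 0 a b) y ∧ ContDiffAt ℝ ∞ (al t 0 a b) y ∧ ContDiffAt ℝ ∞ (al t 1 a b) y

/-- The part of the local structure which does not depend on the choice of the zone. -/
structure L0 (n : ℝ) (O Z : Set P) (ps al pr : ℝ → ℕ → J2) : Prop where
  n0 : 0 < n
  oO : IsOpen O
  oZ : IsOpen Z
  tj : ∀ t, Tj O (ps t) (al t) (pr t)
  za : ∀ t j a b, a + b = 1 → ∀ p ∈ O ∩ Z, al t j a b p = 0
  zp : ∀ t j a b, a + b = 1 → ∀ p ∈ O ∩ Z, ps t (j + 2) a b p = -n * ps t j a b p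
  zt : ∀ t j a b, a + b = 1 → ∀ p ∈ O ∩ Z, ps t j a b p
    = Real.cos (√n * t) * ps 0 j a b p + Real.sin (√n * t) / √n * ps 0 (j + 1) a b p

theorem _root_.Pool.Agent.MP_ed9623_an.R77.Lz.l0 {n : ℝ} {O Z : Set P} {ps al pr : ℝ → ℕ → J2}
    (h : Lz n O Z ps al pr) : L0 n O Z ps al pr := ⟨h.n0, h.oO, h.oZ, h.tj, h.za, h.zp, h.zt⟩

/-- The local structure. -/
structure Lx (n : ℝ) (O Z : Set P) (ps al pr : ℝ → ℕ → J2) : Prop extends Lz n O Z ps al pr where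
  res : ∀ p ∈ O ∩ Z, ¬ ∀ᶠ y in 𝓝 p, ∃ e : P, e ≠ 0 ∧ ∀ t, hs (ps t 0) e e y = 0
  mj : ∀ x ∈ O ∩ closure Z, ∀ t, (∀ᶠ y in 𝓝 x, ∀ j, al t j 1 0 y = 0 ∧ al t j 0 1 y = 0) → x ∈ Z
  sm : ∀ x ∈ O, Smo ps al x → ∃ (O' : Set P) (α ψ : S3), x ∈ O' ∧ O' ⊆ O ∧ S64.Loc n α ψ O' Z ∧
    ∀ t, ∀ y ∈ O', (DS.d 1 ψ).1 (t, y) = ps t 0 1 0 y ∧ (DS.d 2 ψ).1 (t, y) = ps t 0 0 1 y

/-- A straight piece of the boundary of the zone. -/
structure Sr (n : ℝ) (Z : Set P) (ps : ℝ → ℕ → J2) (p : P) : Prop where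
  crv : Crv Z p (cst p.2)
  nul : ∀ᶠ s in 𝓝 p.1, cz n ps 2 0 (s, p.2) = 0
  nd : cz n ps 1 1 p ≠ 0
  rr : ∀ᶠ s in 𝓝 p.1, (cz n ps 1 0 (s, p.2) * conj (cz n ps 1 1 (s, p.2))).re = 0

/-- The logarithmic derivative of `|h'|`. -/
noncomputable def r0 (h : ℝ → ℂ) (s : ℝ) : ℝ := (deriv (deriv h) s / deriv h s).re

/-- `b'' / b` for `b = |h'| ^ (N / 2)`. -/
noncomputable def Pb (N : ℝ) (h : ℝ → ℂ) (s : ℝ) : ℝ :=
  N / 2 * deriv (r0 h) s + (N / 2 * r0 h s) ^ 2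

/-- The quantity given by the third harmonic. -/
noncomputable def Mf (N : ℝ) (h : ℝ → ℂ) (s : ℝ) : ℂ :=
  h s ^ 2 * Pb N h s - (2 * N ^ 2 + N - 2) / 2 * r0 h s * h s * deriv h s
    + (N ^ 2 - 1) * deriv h s ^ 2

/-- The three types of relations along a straight piece; `h` is the normal derivative of the
amplitude and `E` its second normal derivative. -/
def Ty (h E : ℝ → ℂ) (s₀ : ℝ) : Prop :=
  (∀ᶠ s in 𝓝 s₀, deriv (deriv h) s = r0 h s * deriv h s) ∧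
    ((∀ᶠ s in 𝓝 s₀, 3 * r0 h s * (h s * conj (deriv h s)).re = 4 * Complex.normSq (deriv h s)) ∨
      ∃ N : ℝ, 3 / 2 ≤ N ∧ r0 h s₀ ≠ 0 ∧
        (∀ᶠ s in 𝓝 s₀, HasDerivAt (Mf N h) (2 * r0 h s * Mf N h s) s) ∧
        ((∀ᶠ s in 𝓝 s₀, Pb N h s = 0 ∧ deriv E s = 0 ∧ (E s * conj (deriv h s)).im ≠ 0) ∨
          ∀ᶠ s in 𝓝 s₀, (h s * conj (deriv h s)).re * Pb N h s
            = N * (N + 1) / 3 * r0 h s * Complex.normSq (deriv h s)))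

/-- The alternatives on the line `x₂ = c`, near `s₀`. -/
def Tz (n : ℝ) (ps : ℝ → ℕ → J2) (c s₀ : ℝ) : Prop :=
  (∀ᶠ s in 𝓝 s₀, HasDerivAt (fun r => cz n ps 1 1 (r, c)) 0 s) ∨
    (∀ᶠ s in 𝓝 s₀, (cz n ps 1 0 (s, c) * conj (cz n ps 1 1 (s, c))).re = 0) ∧
      Ty (fun r => cz n ps 0 1 (r, c)) (fun r => cz n ps 0 2 (r, c)) s₀

/-- A chart in which the gradient of the stream function is `f`. -/
structure Cx (n : ℝ) (Ω Z : Set P) (f : ℝ → Fin 2 → P → ℝ) (O : Set P)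
    (ps al pr : ℝ → ℕ → J2) : Prop where
  lx : Lx n O Z ps al pr
  sub : O ⊆ Ω
  eq : ∀ t, ∀ y ∈ O, ps t 0 1 0 y = f t 0 y ∧ ps t 0 0 1 y = f t 1 y

/-- The global structure. -/
structure Cr (n : ℝ) (Ω Z : Set P) (f : ℝ → Fin 2 → P → ℝ) : Prop where
  o : IsOpen Ω
  b : Bornology.IsBounded Ω
  ch : ∀ x ∈ Ω, ∃ O ps al pr, x ∈ O ∧ Cx n Ω Z f O ps al pr
  bd : ∀ t j x, x ∉ Ω → Tendsto (f t j) (𝓝[Ω] x) (𝓝 0)

/-- Analyticity in time. -/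
def TJ (a : ℝ → E6) : Prop := ∀ (N : Set P) (t₀ : ℝ),
  (∀ m j, Van N (vl (iteratedDeriv m a t₀) j)) → ∀ t j, Van N (vl (a t) j)

/-- The defect of periodicity. -/
noncomputable def yw (n : ℝ) (w : ℝ → E6) (t : ℝ) : E6 := deriv (deriv w) t + n • w t

/-- Jets at all times on `O`. -/
structure Lk (O : Set P) (a w : ℝ → E6) (ps al pr : ℝ → ℕ → J2) : Prop where
  oO : IsOpen O
  tj : ∀ t, Tj O (ps t) (al t) (pr t)
  sw : ∀ t j, St2 O (iteratedDeriv j w t) (ps t j)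
  sa : ∀ t j, St2 O (iteratedDeriv j a t) (al t j)

/-- The zone. -/
structure Zo (n : ℝ) (Ω Z : Set P) (g : Fin 2 → P → ℝ) (R : ℝ) (a w : ℝ → E6) : Prop where
  n0 : 0 < n
  o : IsOpen Ω
  pv : Pv Ω g R a w
  tu : TU a
  tj : TJ a
  oZ : IsOpen Z
  cZ : IsPreconnected Z
  sub : Z ⊆ Ω
  za : ∀ t j, Van Z (vl (a t) j)
  zy : ∀ t j, Van Z (vl (yw n w t) j)
  mx : ∀ x ∈ Ω ∩ closure Z, ∀ N ∈ 𝓝 x, (∀ t j, Van N (vl (a t) j)) → x ∈ Z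

/-- Jets exist near every point. -/
def LkS : Prop := ∀ (Ω : Set P) (g : Fin 2 → P → ℝ) (R : ℝ) (a w : ℝ → E6), IsOpen Ω →
  Pv Ω g R a w → ∀ x ∈ Ω, ∃ O ps al pr, x ∈ O ∧ O ⊆ Ω ∧ Lk O a w ps al pr

/-- The jets are sinusoids on the closure of the zone. -/
def CzS : Prop := ∀ (n : ℝ) (O Z : Set P) (ps al pr : ℝ → ℕ → J2), L0 n O Z ps al pr →
  ∀ t j a b, a + b = 1 ∨ a + b = 2 → ∀ p ∈ O ∩ closure Z,
    ps t j a b p = (ex n t j * cz n ps a b p).re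

/-- The amplitude is analytic in the zone. -/
def AnZS : Prop := ∀ (n : ℝ) (O Z : Set P) (ps al pr : ℝ → ℕ → J2), L0 n O Z ps al pr →
  ∀ p ∈ O ∩ Z, (∀ a b, a + b = 1 ∨ a + b = 2 → AnalyticAt ℝ (cz n ps a b) p ∧
      lapC (cz n ps a b) p = Complex.I * √n * cz n ps a b p) ∧
    ∀ e : P, fderiv ℝ (fun y => cz n ps 2 0 y + cz n ps 0 2 y) p e
      = Complex.I * √n * (e.1 * cz n ps 1 0 p + e.2 * cz n ps 0 1 p)

/-- At a nondegenerate touching point the tangent is a null direction at all times. -/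
def TouchS : Prop := ∀ (n : ℝ) (O Z : Set P) (ps al pr : ℝ → ℕ → J2) (p : P) (Φ : P → ℝ) (t : ℝ),
  Lz n O Z ps al pr → p ∈ O → Tc Z p Φ → dt (ps t 0) p ≠ 0 →
  hz n ps (-pd (ee 1) Φ p, pd (ee 0) Φ p) (-pd (ee 1) Φ p, pd (ee 0) Φ p) p = 0

/-- A first integral of the null direction which is horizontal at `x`. -/
def EtaS : Prop := ∀ (O : Set P) (ps al pr : ℕ → J2) (x : P), IsOpen O → x ∈ O → Tj O ps al pr →
  ps 0 2 0 x = 0 → ps 0 1 1 x ≠ 0 → ∃ η : P → ℝ, ContDiff ℝ (1 : ℕ) η ∧ pd (ee 0) η x = 0 ∧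
    0 < pd (ee 1) η x ∧ ∀ᶠ y in 𝓝 x,
      hs (ps 0) (pd (ee 1) η y, -pd (ee 0) η y) (pd (ee 1) η y, -pd (ee 0) η y) y = 0

/-- The arc through a nondegenerate touching point, and the alternatives along it. -/
def ATS : Prop := ∀ (n : ℝ) (O Z : Set P) (ps al pr : ℝ → ℕ → J2) (Φ : P → ℝ),
  Lx n O Z ps al pr → 0 ∈ O → Tc Z 0 Φ → pd (ee 0) Φ 0 = 0 → pd (ee 1) Φ 0 < 0 →
  cz n ps 2 0 0 = 0 → cz n ps 1 1 0 ≠ 0 →
  ∃ γ : SA ℝ, deriv γ.1 0 = 0 ∧ Crv Z 0 γ ∧ ∀ᶠ s in 𝓝 (0 : ℝ),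
    (deriv (deriv γ.1) s ≠ 0 → ∃ᶠ r in 𝓝 s, Smo ps al (r, γ.1 r)) ∧
    ((∀ᶠ r in 𝓝 s, γ.1 r = 0) → ∃ᶠ r in 𝓝 s, Smo ps al (r, 0) ∨ Tz n ps 0 r)

end Pool.Agent.MP_ed9623_an.R1
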