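import Pool.Agent.MP_ed9623_an.S64.Fin3
import Pool.Agent.MP_ed9623_an.R1.Defs

/-! From uniqueness of complete bounded solutions to determining functionals. -/

open MeasureTheory Filter Topology Set
open scoped ContDiff InnerProductSpace

namespace Pool.Agent.MP_ed9623_an.R1

open H64 H77

theorem tay0 {E : Type} [NormedAddCommGroup E] [NormedSpace ℝ E] [CompleteSpace E] {f : ℝ → E}
    {C M t₀ : ℝ} (hf : ContDiff ℝ ∞ f)
    (h : ∀ n t, ‖iteratedDeriv n f t‖ ≤ C * M ^ n * (n.factorial : ℝ))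
    (h0 : ∀ n, iteratedDeriv n f t₀ = 0) (t : ℝ) : f t = 0 := by
  have h' : ∀ n t, ‖iteratedDeriv n f t‖ ≤ |C| * |M| ^ n * (n.factorial : ℝ) := fun n t =>
    (h n t).trans (mul_le_mul_of_nonneg_right (by
      rw [← abs_pow, ← abs_mul]; exact le_abs_self _) (Nat.cast_nonneg _))
  refine H77.rowTay f C M hf h (Metric.ball t₀ (1 / (|M| + 1))) Metric.isOpen_ball
    ⟨t₀, Metric.mem_ball_self (by positivity)⟩ (fun y hy => ?_) t
  have b : |M| * |y - t₀| < 1 := by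
    rw [Metric.mem_ball, Real.dist_eq, lt_div_iff₀ (by positivity)] at hy
    nlinarith [abs_nonneg (y - t₀)]
  have l := (tendsto_pow_atTop_nhds_zero_of_lt_one (by positivity) b).const_mul |C|
  rw [mul_zero] at l
  refine norm_le_zero_iff.1 (ge_of_tendsto' l fun n => ?_)
  have := Tay.bound hf h' h0 (y - t₀) n 0 1 ⟨zero_le_one, le_rfl⟩
  rw [iteratedDeriv_zero, one_mul, add_sub_cancel, zero_add] at this
  refine this.trans (le_of_eq ?_)
  have : (n.factorial : ℝ) ≠ 0 := by positivity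
  rw [mul_pow, one_pow]
  field_simp

theorem tj_of {Ω : Set P} {g : Fin 2 → P → ℝ} {S : St X2 (VV Ω)}
    {D : Pd X2 (VV Ω) (YY Ω)} (hM : Mod Ω g S D) {R : ℝ} {U W : ℝ → VV Ω} (hU : Bd S R univ U)
    (hW : Bd S R univ W) : TJ fun t => (1 / 2 : ℝ) • ((U t).1 + (W t).1) := by
  intro N t₀ h t
  obtain ⟨C, M, hb⟩ := Tan.bound (rowEnN aPl rowEqN) rowMaj S R
  have : CompleteSpace (VanX N) := (isClosed_VanX N).completeSpace_coe
  have sU : ContDiff ℝ ∞ U := contDiffOn_univ.1 hU.1.1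
  have sW : ContDiff ℝ ∞ W := contDiffOn_univ.1 hW.1.1
  let T : VV Ω →L[ℝ] X2 := (VanX N)ᗮ.starProjection.comp S.ι
  let A : VV Ω →L[ℝ] E6 := (1 / 2 : ℝ) • (Vs Ω).subtypeL
  have hT : ∀ v, T v = 0 ↔ ∀ j, Van N (vl (A v) j) := fun v => by
    show (VanX N)ᗮ.starProjection (S.ι v) = 0 ↔ _
    rw [Submodule.starProjection_apply_eq_zero_iff, Submodule.orthogonal_orthogonal, hM.ι]
    refine forall_congr' fun j => ⟨fun a => (VanS N (j, none)).smul_mem (1 / 2 : ℝ) a, fun a => ?_⟩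
    have := (VanS N (j, none)).smul_mem (2 : ℝ) (show (1 / 2 : ℝ) • v.1 ∈ VanS N (j, none) from a)
    rwa [smul_smul, mul_one_div_cancel two_ne_zero, one_smul] at this
  refine (hT (U t + W t)).1 (tay0 (f := fun t => T (U t + W t)) (C := 2 * C) (M := M) (t₀ := t₀)
    (T.contDiff.comp (sU.add sW)) (fun n s => ?_) (fun n => ?_) t)
  · rw [iter_clm T (sU.add sW) n]
    have e : iteratedDeriv n (fun t => U t + W t) s = iteratedDeriv n U s + iteratedDeriv n W s :=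
      iteratedDeriv_add (sU.of_le (by exact_mod_cast le_top)).contDiffAt
        (sW.of_le (by exact_mod_cast le_top)).contDiffAt
    show ‖(VanX N)ᗮ.starProjection (S.ι (iteratedDeriv n (fun t => U t + W t) s))‖ ≤ _
    refine ((VanX N)ᗮ.norm_starProjection_apply_le _).trans ?_
    rw [e, map_add]
    have a1 := hb U hU n s
    have a2 := hb W hW n s
    have := norm_add_le (S.ι (iteratedDeriv n U s)) (S.ι (iteratedDeriv n W s))
    linarith
  · rw [iter_clm T (sU.add sW) n]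
    refine (hT _).2 fun j => ?_
    have := h n j
    rwa [show (fun t => (1 / 2 : ℝ) • ((U t).1 + (W t).1)) = fun t => A (U t + W t) from rfl,
      iter_clm A (sU.add sW) n] at this

theorem fin4 {Ω : Set P} (o : IsOpen Ω) (hb : Bornology.IsBounded Ω) (g : Fin 2 → L2 Ω)
    (K : ∀ R a w, Pv Ω (fun j => xt Ω (g j)) R a w → TU a → TJ a → (∀ t, w t ∈ Ys Ω) →
      (∃ t, t ≤ 0 ∧ w t = 0) ∨ ∀ t, t < 0 → a t = 0) :
    ∃ (N : ℕ) (Φ : Fin N → L2 Ω →L[ℝ] ℝ), ∀ u p v q, Traj Ω g u p → Traj Ω g v q →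
      (∀ i, Tendsto (fun t => Φ i (p t) - Φ i (q t)) atTop (𝓝 0)) →
      Tendsto (fun t => ‖u t - v t‖) atTop (𝓝 0) := by
  have m := o.measurableSet
  have mg := fun j => m2_xt m (g j)
  obtain ⟨S, D, hM⟩ := rowModel wLad rowCpt _ _ hb mg
  obtain ⟨N, Λ, hΛ⟩ := aAf S D hM.anti hM.cpt fun R U W hU hW e => by
    obtain ⟨R', hP⟩ := rowCv _ _ S D R U W mg hM hU hW e
    have two : ∀ z : E6, (1 / 2 : ℝ) • z = 0 → z = 0 := fun z hz =>
      (smul_eq_zero.1 hz).resolve_left one_half_pos.ne'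
    rcases K R' _ _ hP (tu_of (rowTan (rowEnN aPl rowEqN) rowMaj H77.rowTay) hM hU hW)
      (tj_of hM hU hW) fun t =>
      Vs_le_Ys _ ((Vs _).smul_mem _ ((Vs _).sub_mem (U t).2 (W t).2)) with ⟨t, ht, a⟩ | a
    · exact ⟨t, ht, Subtype.ext (sub_eq_zero.1 (two _ a))⟩
    · exact ⟨-1, by norm_num, aDec hU hW fun t ht => Subtype.ext (two _ (a t ht))⟩
  obtain ⟨E, hE⟩ := exists_ext m
  have rz : ∀ i, ∃ ζ : YY Ω, ∀ y, ⟪y, ζ⟫_ℝ = Λ y i := fun i =>
    ⟨(InnerProductSpace.toDual ℝ _).symm (ContinuousLinearMap.proj i ∘L Λ), fun y => by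
      rw [real_inner_comm, InnerProductSpace.toDual_symm_apply]; rfl⟩
  choose ζ hζ using rz
  choose l hl using fun i => exists_int ((m2_gj (ζ i).1 0 0).add (m2_gj (ζ i).1 1 1))
  refine ⟨N, fun i => -(l i ∘L E.toContinuousLinearMap), fun u p v q hu hv hΦ => ?_⟩
  have key : ∀ u p, Traj Ω g u p → ∃ U, Sm S (Ioi 0) U ∧ ∀ t, 0 < t →
      (∀ j, S.ι (U t) j = E (u t j)) ∧ ∀ i, Λ (obs S D U t) i = -l i (E (p t)) := fun u p h => by
    obtain ⟨z, Z, a, b⟩ := rowTr1 _ g S D u p o hM h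
    obtain ⟨U, c, d⟩ := aSmooth (itv_Ioi 0) a
    have e : ∀ t, 0 < t → ∀ j, S.ι (U t) j =ᵐ[volume] xt _ (u t j) := fun t ht j => d t ht ▸ b t j
    refine ⟨U, c, fun t ht => ⟨fun j => Lp.ext ((e t ht j).trans (hE _).symm), fun i => ?_⟩⟩
    rw [← hζ, rowTr2 _ g S D u p U o hM h c e t ht, hl]
    exact congrArg _ (integral_congr_ae ((hE _).symm.mul EventuallyEq.rfl))
  obtain ⟨U, hU, a⟩ := key u p hu
  obtain ⟨W, hW, b⟩ := key v q hv
  refine squeeze_zero' (Eventually.of_forall fun _ => norm_nonneg _) ?_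
    (hΛ U W hU hW (tendsto_pi_nhds.2 fun i => (hΦ i).congr' ?_))
  · filter_upwards [eventually_gt_atTop 0] with t ht
    refine (pi_norm_le_iff_of_nonneg (norm_nonneg _)).2 fun j => ?_
    rw [← E.norm_map, Pi.sub_apply, map_sub, ← (a t ht).1, ← (b t ht).1, map_sub, ← PiLp.sub_apply]
    exact PiLp.norm_apply_le _ j
  · filter_upwards [eventually_gt_atTop 0] with t ht
    rw [map_sub, Pi.sub_apply, (a t ht).2, (b t ht).2]
    rfl

end Pool.Agent.MP_ed9623_an.R1
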