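import Pool.Agent.MP_ed9623_an.R1.Base
import Pool.Agent.MP_ed9623_an.R46.Pc
import Pool.Agent.MP_ed9623_an.R46.Sl
import Pool.Agent.MP_ed9623_an.R46.Sl1

/-! Weak solutions of the Helmholtz equation are smooth. -/

open MeasureTheory Filter Topology Set
open scoped ContDiff

namespace Pool.Agent.MP_ed9623_an.R1

open H64 H77 R77
open R46 (C1 Ho CRw)

namespace XHelA

variable {N : Set P} {u v k k' : P → ℝ}

/-- The weak Poisson equation. -/
def Wk (N : Set P) (u k : P → ℝ) : Prop := ∀ φ, Test N φ →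
  ∫ x, (pd (ee 0) u x * pd (ee 0) φ x + pd (ee 1) u x * pd (ee 1) φ x + k x * φ x) = 0

theorem Wk.congr (h : Wk N u k) (e : EqOn k k' N) : Wk N u k' := fun φ hφ => by
  rw [← h φ hφ]
  refine integral_congr_ae (Eventually.of_forall fun x => ?_)
  by_cases hx : x ∈ N
  · simp only [e hx]
  · simp only [hφ.off hx, mul_zero]

theorem dif (o : IsOpen N) (h : ContDiffOn ℝ 1 u N) {x : P} (hx : x ∈ N) :
    DifferentiableAt ℝ u x := (h.contDiffAt (o.mem_nhds hx)).differentiableAt one_ne_zero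

theorem ctp (o : IsOpen N) (h : ContDiffOn ℝ 1 u N) (e : P) : ContinuousOn (pd e u) N :=
  (h.continuousOn_fderiv_of_isOpen o le_rfl).clm_apply continuousOn_const

theorem wd (o : IsOpen N) (h : ContDiffOn ℝ 1 u N) (e : P) : WD N e u (pd e u) :=
  R46.wd_of_HD o h.continuousOn (ctp o h e) fun _ hp => HD.of_diff (dif o h hp)

theorem Wk.split (o : IsOpen N) (hu : ContDiffOn ℝ 1 u N) (hk : ContinuousOn k N) :
    Wk N u k ↔ ∀ φ, Test N φ → (∫ x, pd (ee 0) u x * pd (ee 0) φ x)
      + (∫ x, pd (ee 1) u x * pd (ee 1) φ x) + ∫ x, k x * φ x = 0 := by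
  refine forall₂_congr fun φ hφ => ?_
  have i0 := int_on o (ctp o hu (ee 0)) (hφ.pd (ee 0))
  have i1 := int_on o (ctp o hu (ee 1)) (hφ.pd (ee 1))
  have i2 : Integrable fun x => pd (ee 0) u x * pd (ee 0) φ x + pd (ee 1) u x * pd (ee 1) φ x :=
    i0.add i1
  rw [integral_add i2 (int_on o hk hφ), integral_add i0 i1]

theorem ho {x : P} {r : ℝ} (r1 : r ≤ 1 / 2) (hr : Metric.closedBall x r ⊆ N)
    (hk : ContDiffOn ℝ 1 k N) : ∃ M, 0 ≤ M ∧ Ho (Metric.ball x r) M k := by
  obtain ⟨K, hK⟩ := (hk.mono hr).exists_lipschitzOnWith one_ne_zero (convex_closedBall x r)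
    (isCompact_closedBall x r)
  obtain ⟨B, hB⟩ := (isCompact_closedBall x r).exists_bound_of_continuousOn
    (hk.continuousOn.mono hr)
  refine ⟨max K B, le_max_of_le_left K.2, fun p hp => le_max_of_le_right
    (hB p (Metric.ball_subset_closedBall hp)), fun p hp q hq => ?_⟩
  have h1 := hK.dist_le_mul p (Metric.ball_subset_closedBall hp) q
    (Metric.ball_subset_closedBall hq)
  have h2 : dist p q ≤ 1 := by
    have := dist_triangle_right p q x
    linarith [Metric.mem_ball.1 hp, Metric.mem_ball.1 hq]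
  have h3 : dist p q ≤ √(dist p q) := by
    refine Real.le_sqrt_of_sq_le ?_
    nlinarith [dist_nonneg (x := p) (y := q)]
  rw [Real.dist_eq] at h1
  exact h1.trans (mul_le_mul (le_max_left _ _) h3 dist_nonneg (le_max_of_le_left K.2))

theorem ho_ct {B : Set P} {M : ℝ} (h : Ho B M k) : ContinuousOn k B := fun p hp => by
  have t : Tendsto (fun q => M * √(dist q p)) (𝓝[B] p) (𝓝 0) :=
    (Continuous.tendsto' (by fun_prop) _ _ (by simp)).mono_left nhdsWithin_le_nhds
  refine tendsto_iff_dist_tendsto_zero.2 (squeeze_zero' (Eventually.of_forall fun _ => dist_nonneg)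
    ?_ t)
  filter_upwards [self_mem_nhdsWithin] with q hq
  exact h.2 q hq p hp

/-- One derivative is gained. -/
theorem gain (o : IsOpen N) (hu : ContDiffOn ℝ 1 u N) (hk : ContDiffOn ℝ 1 k N) (h : Wk N u k)
    (i : Fin 2) : ContDiffOn ℝ 1 (pd (ee i) u) N := fun x hx => by
  obtain ⟨C₀, -, hS⟩ := R46.rowSl (R46.rowSl1 R46.wKer)
  obtain ⟨r, r0, hr⟩ := Metric.nhds_basis_closedBall.mem_iff.1 (o.mem_nhds hx)
  obtain ⟨e, e0, e1, e2⟩ : ∃ e : ℝ, 0 < e ∧ 4 * e ≤ r ∧ 4 * e ≤ 1 / 2 :=
    ⟨min (r / 4) (1 / 8), by positivity, by linarith [min_le_left (r / 4) (1 / 8)],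
      by linarith [min_le_right (r / 4) (1 / 8)]⟩
  have s1 : Metric.closedBall x (4 * e) ⊆ N := (Metric.closedBall_subset_closedBall e1).trans hr
  have s2 : Metric.ball x (4 * e) ⊆ N := Metric.ball_subset_closedBall.trans s1
  obtain ⟨M, M0, hM⟩ := ho e2 s1 hk
  obtain ⟨A, hA⟩ := (isCompact_closedBall x (4 * e)).exists_bound_of_continuousOn
    ((ctp o hu (ee 0)).mono s1)
  obtain ⟨B, hB⟩ := (isCompact_closedBall x (4 * e)).exists_bound_of_continuousOn
    ((ctp o hu (ee 1)).mono s1)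
  have key := hS (Metric.ball x (4 * e)) (pd (ee 0) u) (fun p => -pd (ee 1) u p) k (fun _ => 0) M
    (max 0 (max A B)) e Metric.isOpen_ball e0 (by linarith) M0 (le_max_left _ _)
    ((ctp o hu _).mono s2) ((ctp o hu _).mono s2).neg
    (fun p hp => ⟨le_max_of_le_right (le_max_of_le_left
        (hA p (Metric.ball_subset_closedBall hp))), by
      rw [abs_neg]
      exact le_max_of_le_right (le_max_of_le_right (hB p (Metric.ball_subset_closedBall hp)))⟩)
    hM ⟨fun _ _ => by simpa using M0, fun p _ q _ => by simp; positivity⟩ (fun φ hφ => by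
      have hφ' := hφ.mono s2
      have i (a b : P) := int_on o (ctp o hu a) (hφ'.pd b)
      constructor
      · have := (Wk.split o hu hk.continuousOn).1 h φ hφ'
        simp only [neg_mul, sub_neg_eq_add]
        rw [integral_add (i _ _) (i _ _)]
        linarith
      · have a := wd o hu (ee 0) _ (hφ'.pd (ee 1))
        have b := wd o hu (ee 1) _ (hφ'.pd (ee 0))
        rw [pd_comm_sm hφ.1] at a
        simp only [neg_mul, ← sub_eq_add_neg, zero_mul, integral_zero, neg_zero]
        rw [integral_sub (i _ _) (i _ _)]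
        linarith)
  have s3 : ∀ y ∈ Metric.ball x e, Metric.ball y (3 * e) ⊆ Metric.ball x (4 * e) := fun y hy =>
    Metric.ball_subset_ball' (by linarith [Metric.mem_ball.1 hy])
  have fin : ∀ f ∈ ({pd (ee 0) u, fun p => -pd (ee 1) u p} : Set (P → ℝ)), ContDiffAt ℝ 1 f x :=
    fun f hf => (C1.cd (O := Metric.ball x e) ⟨(ho_ct ((key f hf).2 0)).mono s3,
      (ho_ct ((key f hf).2 1)).mono s3, fun y hy => R46.XSl.fd_lf ((key f hf).1 y (s3 y hy))⟩
      Metric.isOpen_ball).contDiffAt (Metric.ball_mem_nhds x e0)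
  refine ContDiffAt.contDiffWithinAt ?_
  fin_cases i
  · exact fin _ (Or.inl rfl)
  · simpa using (fin _ (Or.inr rfl)).neg

/-- The equation of the derivatives. -/
theorem der (o : IsOpen N) (hu : ContDiffOn ℝ 1 u N) (hk : ContDiffOn ℝ 1 k N) (h : Wk N u k)
    (i : Fin 2) : Wk N (pd (ee i) u) (pd (ee i) k) := by
  have g := gain o hu hk h
  refine (Wk.split o (g i) (ctp o hk _)).2 fun φ hφ => ?_
  have a := (Wk.split o hu hk.continuousOn).1 h _ (hφ.pd (ee i))
  have b := wd o hk (ee i) φ hφ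
  have c : ∀ e : P, ∫ x, pd e (pd (ee i) u) x * pd e φ x
      = -∫ x, pd e u x * pd e (pd (ee i) φ) x := fun e => by
    have c1 := wd o (g i) e _ (hφ.pd e)
    have c2 := wd o hu (ee i) _ ((hφ.pd e).pd e)
    have c3 := wd o hu e _ ((hφ.pd (ee i)).pd e)
    rw [pd_comm_sm (hφ.pd e).1, pd_comm_sm hφ.1 (ee i) e] at c2
    linarith
  rw [c, c]
  linarith

/-- The classical equation. -/
theorem cls (o : IsOpen N) (hu : ContDiffOn ℝ 1 u N) (hk : ContDiffOn ℝ 1 k N) (h : Wk N u k)
    {x : P} (hx : x ∈ N) :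
    pd (ee 0) (pd (ee 0) u) x + pd (ee 1) (pd (ee 1) u) x = k x := by
  have g := gain o hu hk h
  have c0 := ctp o (g 0) (ee 0)
  have c1 := ctp o (g 1) (ee 1)
  have ct : ContinuousOn (fun x => pd (ee 0) (pd (ee 0) u) x + pd (ee 1) (pd (ee 1) u) x - k x) N :=
    (c0.add c1).sub hk.continuousOn
  have := o.ae_eq_zero_of_integral_contDiff_smul_eq_zero (μ := volume)
    (ct.locallyIntegrableOn o.measurableSet) fun φ a b c => by
      have hφ : Test N φ := ⟨a, b, c⟩
      have e := (Wk.split o hu hk.continuousOn).1 h φ hφ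
      rw [wd o (g 0) _ φ hφ, wd o (g 1) _ φ hφ] at e
      have i0 := int_on o c0 hφ
      have i1 := int_on o c1 hφ
      have := integral_sub (i0.add i1) (int_on o hk.continuousOn hφ)
      rw [integral_add' i0 i1] at this
      refine Eq.trans (integral_congr_ae (Eventually.of_forall fun x => ?_))
        (this.trans (by linarith))
      simp only [smul_eq_mul, Pi.add_apply]
      ring
  exact sub_eq_zero.1 (Measure.eqOn_open_of_ae_eq ((ae_restrict_iff' o.measurableSet).2 this) o ct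
    continuousOn_const hx)

theorem succ {n : ℕ} (o : IsOpen N) (hu : ContDiffOn ℝ 1 u N)
    (h : ∀ i, ContDiffOn ℝ n (pd (ee i) u) N) : ContDiffOn ℝ (n + 1 : ℕ) u N := by
  rw [Nat.cast_succ]
  refine (contDiffOn_succ_iff_fderiv_of_isOpen o).2
    ⟨fun p hp => (dif o hu hp).differentiableWithinAt, by simp, ?_⟩
  refine ContDiffOn.congr (f := fun p => lf (pd (ee 0) u p) (pd (ee 1) u p)) ?_
    fun p hp => (R46.XSl.fd_lf (dif o hu hp)).fderiv
  exact ((h 0).smul contDiffOn_const).add ((h 1).smul contDiffOn_const)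

theorem pd_lin (o : IsOpen N) (hu : ContDiffOn ℝ 1 u N) (hv : ContDiffOn ℝ 1 v N) (a b : ℝ)
    (e : P) : EqOn (pd e fun x => a * u x + b * v x) (fun x => a * pd e u x + b * pd e v x) N :=
  fun _ hx => HD.pd_eq (((HD.of_diff (dif o hu hx)).cmul a).add ((HD.of_diff (dif o hv hx)).cmul b))
    (((dif o hu hx).const_mul a).add ((dif o hv hx).const_mul b))

theorem all (o : IsOpen N) (a b : ℝ) (n : ℕ) : ∀ u v : P → ℝ, ContDiffOn ℝ 1 u N →
    ContDiffOn ℝ 1 v N → Wk N u (fun x => a * u x + -b * v x) →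
    Wk N v (fun x => b * u x + a * v x) → ContDiffOn ℝ n u N ∧ ContDiffOn ℝ n v N := by
  induction n with
  | zero => exact fun u v hu hv _ _ => ⟨hu.of_le (by simp), hv.of_le (by simp)⟩
  | succ n ih =>
    intro u v hu hv h h'
    have l (s t : ℝ) : ContDiffOn ℝ 1 (fun x => s * u x + t * v x) N :=
      (contDiffOn_const.mul hu).add (contDiffOn_const.mul hv)
    have g := fun i => ih _ _ (gain o hu (l _ _) h i) (gain o hv (l _ _) h' i)
      ((der o hu (l _ _) h i).congr (pd_lin o hu hv _ _ _))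
      ((der o hv (l _ _) h' i).congr (pd_lin o hu hv _ _ _))
    exact ⟨succ o hu fun i => (g i).1, succ o hv fun i => (g i).2⟩

theorem pd_clm (L : ℂ →L[ℝ] ℝ) {F : P → ℂ} {x : P} (h : DifferentiableAt ℝ F x) (e : P) :
    pd e (fun y => L (F y)) x = L (cd e F x) := by
  have := (L.hasFDerivAt.comp x h.hasFDerivAt).fderiv
  exact congrArg (fun T : P →L[ℝ] ℝ => T e) this

theorem wk_clm (L : ℂ →L[ℝ] ℝ) {c : ℂ} {F : P → ℂ} (o : IsOpen N) (hF : ContDiffOn ℝ 1 F N)
    (h : Hw c N F) : Wk N (fun y => L (F y)) fun y => L (c * F y) := fun φ hφ => by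
  have ct : ∀ {G : P → ℂ} {ψ : P → ℝ}, ContinuousOn G N → Test N ψ →
      Integrable fun x => G x * ψ x := fun {G ψ} hG hψ => by
    have s : tsupport (fun x => G x * ψ x) ⊆ tsupport ψ :=
      closure_mono fun x hx e => hx (by simp [e])
    exact (ContinuousOn.continuous_of_tsupport_subset
      (hG.mul (Complex.continuous_ofReal.comp hψ.ct).continuousOn) o
      (s.trans hψ.2.2)).integrable_of_hasCompactSupport
        (hψ.2.1.of_isClosed_subset (isClosed_tsupport _) s)
  have cF (e : P) : ContinuousOn (cd e F) N :=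
    (hF.continuousOn_fderiv_of_isOpen o le_rfl).clm_apply continuousOn_const
  have i := ((ct (cF (ee 0)) (hφ.pd (ee 0))).add (ct (cF (ee 1)) (hφ.pd (ee 1)))).add
    (ct (G := fun x => c * F x) (continuousOn_const.mul hF.continuousOn) hφ)
  have e := L.integral_comp_comm i
  have z := h φ hφ
  have m (w : ℂ) (r : ℝ) : L (w * r) = L w * r := by
    rw [mul_comm, ← Complex.real_smul, map_smul, smul_eq_mul, mul_comm]
  refine Eq.trans (integral_congr_ae (Eventually.of_forall fun x => ?_))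
    (e.trans ((congrArg L z).trans (map_zero L)))
  simp only [Pi.add_apply, map_add, m]
  by_cases hx : x ∈ N
  · have d := (hF.contDiffAt (o.mem_nhds hx)).differentiableAt one_ne_zero
    rw [pd_clm L d, pd_clm L d]
  · simp only [(hφ.pd _).off hx, mul_zero]

end XHelA
open XHelA

theorem rowHelA : OfHelA := fun _ c N F o hF h => by
  have hF' : ContDiffOn ℝ 1 F N := by simpa using hF
  have hu : ContDiffOn ℝ 1 (fun y => Complex.reCLM (F y)) N :=
    Complex.reCLM.contDiff.comp_contDiffOn hF'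
  have hv : ContDiffOn ℝ 1 (fun y => Complex.imCLM (F y)) N :=
    Complex.imCLM.contDiff.comp_contDiffOn hF'
  have wu := wk_clm Complex.reCLM o hF' h
  have wv := wk_clm Complex.imCLM o hF' h
  have sm : ContDiffOn ℝ ∞ F N := contDiffOn_infty.2 fun n => by
    obtain ⟨a, b⟩ := all o c.re c.im n _ _ hu hv
      (wu.congr fun x _ => by simp [sub_eq_add_neg]) (wv.congr fun x _ => by simp [add_comm])
    refine ContDiffOn.congr (f := fun y => Complex.ofRealCLM (Complex.reCLM (F y))
      + Complex.ofRealCLM (Complex.imCLM (F y)) * Complex.I) ?_ fun y _ => by simp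
    exact (Complex.ofRealCLM.contDiff.comp_contDiffOn a).add
      ((Complex.ofRealCLM.contDiff.comp_contDiffOn b).mul contDiffOn_const)
  refine ⟨sm, fun x hx => ?_⟩
  have key : ∀ L : ℂ →L[ℝ] ℝ, L (lapC F x) = L (c * F x) := fun L => by
    have p2 (e : P) : pd e (pd e fun y => L (F y)) x = L (cd e (cd e F) x) := by
      rw [← pd_clm L ((cd_sm e (sm.contDiffAt (o.mem_nhds hx))).differentiableAt (by simp)) e]
      refine congrArg (fun T : P →L[ℝ] ℝ => T e) (Filter.EventuallyEq.fderiv_eq ?_)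
      filter_upwards [o.mem_nhds hx] with y hy
      exact pd_clm L ((hF'.contDiffAt (o.mem_nhds hy)).differentiableAt one_ne_zero) e
    have := cls o (L.contDiff.comp_contDiffOn hF')
      (L.contDiff.comp_contDiffOn (contDiffOn_const.mul hF')) (wk_clm L o hF' h) hx
    rw [lapC, map_add, ← p2, ← p2]
    exact this
  exact Complex.ext (key Complex.reCLM) (key Complex.imCLM)

end Pool.Agent.MP_ed9623_an.R1
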