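import Pool.Agent.MP_ed9623_an.R1.Base
import Pool.Agent.MP_ed9623_an.H69.AnaZ

/-! Smooth solutions of the Helmholtz equation with imaginary parameter are analytic. -/

open MeasureTheory Filter Topology Set
open scoped ContDiff

namespace Pool.Agent.MP_ed9623_an.R1

open H64 (pd SA ST PP D e0 e1 e2 up sl d1 d2)
open H77 (P ee)

namespace XHelB

theorem loc {f : PP → ℝ} {x : PP} (h : ∀ᶠ y in 𝓝 x, ContDiffAt ℝ ∞ f y) :
    ∃ F : SA PP, F.1 =ᶠ[𝓝 x] f := by
  obtain ⟨r, hr, hrf⟩ := Metric.eventually_nhds_iff_ball.1 h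
  let b : ContDiffBump x := ⟨r / 3, r / 2, by positivity, by linarith⟩
  refine ⟨⟨fun y => b y * f y, (contDiff_iff_contDiffAt.2 fun y => ?_ :
    ContDiff ℝ ∞ fun y => b y * f y)⟩, ?_⟩
  · by_cases hy : y ∈ Metric.ball x r
    · exact b.contDiff.contDiffAt.mul (hrf y hy)
    · have : y ∉ tsupport b := by
        rw [b.tsupport_eq]
        exact fun h => hy (Metric.closedBall_subset_ball (by simp only [b]; linarith) h)
      refine (contDiffAt_const (c := (0 : ℝ))).congr_of_eventuallyEq ?_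
      filter_upwards [notMem_tsupport_iff_eventuallyEq.1 this] with w hw
      rw [hw]; simp
  · filter_upwards [b.eventuallyEq_one] with y hy
    rw [hy]; simp

/-- A function of time. -/
noncomputable def tm (g : ℝ → ℝ) (h : ContDiff ℝ ∞ g) : SA ST :=
  ⟨fun z => g z.1, h.comp contDiff_fst⟩

theorem D_tm {g g' : ℝ → ℝ} (h : ContDiff ℝ ∞ g) (hd : ∀ t, HasDerivAt g (g' t) t) (e z : ST) :
    (D e (tm g h)).1 z = g' z.1 * e.1 := by
  have := (hd z.1).hasFDerivAt.comp z (hasFDerivAt_fst (𝕜 := ℝ) (p := z))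
  change fderiv ℝ (g ∘ Prod.fst) z e = _
  rw [this.fderiv]
  simp [mul_comm]

theorem sm_c (ν : ℝ) : ContDiff ℝ ∞ fun t => Real.cos (ν * t) := by fun_prop
theorem sm_s (ν : ℝ) : ContDiff ℝ ∞ fun t => Real.sin (ν * t) := by fun_prop

theorem hd_c (ν t : ℝ) : HasDerivAt (fun t => Real.cos (ν * t)) (-(ν * Real.sin (ν * t))) t :=
  (((hasDerivAt_id t).const_mul ν).cos).congr_deriv (by simp [mul_comm])
theorem hd_s (ν t : ℝ) : HasDerivAt (fun t => Real.sin (ν * t)) (ν * Real.cos (ν * t)) t :=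
  (((hasDerivAt_id t).const_mul ν).sin).congr_deriv (by simp [mul_comm])

theorem core (a b : SA PP) {ν : ℝ} (hν : ν ≠ 0) {x : PP}
    (h : ∀ᶠ y in 𝓝 x, (d1 (d1 a) + d2 (d2 a) + ν • b).1 y = 0 ∧
      (d1 (d1 b) + d2 (d2 b) - ν • a).1 y = 0) : AnalyticAt ℝ b.1 x := by
  obtain ⟨c, hc⟩ : ∃ c, c = tm _ (sm_c ν) := ⟨_, rfl⟩
  obtain ⟨s, hs⟩ : ∃ s, s = tm _ (sm_s ν) := ⟨_, rfl⟩
  have c1 : D e1 c = 0 := Subtype.ext (funext fun z => by
    rw [hc, D_tm _ (hd_c ν)]; exact mul_zero _)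
  have c2 : D e2 c = 0 := Subtype.ext (funext fun z => by
    rw [hc, D_tm _ (hd_c ν)]; exact mul_zero _)
  have s1 : D e1 s = 0 := Subtype.ext (funext fun z => by
    rw [hs, D_tm _ (hd_s ν)]; exact mul_zero _)
  have s2 : D e2 s = 0 := Subtype.ext (funext fun z => by
    rw [hs, D_tm _ (hd_s ν)]; exact mul_zero _)
  have c0 : D e0 c = -(ν • s) := Subtype.ext (funext fun z => by
    rw [hc, hs, D_tm _ (hd_c ν)]; exact mul_one _)
  have s0 : D e0 s = ν • c := Subtype.ext (funext fun z => by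
    rw [hc, hs, D_tm _ (hd_s ν)]; exact mul_one _)
  obtain ⟨ψ, hψ⟩ : ∃ ψ : SA ST, ψ = c * up a - s * up b := ⟨_, rfl⟩
  have u1 : ∀ g : SA PP, D e1 (up g) = up (d1 g) := fun g => H64.D_up g (1, 0)
  have u2 : ∀ g : SA PP, D e2 (up g) = up (d2 g) := fun g => H64.D_up g (0, 1)
  have u0 : ∀ g : SA PP, D e0 (up g) = 0 := H64.dt_up
  have e : H77.AnaZ.ht ψ = c * up (d1 (d1 a) + d2 (d2 a) + ν • b)
      - s * up (d1 (d1 b) + d2 (d2 b) - ν • a) := by
    have v1 : up (d1 (d1 a) + d2 (d2 a) + ν • b) = up (d1 (d1 a)) + up (d2 (d2 a)) + ν • up b := rfl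
    have v2 : up (d1 (d1 b) + d2 (d2 b) - ν • a) = up (d1 (d1 b)) + up (d2 (d2 b)) - ν • up a := rfl
    rw [v1, v2, hψ]
    simp only [H77.AnaZ.ht, map_sub, H64.D_mul, c1, c2, s1, s2, c0, s0, u0, u1, u2,
      zero_mul, zero_add, mul_zero, add_zero]
    simp only [Algebra.smul_def]
    ring
  have h0 : (H77.AnaZ.ht ψ).1 =ᶠ[𝓝 ((0, x) : ST)] fun _ => 0 := by
    have : ∀ᶠ z : ST in 𝓝 (0, x), _ := continuous_snd.continuousAt.eventually h
    filter_upwards [this] with z hz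
    rw [e]
    change c.1 z * (d1 (d1 a) + d2 (d2 a) + ν • b).1 z.2
      - s.1 z * (d1 (d1 b) + d2 (d2 b) - ν • a).1 z.2 = 0
    rw [hz.1, hz.2]; simp
  have dz : ∀ (f : SA ST) (v : ST), (f.1 =ᶠ[𝓝 ((0, x) : ST)] fun _ => 0) →
      (D v f).1 =ᶠ[𝓝 ((0, x) : ST)] fun _ => 0 := fun f v hf => by
    filter_upwards [H64.pd_congr v hf] with y a
    exact a.trans (H64.pd_const v y 0)
  have k : ∀ f : SA ST, D e2 (D e1 f) = D e1 (D e2 f) := H64.D_comm _ _
  have k1 : ∀ f : SA ST, D e1 (D e0 f) = D e0 (D e1 f) := H64.D_comm _ _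
  have k2 : ∀ f : SA ST, D e2 (D e0 f) = D e0 (D e2 f) := H64.D_comm _ _
  obtain ⟨a0, a1⟩ := H64.ana_local (-D e2 ψ) (D e1 ψ) 0 (σ := 0) (by norm_num) (z := (0, x))
    analyticAt_const (by
      rw [H77.AnaZ.vort_eq]
      have w0 : D e1 (-D e2 ψ) + D e2 (D e1 ψ) = 0 := by rw [map_neg, k]; ring
      have w1 : D e2 (H77.AnaZ.ht (-D e2 ψ)) - D e1 (H77.AnaZ.ht (D e1 ψ))
          = -(D e2 (D e2 (H77.AnaZ.ht ψ)) + D e1 (D e1 (H77.AnaZ.ht ψ))) := by
        simp only [H77.AnaZ.ht, map_sub, map_add, map_neg, k, k1, k2]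
        ring
      rw [w0, w1]
      filter_upwards [dz _ e2 (dz _ e2 h0), dz _ e1 (dz _ e1 h0)] with y p q
      refine ⟨rfl, ?_⟩
      change -((D e2 (D e2 (H77.AnaZ.ht ψ))).1 y + (D e1 (D e1 (H77.AnaZ.ht ψ))).1 y) = 0
      rw [p, q]; simp)
  have z0 : sl 0 ψ = a := Subtype.ext (funext fun y => by
    rw [hψ, hc, hs]
    change Real.cos (ν * 0) * a.1 y - Real.sin (ν * 0) * b.1 y = a.1 y
    simp)
  simp only [map_neg, H64.sl_e1, H64.sl_e2, z0] at a0 a1
  have av : AnalyticAt ℝ (d1 (d1 a) - d2 (-d2 a)).1 x :=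
    (H77.AnaZ.ana_D a1 _).sub (H77.AnaZ.ana_D a0 _)
  rw [map_neg, sub_neg_eq_add] at av
  refine (av.const_smul (c := -ν⁻¹)).congr ?_
  filter_upwards [h] with y hy
  have : (d1 (d1 a) + d2 (d2 a)).1 y + ν * b.1 y = 0 := hy.1
  change -ν⁻¹ * (d1 (d1 a) + d2 (d2 a)).1 y = b.1 y
  rw [eq_neg_of_add_eq_zero_left this]
  field_simp

/-- The complex function with the given real and imaginary parts. -/
noncomputable def cx (a b : SA PP) (y : PP) : ℂ := a.1 y + Complex.I * b.1 y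

theorem cd_cx (e : PP) (a b : SA PP) : cd e (cx a b) = cx (D e a) (D e b) := by
  funext y
  have ha := (Complex.ofRealCLM.hasFDerivAt.comp y
    ((a.sm.differentiable (by simp)) y).hasFDerivAt)
  have hb := (Complex.ofRealCLM.hasFDerivAt.comp y
    ((b.sm.differentiable (by simp)) y).hasFDerivAt)
  have := ha.add (hb.const_mul Complex.I)
  change fderiv ℝ (Complex.ofRealCLM ∘ a.1 + fun y => Complex.I * (Complex.ofRealCLM ∘ b.1) y) y e
    = _
  rw [this.fderiv]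
  simp [cx, H64.D_val, pd]

end XHelB

open XHelB in
theorem rowHelB : OfHelB := by
  intro ν F x hν h
  obtain ⟨a, ha⟩ := loc (f := fun y => (F y).re) (x := x)
    (h.mono fun y hy => Complex.reCLM.contDiff.contDiffAt.comp y hy.1)
  obtain ⟨b, hb⟩ := loc (f := fun y => (F y).im) (x := x)
    (h.mono fun y hy => Complex.imCLM.contDiff.contDiffAt.comp y hy.1)
  have e : cx a b =ᶠ[𝓝 x] F := by
    filter_upwards [ha, hb] with y p q
    rw [cx, p, q, mul_comm]
    exact Complex.re_add_im _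
  have k : ∀ᶠ y in 𝓝 x, (d1 (d1 a) + d2 (d2 a) + ν • b).1 y = 0 ∧
      (d1 (d1 b) + d2 (d2 b) - ν • a).1 y = 0 := by
    filter_upwards [h, e, lapC_congr e] with y p q r
    rw [p.2, ← q, lapC, cd_cx, cd_cx, cd_cx, cd_cx] at r
    have r1 := congrArg Complex.re r
    have r2 := congrArg Complex.im r
    simp only [cx, Complex.add_re, Complex.add_im, Complex.mul_re, Complex.mul_im, Complex.I_re,
      Complex.I_im, Complex.ofReal_re, Complex.ofReal_im] at r1 r2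
    constructor
    · change (D (ee 0) (D (ee 0) a)).1 y + (D (ee 1) (D (ee 1) a)).1 y + ν * b.1 y = 0
      linarith
    · change (D (ee 0) (D (ee 0) b)).1 y + (D (ee 1) (D (ee 1) b)).1 y - ν * a.1 y = 0
      linarith
  have ab := core a b hν k
  have aa := core b (-a) hν (k.mono fun y hy => by
    refine ⟨by rw [smul_neg, ← sub_eq_add_neg]; exact hy.2, ?_⟩
    have : d1 (d1 (-a)) + d2 (d2 (-a)) - ν • b = -(d1 (d1 a) + d2 (d2 a) + ν • b) := by
      simp only [map_neg]; ring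
    rw [this]
    exact neg_eq_zero.2 hy.1)
  have aa' : AnalyticAt ℝ a.1 x := by
    refine aa.neg.congr (Eventually.of_forall fun y => ?_)
    exact neg_neg _
  refine AnalyticAt.congr ?_ e
  exact ((Complex.ofRealCLM.analyticAt _).comp aa').add
    (analyticAt_const.mul ((Complex.ofRealCLM.analyticAt _).comp ab))

end Pool.Agent.MP_ed9623_an.R1
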