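import Pool.Agent.MP_ed9623_an.R1.Spec
import Pool.Agent.MP_ed9623_an.R77.Rep

/-! The jets in the zone. -/

open MeasureTheory Filter Topology Set
open scoped ContDiff InnerProductSpace

namespace Pool.Agent.MP_ed9623_an.R1

open H77
open R77

namespace XL0a

/-- The scalar oscillator. -/
theorem osc {n : ℝ} (n0 : 0 < n) {y y' : ℝ → ℝ} (h : ∀ t, HasDerivAt y (y' t) t)
    (h' : ∀ t, HasDerivAt y' (-n * y t) t) (t : ℝ) :
    y t = Real.cos (√n * t) * y 0 + Real.sin (√n * t) / √n * y' 0 := by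
  have k0 : 0 < √n := Real.sqrt_pos.2 n0
  have kk : √n * √n = n := Real.mul_self_sqrt n0.le
  generalize √n = k at k0 kk ⊢
  have l : ∀ s, HasDerivAt (fun s => k * s) k s := fun s => by
    simpa using (hasDerivAt_id s).const_mul k
  have a : ∀ s, HasDerivAt (fun s => Real.cos (k * s) * y s - Real.sin (k * s) / k * y' s) 0 s :=
    fun s => by
      refine (((l s).cos.mul (h s)).sub (((l s).sin.div_const k).mul (h' s))).congr_deriv ?_
      rw [← kk]
      field_simp
      ring
  have b : ∀ s, HasDerivAt (fun s => k * Real.sin (k * s) * y s + Real.cos (k * s) * y' s) 0 s :=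
    fun s => by
      refine ((((l s).sin.const_mul k).mul (h s)).add ((l s).cos.mul (h' s))).congr_deriv ?_
      rw [← kk]
      ring
  have a' := is_const_of_deriv_eq_zero (fun s => (a s).differentiableAt) (fun s => (a s).deriv) t 0
  have b' := is_const_of_deriv_eq_zero (fun s => (b s).differentiableAt) (fun s => (b s).deriv) t 0
  simp only [mul_zero, Real.cos_zero, Real.sin_zero, one_mul, zero_div, zero_mul, sub_zero,
    zero_add] at a' b'
  rw [← a', ← b']
  have e := Real.sin_sq_add_cos_sq (k * t)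
  field_simp
  linear_combination (-k * y t) * e

theorem per {S : Submodule ℝ E6} (hS : IsClosed (S : Set E6)) {n : ℝ} {w : ℝ → E6}
    (hw : ContDiff ℝ ∞ w) (h : ∀ t, yw n w t ∈ S) (j : ℕ) :
    ∀ t, iteratedDeriv (j + 2) w t + n • iteratedDeriv j w t ∈ S := by
  induction j with
  | zero =>
    intro t
    rw [iteratedDeriv_succ, iteratedDeriv_succ, iteratedDeriv_zero]
    exact h t
  | succ j ih =>
    intro t
    have := deriv_mem hS (t := t) (Eventually.of_forall ih)
    rwa [((sm_hasDerivAt (sm_iter hw (j + 2)) t).fun_add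
      ((sm_hasDerivAt (sm_iter hw j) t).fun_const_smul n)).deriv, ← iteratedDeriv_succ,
      ← iteratedDeriv_succ] at this

theorem sol {S : Submodule ℝ E6} (hS : IsClosed (S : Set E6)) {n : ℝ} (n0 : 0 < n) {w : ℝ → E6}
    (hw : ContDiff ℝ ∞ w) (j : ℕ)
    (h : ∀ t, iteratedDeriv (j + 2) w t + n • iteratedDeriv j w t ∈ S) (t : ℝ) :
    iteratedDeriv j w t - Real.cos (√n * t) • iteratedDeriv j w 0
      - (Real.sin (√n * t) / √n) • iteratedDeriv (j + 1) w 0 ∈ S := by
  have : CompleteSpace S := hS.completeSpace_coe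
  rw [← S.orthogonal_orthogonal]
  intro u hu
  have d : ∀ m s, HasDerivAt (fun s => ⟪u, iteratedDeriv m w s⟫_ℝ)
      ⟪u, iteratedDeriv (m + 1) w s⟫_ℝ s := fun m s => by
    rw [iteratedDeriv_succ]
    exact (innerSL ℝ u).hasFDerivAt.comp_hasDerivAt s (sm_hasDerivAt (sm_iter hw m) s)
  have e : ∀ s, ⟪u, iteratedDeriv (j + 1 + 1) w s⟫_ℝ = -n * ⟪u, iteratedDeriv j w s⟫_ℝ := fun s => by
    have := Submodule.inner_left_of_mem_orthogonal (h s) hu
    rw [inner_add_right, real_inner_smul_right] at this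
    linarith
  rw [inner_sub_right, inner_sub_right, real_inner_smul_right, real_inner_smul_right,
    osc n0 (d j) (fun s => e s ▸ d (j + 1) s) t]
  ring

theorem lin {O Z : Set P} (oO : IsOpen O) (oZ : IsOpen Z) {u v w : E6} {F G H : J2} {α β : ℝ}
    (jF : Jt 3 F) (jG : Jt 3 G) (jH : Jt 3 H) (sF : St2 O u F) (sG : St2 O v G) (sH : St2 O w H)
    (h : ∀ i, u - α • v - β • w ∈ VanS Z (i, none)) {a b : ℕ} (e : a + b = 1) :
    ∀ p ∈ O ∩ Z, F a b p = α * G a b p + β * H a b p := by
  intro p hp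
  have k : ∀ i, ∀ᵐ q, q ∈ Z → vl u i q = α * vl v i q + β * vl w i q := fun i => by
    filter_upwards [h i, co_sub (u - α • v) (β • w) (i, none), co_sub u (α • v) (i, none),
      co_smul α v (i, none), co_smul β w (i, none)] with q c1 c2 c3 c4 c5 hq
    have := c1 hq
    rw [c2, c3, c4, c5] at this
    simp only [vl]
    linarith
  have c1 := jF.ct (a := a) (b := b) (by omega)
  have c2 := jG.ct (a := a) (b := b) (by omega)
  have c3 := jH.ct (a := a) (b := b) (by omega)
  refine eq_of_ae (g := fun p => α * G a b p + β * H a b p) (oO.inter oZ) c1.continuousOn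
    (by fun_prop) ?_ hp
  filter_upwards [k 0, k 1, sF, sG, sH] with q k0 k1 a1 a2 a3 hq
  obtain ⟨rfl, rfl⟩ | ⟨rfl, rfl⟩ := one_cases e
  · rw [(a1 hq.1).1, (a2 hq.1).1, (a3 hq.1).1, k1 hq.2]
  · rw [(a1 hq.1).2, (a2 hq.1).2, (a3 hq.1).2, k0 hq.2]
    ring

end XL0a

theorem rowL0a : OfL0a := by
  intro n Ω Z O g R a w ps al pr hZ hL
  have jp : ∀ t j, Jt 3 (ps t j) := fun t j => ((hL.tj t).jp j).mono (by omega)
  have pe := fun i => XL0a.per (isClosed_VanS Z (i, none)) hZ.pv.sw (fun t => hZ.zy t i)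
  refine ⟨hZ.n0, hL.oO, hZ.oZ, hL.tj, fun t j u v e p hp => ?_, fun t j u v e p hp => ?_,
    fun t j u v e p hp => ?_⟩
  · have ja := (hL.tj t).ja3 j
    have := XL0a.lin (α := 0) (β := 0) hL.oO hZ.oZ ja ja ja (hL.sa t j) (hL.sa t j) (hL.sa t j)
      (fun i => by
        rw [zero_smul, sub_zero, sub_zero]
        exact iter_mem (isClosed_VanS Z (i, none)) j (Eventually.of_forall fun s => hZ.za s i))
      e p hp
    simpa using this
  · have := XL0a.lin (α := -n) (β := 0) hL.oO hZ.oZ (jp t (j + 2)) (jp t j) (jp t j)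
      (hL.sw t (j + 2)) (hL.sw t j) (hL.sw t j) (fun i => by
        rw [zero_smul, sub_zero, neg_smul, sub_neg_eq_add]
        exact pe i j t) e p hp
    simpa using this
  · exact XL0a.lin hL.oO hZ.oZ (jp t j) (jp 0 j) (jp 0 (j + 1)) (hL.sw t j) (hL.sw 0 j)
      (hL.sw 0 (j + 1)) (fun i => XL0a.sol (isClosed_VanS Z (i, none)) hZ.n0 hZ.pv.sw j (pe i j) t)
      e p hp

end Pool.Agent.MP_ed9623_an.R1
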