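import Pool.Agent.MP_ed9623_an.R1.Spec

/-! Maximality of the zone, in terms of the jets. -/

open MeasureTheory Filter Topology Set

namespace Pool.Agent.MP_ed9623_an.R1

open H77
open R77

namespace XL0b

theorem van {O N : Set P} {v : E6} {F : J2} (s : St2 O v F) (hN : N ⊆ O)
    (h : ∀ y ∈ N, F 1 0 y = 0 ∧ F 0 1 y = 0) : ∀ j, Van N (vl v j) := by
  refine Fin.forall_fin_two.2 ⟨?_, ?_⟩
  · filter_upwards [s] with p c hp
    have := (c (hN hp)).2
    rw [(h p hp).2] at this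
    linarith
  · filter_upwards [s] with p c hp
    rw [← (c (hN hp)).1, (h p hp).1]

theorem baire {C : ℕ → Set ℝ} {I : Set ℝ} (hC : ∀ k, IsClosed (C k)) (o : IsOpen I)
    (ne : I.Nonempty) (h : ∀ t ∈ I, ∃ k, t ∈ C k) :
    ∃ k, ∃ J : Set ℝ, IsOpen J ∧ J.Nonempty ∧ J ⊆ C k := by
  obtain ⟨s, k1, k2⟩ := (dense_iUnion_interior_of_closed (f := fun k => C k ∪ Iᶜ)
    (fun k => (hC k).union o.isClosed_compl) (eq_univ_of_forall fun t => by
      by_cases c : t ∈ I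
      · obtain ⟨k, hk⟩ := h t c
        exact mem_iUnion.2 ⟨k, Or.inl hk⟩
      · exact mem_iUnion.2 ⟨0, Or.inr c⟩)).inter_open_nonempty I o ne
  obtain ⟨k, hk⟩ := mem_iUnion.1 k2
  exact ⟨k, I ∩ interior (C k ∪ Iᶜ), o.inter isOpen_interior, ⟨s, k1, hk⟩,
    fun t ht => (interior_subset ht.2).resolve_right fun c => c ht.1⟩

end XL0b

theorem rowL0b : OfL0b := by
  intro n Ω Z O g R a w ps al pr hZ hL hO x hx
  refine ⟨fun I o ne h => ?_, fun t h => ?_⟩
  · obtain ⟨k, J, oJ, nJ, hJ⟩ := XL0b.baire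
      (C := fun k => {t | ∀ j : Fin 2, a t ∈ VanS (Metric.ball x (1 / ((k : ℝ) + 1))) (j, none)})
      (fun k => by
        rw [ofPred_forall]
        exact isClosed_iInter fun j => (isClosed_VanS _ _).preimage hZ.pv.sa.continuous) o ne
      (fun t ht => by
        obtain ⟨ε, e0, he⟩ := Metric.mem_nhds_iff.1 (inter_mem (h t ht) (hL.oO.mem_nhds hx.1))
        obtain ⟨k, hk⟩ := exists_nat_one_div_lt e0
        have s := (Metric.ball_subset_ball (x := x) hk.le).trans he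
        exact ⟨k, XL0b.van (hL.sa t 0) (fun y hy => (s hy).2) fun y hy => (s hy).1⟩)
    exact hZ.mx x ⟨hO hx.1, hx.2⟩ _ (Metric.ball_mem_nhds x (by positivity))
      (hZ.tu _ J oJ nJ fun t ht => hJ ht)
  · exact hZ.mx x ⟨hO hx.1, hx.2⟩ _ (inter_mem h (hL.oO.mem_nhds hx.1)) (hZ.tj _ t fun m =>
      XL0b.van (hL.sa t m) (fun y hy => hy.2) fun y hy => hy.1 m)

end Pool.Agent.MP_ed9623_an.R1
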