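import Pool.Agent.MP_ed9623_an.R1.Ln

/-! The maximal straight piece. -/

open Filter Topology Set
open scoped ComplexConjugate

namespace Pool.Agent.MP_ed9623_an.R1

open XLn

theorem rowLine : OfLine := by
  intro lr la lb h Q E J G s₀ hJ h0 sub oG hd an ty st wl
  have hG := hJ.subset sub
  obtain ⟨b, ⟨b1, b2⟩, hb⟩ : ∃ b, IsLeast (Gᶜ ∩ Ici s₀) b := by
    obtain ⟨u, hu⟩ := hG.bddAbove
    exact ⟨_, (oG.isClosed_compl.inter isClosed_Ici).isLeast_csInf
      ⟨u + 1, fun c => by linarith [hu c], show s₀ ≤ _ by linarith [hu h0]⟩ ⟨s₀, fun _ c => c.2⟩⟩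
  obtain ⟨a, ⟨a1, a2⟩, ha⟩ : ∃ a, IsGreatest (Gᶜ ∩ Iic s₀) a := by
    obtain ⟨u, hu⟩ := hG.bddBelow
    exact ⟨_, (oG.isClosed_compl.inter isClosed_Iic).isGreatest_csSup
      ⟨u - 1, fun c => by linarith [hu c], show _ ≤ s₀ by linarith [hu h0]⟩ ⟨s₀, fun _ c => c.2⟩⟩
  have m0 : s₀ ∈ Ioo a b := ⟨lt_of_le_of_ne a2 fun e => a1 (e ▸ h0),
    lt_of_le_of_ne b2 fun e => b1 (e ▸ h0)⟩
  have I : Ioo a b ⊆ G := fun s c => by_contra fun k => (le_total s s₀).elim
    (fun e => c.1.not_ge (ha ⟨k, e⟩)) fun e => c.2.not_ge (hb ⟨k, e⟩)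
  have dq : ∀ s ∈ Ioo a b, deriv h s = Q s := fun s c => (hd s (sub (I c))).1.deriv
  have ah := fun s c => (an s (I c)).1
  have aE := fun s c => (an s (I c)).2.1
  have q0 : ∀ s ∈ Ioo a b, deriv h s ≠ 0 := fun s c => dq s c ▸ (an s (I c)).2.2
  have ar := fun s c => r0_an (ah s c) (q0 s c)
  have ext : ∀ {F : Type} [NormedAddCommGroup F] [NormedSpace ℝ F] {f g : ℝ → F},
      (∀ s ∈ Ioo a b, AnalyticAt ℝ f s ∧ AnalyticAt ℝ g s) → (∀ᶠ s in 𝓝 s₀, f s = g s) →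
      ∀ s ∈ Ioo a b, f s = g s := fun k e =>
    AnalyticOnNhd.eqOn_of_preconnected_of_eventuallyEq (fun s c => (k s c).1) (fun s c => (k s c).2)
      isPreconnected_Ioo m0 e
  have cx : ∀ {f : ℝ → ℝ} {s : ℝ}, AnalyticAt ℝ f s → AnalyticAt ℝ (fun r => (f r : ℂ)) s :=
    fun k => (Complex.ofRealCLM.analyticAt _).comp k
  have en : ∀ (e : ℝ) (l : Filter ℝ), l = 𝓝[<] e ∨ l = 𝓝[>] e → Ioo a b ∈ l → e ∉ G → En h E l := by
    intro e l hl hI he
    have le : l ≤ 𝓝 e := by rcases hl with rfl | rfl <;> exact nhdsWithin_le_nhds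
    have hGl : G ∈ l := mem_of_superset hI I
    by_cases c : e ∈ J
    · obtain ⟨c1, c2, c3⟩ := hd e c
      refine Or.inr ⟨h e, Q e, E e, c1.continuousAt.tendsto.mono_left le, (c2.tendsto.mono_left
        le).congr' (mem_of_superset hI fun s k => (dq s k).symm), c3.tendsto.mono_left le, ?_⟩
      by_contra! k
      exact he (st e c (by rcases hl with rfl | rfl; exacts [Or.inl hGl, Or.inr hGl]) k.1 (imp_iff_not_or.1 k.2))
    · exact Or.inl ((wl e c).mono_left (le_inf le (le_principal_iff.2 hGl)))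
  have ab := m0.1.trans m0.2
  have m : Mx h E a b := ⟨fun s c => ⟨ah s c, aE s c, q0 s c, ext (fun s c =>
    ⟨(ah s c).deriv.deriv, (cx (ar s c)).mul (ah s c).deriv⟩) ty.1 s c⟩,
    en a _ (Or.inr rfl) (Ioo_mem_nhdsGT ab) a1, en b _ (Or.inl rfl) (Ioo_mem_nhdsLT ab) b1⟩
  have cj : ∀ s ∈ Ioo a b, AnalyticAt ℝ (fun r => conj (deriv h r)) s := fun s c =>
    (Complex.conjCLE.toContinuousLinearMap.analyticAt _).comp (ah s c).deriv
  have aV := fun s c => re_an ((ah s c).mul (cj s c))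
  have aN : ∀ s ∈ Ioo a b, AnalyticAt ℝ (fun r => Complex.normSq (deriv h r)) s := fun s c => by
    simpa only [Pi.mul_apply, Complex.mul_conj, Complex.ofReal_re] using
      re_an ((ah s c).deriv.mul (cj s c))
  rcases ty.2 with t | ⟨N, hN, r, t1, t2⟩
  · exact lr h E a b ab m (ext (fun s c => ⟨(analyticAt_const.mul (ar s c)).mul (aV s c),
      analyticAt_const.mul (aN s c)⟩) t)
  have aP : ∀ s ∈ Ioo a b, AnalyticAt ℝ (Pb N h) s := fun s c =>
    (analyticAt_const.mul (ar s c).deriv).add ((analyticAt_const.mul (ar s c)).pow 2)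
  have aM : ∀ s ∈ Ioo a b, AnalyticAt ℝ (Mf N h) s := fun s c =>
    ((((ah s c).pow 2).mul (cx (aP s c))).sub (((analyticAt_const.mul (cx (ar s c))).mul
      (ah s c)).mul (ah s c).deriv)).add (analyticAt_const.mul ((ah s c).deriv.pow 2))
  have dM : ∀ s ∈ Ioo a b, HasDerivAt (Mf N h) (2 * r0 h s * Mf N h s) s := fun s c =>
    (aM s c).differentiableAt.hasDerivAt.congr_deriv (ext (fun s c => ⟨(aM s c).deriv,
      (analyticAt_const.mul (cx (ar s c))).mul (aM s c)⟩) (t1.mono fun _ k => k.deriv) s c)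
  rcases t2 with t | t
  · exact la h E a b N s₀ m0 m hN r t.self_of_nhds.2.2 fun s c => ⟨dM s c,
      ext (fun s c => ⟨aP s c, analyticAt_const⟩) (t.mono fun _ k => k.1) s c,
      ext (fun s c => ⟨(aE s c).deriv, analyticAt_const⟩) (t.mono fun _ k => k.2.1) s c⟩
  · exact lb h E a b N s₀ m0 m hN r fun s c => ⟨dM s c, ext (fun s c => ⟨(aV s c).mul (aP s c),
      (analyticAt_const.mul (ar s c)).mul (aN s c)⟩) t s c⟩

end Pool.Agent.MP_ed9623_an.R1
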