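import Pool.Agent.MP_ed9623_an.R1.Base

/-! The ordinary differential equations along a maximal straight piece. -/

open Filter Topology Set
open scoped ComplexConjugate

namespace Pool.Agent.MP_ed9623_an.R1

namespace XLn

variable {h E : ℝ → ℂ} {a b s s₀ N y₀ : ℝ} {u : ℂ} {x : ℝ → ℝ}

theorem const {F : Type} [NormedAddCommGroup F] [NormedSpace ℝ F] {f : ℝ → F}
    (k : ∀ s ∈ Ioo a b, HasDerivAt f 0 s) (hs : s ∈ Ioo a b) (h0 : s₀ ∈ Ioo a b) : f s = f s₀ :=
  isOpen_Ioo.is_const_of_deriv_eq_zero isPreconnected_Ioo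
    (fun r c => (k r c).differentiableAt.differentiableWithinAt) (fun r c => (k r c).deriv) hs h0

theorem re_hd {f : ℝ → ℂ} {f' : ℂ} (k : HasDerivAt f f' s) :
    HasDerivAt (fun r => (f r).re) f'.re s := Complex.reCLM.hasFDerivAt.comp_hasDerivAt s k

theorem im_hd {f : ℝ → ℂ} {f' : ℂ} (k : HasDerivAt f f' s) :
    HasDerivAt (fun r => (f r).im) f'.im s := Complex.imCLM.hasFDerivAt.comp_hasDerivAt s k

theorem re_an {f : ℝ → ℂ} (k : AnalyticAt ℝ f s) : AnalyticAt ℝ (fun r => (f r).re) s :=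
  (Complex.reCLM.analyticAt _).comp k

theorem r0_an (k : AnalyticAt ℝ h s) (q : deriv h s ≠ 0) : AnalyticAt ℝ (r0 h) s :=
  re_an (k.deriv.deriv.div k.deriv q)

/-- The normal form. -/
def NF (h : ℝ → ℂ) (a b : ℝ) (u : ℂ) (y₀ : ℝ) (x : ℝ → ℝ) : Prop :=
  u * conj u = 1 ∧ ∀ s ∈ Ioo a b, AnalyticAt ℝ x s ∧ AnalyticAt ℝ (r0 h) s ∧ 0 < deriv x s ∧
    h s = (x s + y₀ * Complex.I) * u ∧ deriv h s = (deriv x s : ℝ) * u ∧
    deriv (deriv x) s = r0 h s * deriv x s

theorem NF.re1 (k : NF h a b u y₀ x) (c : s ∈ Ioo a b) : (h s * conj u).re = x s := by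
  rw [(k.2 s c).2.2.2.1, mul_assoc, k.1]; simp

theorem NF.re2 (k : NF h a b u y₀ x) (c : s ∈ Ioo a b) : deriv h s * conj u = (deriv x s : ℝ) := by
  rw [(k.2 s c).2.2.2.2.1, mul_assoc, k.1, mul_one]

theorem NF.v (k : NF h a b u y₀ x) (c : s ∈ Ioo a b) :
    (h s * conj (deriv h s)).re = x s * deriv x s ∧ Complex.normSq (deriv h s) = deriv x s ^ 2 := by
  have e := (k.2 s c).2.2.2.2.1
  refine ⟨by rw [e, map_mul, Complex.conj_ofReal, mul_left_comm, Complex.re_ofReal_mul, k.re1 c,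
    mul_comm], ?_⟩
  have := congrArg Complex.re k.1
  rw [Complex.mul_conj, Complex.ofReal_re, Complex.one_re] at this
  rw [e, map_mul, this, Complex.normSq_ofReal, mul_one, sq]

theorem NF.ends (k : NF h a b u y₀ x) {l : Filter ℝ} [l.NeBot] (hl : Ioo a b ∈ l) (e : En h E l) :
    Tendsto x l (𝓝 0) ∨ ∃ x₁, Tendsto x l (𝓝 x₁) ∧ Tendsto (deriv x) l (𝓝 0) := by
  have T : ∀ {f : ℝ → ℂ} {w : ℂ}, Tendsto f l (𝓝 w) →
      Tendsto (fun s => (f s * conj u).re) l (𝓝 (w * conj u).re) :=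
    fun t => (Complex.continuous_re.tendsto _).comp (t.mul_const _)
  have e1 : (fun s => (h s * conj u).re) =ᶠ[l] x := mem_of_superset hl fun s c => k.re1 c
  have e2 : (fun s => (deriv h s * conj u).re) =ᶠ[l] deriv x :=
    mem_of_superset hl fun s c => congrArg Complex.re (k.re2 c)
  rcases e with e | ⟨h₁, Q₁, E₁, t1, t2, -, e⟩
  · exact Or.inl (by simpa using (T e).congr' e1)
  have a1 := (T t1).congr' e1
  have a2 := (T t2).congr' e2
  rcases e with rfl | ⟨-, e⟩
  · exact Or.inr ⟨_, a1, by simpa using a2⟩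
  have a3 : Tendsto (fun s => x s * deriv x s) l (𝓝 0) := e ▸ ((Complex.continuous_re.tendsto _).comp
    (t1.mul ((Complex.continuous_conj.tendsto _).comp t2))).congr'
      (mem_of_superset hl fun s c => (k.v c).1)
  rcases mul_eq_zero.1 (tendsto_nhds_unique (a1.mul a2) a3) with z | z
  exacts [Or.inl (z ▸ a1), Or.inr ⟨_, a1, z ▸ a2⟩]

/-- A power law is impossible. -/
theorem NF.law (k : NF h a b u y₀ x) (m : Mx h E a b) (h0 : s₀ ∈ Ioo a b) (r : r0 h s₀ ≠ 0) {D : ℝ}
    (e : ∀ s ∈ Ioo a b, r0 h s * x s = D * deriv x s) : False := by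
  have D0 : D ≠ 0 := by
    rintro rfl
    refine (k.2 s₀ h0).2.2.1.ne' ((EventuallyEq.deriv_eq (f := fun _ => 0) ?_).trans (deriv_const _ _))
    filter_upwards [isOpen_Ioo.mem_nhds h0, (k.2 s₀ h0).2.1.continuousAt.eventually_ne r] with s c d
    exact (mul_eq_zero.1 ((e s c).trans (zero_mul _))).resolve_left d
  have x0 : ∀ s ∈ Ioo a b, x s ≠ 0 := fun s c z =>
    mul_ne_zero D0 (k.2 s c).2.2.1.ne' (by rw [← e s c, z, mul_zero])
  have G := fun s c => const (f := fun s => deriv x s * Real.exp (-D * Real.log (x s))) (s := s)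
    (fun s c => by
      obtain ⟨c1, -, -, -, -, c2⟩ := k.2 s c
      refine (c1.deriv.differentiableAt.hasDerivAt.mul (((c1.differentiableAt.hasDerivAt.log
        (x0 s c)).const_mul (-D)).exp)).congr_deriv ?_
      have := x0 s c
      rw [c2]
      field_simp
      linear_combination deriv x s * Real.exp (-(D * Real.log (x s))) * e s c) c h0
  have z : ∀ (l : Filter ℝ) [l.NeBot], Ioo a b ∈ l → En h E l → Tendsto x l (𝓝 0) := by
    intro l _ hl en
    obtain t | ⟨x₁, t1, t2⟩ := k.ends hl en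
    · exact t
    by_contra t
    have := t2.mul (((t1.log fun z => t (z ▸ t1)).const_mul (-D)).rexp)
    rw [zero_mul] at this
    exact (mul_pos (k.2 s₀ h0).2.2.1 (Real.exp_pos _)).ne' (tendsto_nhds_unique
      (tendsto_const_nhds.congr' (mem_of_superset hl fun s c => (G s c).symm)) this)
  have mo : StrictMonoOn x (Ioo a b) := strictMonoOn_of_deriv_pos (convex_Ioo a b)
    (fun s c => (k.2 s c).1.continuousAt.continuousWithinAt)
    fun s c => (k.2 s (interior_subset c)).2.2.1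
  have ab := h0.1.trans h0.2
  have l1 : 0 ≤ x s₀ := le_of_tendsto (z _ (Ioo_mem_nhdsGT ab) m.ea)
    (mem_of_superset (Ioo_mem_nhdsGT h0.1) fun s c => (mo ⟨c.1, c.2.trans h0.2⟩ h0 c.2).le)
  have l2 : x s₀ ≤ 0 := ge_of_tendsto (z _ (Ioo_mem_nhdsLT ab) m.eb)
    (mem_of_superset (Ioo_mem_nhdsLT h0.2) fun s c => (mo h0 ⟨h0.1.trans c.1, c.2⟩ c.1).le)
  exact x0 s₀ h0 (l2.antisymm l1)

/-- The constant of the third harmonic. -/
theorem NF.kk (k : NF h a b u y₀ x) (m : Mx h E a b) (h0 : s₀ ∈ Ioo a b)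
    (e : ∀ s ∈ Ioo a b, HasDerivAt (Mf N h) (2 * r0 h s * Mf N h s) s) : ∃ K L : ℝ, ∀ s ∈ Ioo a b,
      K * deriv x s ^ 2 = (x s ^ 2 - y₀ ^ 2) * Pb N h s
        - (2 * N ^ 2 + N - 2) / 2 * r0 h s * x s * deriv x s + (N ^ 2 - 1) * deriv x s ^ 2 ∧
      L * deriv x s ^ 2 = 2 * x s * y₀ * Pb N h s
        - (2 * N ^ 2 + N - 2) / 2 * r0 h s * y₀ * deriv x s := by
  have G := fun s c => const (f := fun s => Mf N h s / deriv h s ^ 2) (s := s) (fun s c => by
    obtain ⟨c1, -, c2, c3⟩ := m.an s c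
    refine ((e s c).div (c1.deriv.differentiableAt.hasDerivAt.pow 2) (pow_ne_zero 2 c2)).congr_deriv ?_
    rw [c3]
    simp only [Pi.pow_apply]
    push_cast
    field_simp
    ring) c h0
  generalize Mf N h s₀ / deriv h s₀ ^ 2 = K at G
  refine ⟨K.re, K.im, fun s c => ?_⟩
  have g := (div_eq_iff (pow_ne_zero 2 (m.an s c).2.2.1)).1 (G s c)
  have u0 : u ^ 2 ≠ 0 := pow_ne_zero 2 (left_ne_zero_of_mul_eq_one k.1)
  rw [Mf, (k.2 s c).2.2.2.1, (k.2 s c).2.2.2.2.1] at g
  have g' : K * (deriv x s ^ 2 : ℝ) = (((x s ^ 2 - y₀ ^ 2) * Pb N h s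
      - (2 * N ^ 2 + N - 2) / 2 * r0 h s * x s * deriv x s + (N ^ 2 - 1) * deriv x s ^ 2 : ℝ) : ℂ)
      + ((2 * x s * y₀ * Pb N h s - (2 * N ^ 2 + N - 2) / 2 * r0 h s * y₀ * deriv x s : ℝ) : ℂ)
        * Complex.I := by
    refine mul_right_cancel₀ u0 ?_
    push_cast
    linear_combination -g + y₀ ^ 2 * Pb N h s * u ^ 2 * Complex.I_sq
  exact ⟨by simpa only [Complex.re_mul_ofReal, Complex.add_re, Complex.ofReal_re,
      Complex.re_ofReal_mul, Complex.I_re, mul_zero, add_zero] using congrArg Complex.re g',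
    by simpa only [Complex.im_mul_ofReal, Complex.add_im, Complex.ofReal_im,
      Complex.im_ofReal_mul, Complex.I_im, mul_one, zero_add] using congrArg Complex.im g'⟩

end XLn

open XLn

theorem rowNf : OfNf := by
  intro h E a b ab m
  have h0 : (a + b) / 2 ∈ Ioo a b := ⟨by linarith, by linarith⟩
  generalize (a + b) / 2 = s₀ at h0
  have q0 : (‖deriv h s₀‖ : ℂ) ≠ 0 := by simpa using (m.an s₀ h0).2.2.1
  obtain ⟨u, hu⟩ : ∃ u, u = deriv h s₀ / ‖deriv h s₀‖ := ⟨_, rfl⟩
  have e0 : deriv h s₀ * conj u = ‖deriv h s₀‖ := by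
    rw [hu, map_div₀, Complex.conj_ofReal, ← mul_div_assoc, Complex.mul_conj', div_eq_iff q0, sq]
  have uu : u * conj u = 1 := by
    rw [show u * conj u = deriv h s₀ * conj u / ‖deriv h s₀‖ by rw [mul_div_right_comm, ← hu], e0,
      div_self q0]
  have d1 := fun s c => ((m.an s c).1.differentiableAt.hasDerivAt.mul_const (conj u))
  have d2 : ∀ s ∈ Ioo a b, HasDerivAt (fun r => deriv h r * conj u)
      (r0 h s * (deriv h s * conj u)) s := fun s c =>
    ((m.an s c).1.deriv.differentiableAt.hasDerivAt.mul_const (conj u)).congr_deriv (by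
      rw [(m.an s c).2.2.2, mul_assoc])
  have n0 : ∀ s ∈ Ioo a b, (deriv h s * conj u).re ^ 2 + (deriv h s * conj u).im ^ 2 ≠ 0 :=
    fun s c z => mul_ne_zero (m.an s c).2.2.1 (right_ne_zero_of_mul_eq_one uu)
      (Complex.normSq_eq_zero.1 (by rw [Complex.normSq_apply, ← sq, ← sq, z]))
  have i0 : ∀ s ∈ Ioo a b, (deriv h s * conj u).im = 0 := fun s c => by
    have := const (f := fun r => (deriv h r * conj u).im ^ 2
      / ((deriv h r * conj u).re ^ 2 + (deriv h r * conj u).im ^ 2)) (fun s c => by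
        refine (((im_hd (d2 s c)).pow 2).div (((re_hd (d2 s c)).pow 2).add ((im_hd (d2 s c)).pow 2))
          (n0 s c)).congr_deriv ?_
        simp only [Complex.re_ofReal_mul, Complex.im_ofReal_mul, Pi.pow_apply, Pi.add_apply]
        ring) c h0
    simp only [e0, Complex.ofReal_im, ne_eq, OfNat.ofNat_ne_zero, not_false_eq_true, zero_pow,
      zero_div] at this
    exact pow_eq_zero_iff two_ne_zero |>.1 ((div_eq_zero_iff.1 this).resolve_right (n0 s c))
  have dx : ∀ s ∈ Ioo a b, deriv (fun r => (h r * conj u).re) s = (deriv h s * conj u).re :=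
    fun s c => (re_hd (d1 s c)).deriv
  have bk : ∀ w : ℂ, w = ((w * conj u).re + (w * conj u).im * Complex.I) * u := fun w => by
    rw [Complex.re_add_im, mul_assoc, mul_comm (conj u), uu, mul_one]
  refine ⟨u, (h s₀ * conj u).im, fun r => (h r * conj u).re, uu, fun s c =>
    ⟨re_an ((m.an s c).1.mul analyticAt_const), r0_an (m.an s c).1 (m.an s c).2.2.1, ?_, ?_, ?_, ?_⟩⟩
  · rw [dx s c]
    refine isPreconnected_Ioo.lt_of_ne (f := fun r => (deriv h r * conj u).re)
      (fun r c => (re_hd (d2 r c)).continuousAt.continuousWithinAt)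
      (fun r c z => n0 r c (by simp [z, i0 r c])) ⟨s₀, h0, ?_⟩ c
    simpa [e0] using (m.an s₀ h0).2.2.1
  · rw [← const (fun r c => (im_hd (d1 r c)).congr_deriv (i0 r c)) c h0]
    exact bk _
  · rw [dx s c]
    simpa [i0 s c] using bk (deriv h s)
  · rw [dx s c, EventuallyEq.deriv_eq (mem_of_superset (isOpen_Ioo.mem_nhds c) dx),
      (re_hd (d2 s c)).deriv, Complex.re_ofReal_mul]

theorem rowLnR : OfLnR := by
  intro nf h E a b ab m e
  obtain ⟨u, y₀, x, k⟩ := nf h E a b ab m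
  have k : NF h a b u y₀ x := k
  have h0 : (a + b) / 2 ∈ Ioo a b := ⟨by linarith, by linarith⟩
  have e' : ∀ s ∈ Ioo a b, r0 h s * x s = 4 / 3 * deriv x s := fun s c => by
    have := e s c
    rw [(k.v c).1, (k.v c).2] at this
    exact mul_left_cancel₀ (k.2 s c).2.2.1.ne' (by linear_combination this / 3)
  refine k.law m h0 (fun z => (k.2 _ h0).2.2.1.ne' ?_) e'
  have := e' _ h0
  rw [z] at this
  linarith

theorem rowLnA : OfLnA := by
  intro nf h E a b N s₀ h0 m hN r _ e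
  obtain ⟨u, y₀, x, k⟩ := nf h E a b (h0.1.trans h0.2) m
  have k : NF h a b u y₀ x := k
  obtain ⟨K, L, g⟩ := k.kk m h0 fun s c => (e s c).1
  have p : 0 < 2 * N ^ 2 + N - 2 := by nlinarith
  refine k.law m h0 r (D := 2 * (N ^ 2 - 1 - K) / (2 * N ^ 2 + N - 2)) fun s c => ?_
  have := (g s c).1
  rw [(e s c).2.1] at this
  rw [div_mul_eq_mul_div, eq_div_iff p.ne']
  exact mul_left_cancel₀ (k.2 s c).2.2.1.ne' (by linear_combination 2 * this)

theorem rowLnB : OfLnB := by
  intro nf h E a b N s₀ h0 m hN r e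
  obtain ⟨u, y₀, x, k⟩ := nf h E a b (h0.1.trans h0.2) m
  have k : NF h a b u y₀ x := k
  obtain ⟨K, L, g⟩ := k.kk m h0 fun s c => (e s c).1
  have p := fun s c => (k.2 s c).2.2.1.ne'
  have e1 : ∀ s ∈ Ioo a b, x s * Pb N h s = N * (N + 1) / 3 * r0 h s * deriv x s := fun s c => by
    have := (e s c).2
    rw [(k.v c).1, (k.v c).2] at this
    exact mul_left_cancel₀ (p s c) (by linear_combination this)
  have dx := fun s c => (k.2 s c).1.differentiableAt.hasDerivAt
  have dx2 := fun s c => (k.2 s c).1.deriv.differentiableAt.hasDerivAt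
  have dr := fun s c => (k.2 s c).2.1.differentiableAt.hasDerivAt
  have un : ∀ {f g : ℝ → ℝ} {f' g' s : ℝ}, s ∈ Ioo a b → (∀ r ∈ Ioo a b, f r = g r) →
      HasDerivAt f f' s → HasDerivAt g g' s → f' = g' := fun c e k1 k2 =>
    k1.unique (k2.congr_of_eventuallyEq (mem_of_superset (isOpen_Ioo.mem_nhds c) e))
  by_cases y0 : y₀ = 0
  · have q : 0 < 4 * N ^ 2 + N - 6 := by nlinarith
    refine k.law m h0 r (D := 6 * (N ^ 2 - 1 - K) / (4 * N ^ 2 + N - 6)) fun s c => ?_
    have := (g s c).1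
    rw [y0] at this
    rw [div_mul_eq_mul_div, eq_div_iff q.ne']
    exact mul_left_cancel₀ (p s c) (by linear_combination 6 * this + 6 * x s * e1 s c)
  by_cases n2 : N = 2
  · subst n2
    have e2 : ∀ s ∈ Ioo a b, r0 h s * (x s ^ 2 + y₀ ^ 2) = (3 - K) / 2 * (x s * deriv x s) :=
      fun s c => mul_left_cancel₀ (p s c) (by
        linear_combination x s / 2 * (g s c).1 + (x s ^ 2 - y₀ ^ 2) / 2 * e1 s c)
    have e3 : ∀ s ∈ Ioo a b,
        x s * ((3 - K) / 2 * deriv x s + (K - 1) * (r0 h s * x s)) = 0 := fun s c => by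
      have a1 := un c e2 ((dr s c).mul (((dx s c).pow 2).add_const _))
        (((dx s c).mul (dx2 s c)).const_mul _)
      have a2 := e1 s c
      simp only [Pb, (k.2 s c).2.2.2.2.2, Pi.pow_apply] at a1 a2
      refine mul_left_cancel₀ (p s c) ?_
      linear_combination x s * a1 - (x s ^ 2 + y₀ ^ 2) * a2
        - (2 * deriv x s - x s * r0 h s) * e2 s c
    rcases AnalyticOnNhd.eq_zero_or_eq_zero_of_mul_eq_zero (fun s c => (k.2 s c).1)
      (fun s c => (analyticAt_const.mul (k.2 s c).1.deriv).add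
        (analyticAt_const.mul ((k.2 s c).2.1.mul (k.2 s c).1))) e3 isPreconnected_Ioo with z | z
    · exact p _ h0 (un h0 z (dx _ h0) (hasDerivAt_const _ _))
    · by_cases k1 : K - 1 = 0
      · have := z _ h0
        simp only [Pi.add_apply, Pi.mul_apply] at this
        exact p _ h0 (by linear_combination this - (r0 h s₀ * x s₀ - deriv x s₀ / 2) * k1)
      · refine k.law m h0 r (D := (K - 3) / 2 / (K - 1)) fun s c => ?_
        have := z s c
        simp only [Pi.add_apply, Pi.mul_apply] at this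
        field_simp
        linear_combination 2 * this
  have q : y₀ * ((2 * N + 3) * (2 - N) / 6) ≠ 0 :=
    mul_ne_zero y0 (div_ne_zero (mul_ne_zero (by linarith) (sub_ne_zero.2 (Ne.symm n2))) (by norm_num))
  have e2 : ∀ s ∈ Ioo a b, y₀ * ((2 * N + 3) * (2 - N) / 6) * r0 h s = L * deriv x s :=
    fun s c => mul_left_cancel₀ (p s c) (by linear_combination -(g s c).2 - 2 * y₀ * e1 s c)
  have L0 : L ≠ 0 := fun z => mul_ne_zero q r (by rw [e2 _ h0, z, zero_mul])
  have n0 : 0 < N / 2 + N ^ 2 / 4 := by positivity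
  refine k.law m h0 r (D := N * (N + 1) / 3 / (N / 2 + N ^ 2 / 4)) fun s c => ?_
  have a1 := un c e2 ((dr s c).const_mul _) ((dx2 s c).const_mul _)
  rw [(k.2 s c).2.2.2.2.2] at a1
  have a2 : deriv (r0 h) s = r0 h s ^ 2 :=
    mul_left_cancel₀ q (by linear_combination a1 - r0 h s * e2 s c)
  have a3 := e1 s c
  rw [Pb, a2] at a3
  rw [div_mul_eq_mul_div, eq_div_iff n0.ne']
  refine mul_left_cancel₀ (a := r0 h s)
    (fun z => mul_ne_zero L0 (p s c) (by rw [← e2 s c, z, mul_zero])) ?_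
  linear_combination a3

end Pool.Agent.MP_ed9623_an.R1
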