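import Pool.Agent.MP_ed9623_an.R1.Base
import Pool.Agent.MP_ed9623_an.S64.BNb
import Pool.Agent.MP_ed9623_an.H80.Cl0
import Pool.Agent.MP_ed9623_an.H19.Class

/-! The starting piece of the zone. -/

open MeasureTheory Filter Topology Set
open scoped ContDiff ComplexConjugate

namespace Pool.Agent.MP_ed9623_an.R1

open H64
open H77 (P E6 Van vl ee Rp Zn vo)
open R77
open S64 (Yf)

namespace XNb

/-- The time derivative of a representative. -/
theorem dtm {U : Set P} (hU : IsOpen U) {I : Set ℝ} (hI : IsOpen I) {w : ℝ → E6}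
    (hw : ContDiff ℝ ∞ w) {F : ST → ℝ} (hF : ContDiff ℝ (1 : ℕ) F) {j : Fin 2}
    (h : ∀ s ∈ I, ∀ᵐ p, p ∈ U → F (s, p) = vl (w s) j p) :
    ∀ s ∈ I, ∀ᵐ p, p ∈ U → pd e0 F (s, p) = vl (deriv w s) j p := fun s hs => by
  have a := (H77.rowCl0 U hU).2.2 F (H77.cp w (j, none)) s hF (H77.sm_cp hw _)
    (Filter.Eventually.mono (hI.mem_nhds hs) h)
  rwa [H77.deriv_cp hw] at a

theorem csl {F : ST → ℝ} (hF : Continuous F) (t : ℝ) : Continuous fun p : P => F (t, p) :=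
  hF.comp (Continuous.prodMk_right t)

/-- Spatial derivatives of a representative. -/
theorem spc {U : Set P} (hU : IsOpen U) {F : ST → ℝ} (hF : ContDiff ℝ (1 : ℕ) F) {f : J2}
    (hf : Jt 4 f) {a b : ℕ} (e : a + b = 1) {t c : ℝ}
    (h : ∀ᵐ p, p ∈ U → F (t, p) = c * f a b p) {y : P} (hy : y ∈ U) :
    pd e1 F (t, y) = c * f (a + 1) b y ∧ pd e2 F (t, y) = c * f a (b + 1) y := by
  have q : (fun p => F (t, p)) =ᶠ[𝓝 y] fun p => c * f a b p :=
    mem_of_superset (hU.mem_nhds hy) (S64.BNb.eqn hU (csl hF.continuous t).continuousOn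
      (continuous_const.mul (hf.ct (by omega))).continuousOn h)
  have d := ((hf.d a b (by omega) y).const_mul c).congr_of_eventuallyEq q
  rw [lf_smul] at d
  exact ⟨(H77.Class.pd_sl hF t 0 y).symm.trans (pd0_of d),
    (H77.Class.pd_sl hF t 1 y).symm.trans (pd1_of d)⟩

/-- Two representatives have the same vorticity at the boundary point. -/
theorem vo_eq {ρ : P → ℝ} {x : P} {t η η' : ℝ} {w : ℝ → E6} {V W : Fin 2 → ST → ℝ}
    (hρ : Continuous ρ) (hx : x ∈ closure {x | ρ x < 0}) (h : 0 < η) (h' : 0 < η')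
    (hV : Rp ρ x t η w V) (hW : Rp ρ x t η' w W) : vo V (t, x) = vo W (t, x) := by
  have := mem_closure_iff_nhdsWithin_neBot.1 hx
  set U : Set P := {x | ρ x < 0} ∩ (Metric.ball x η ∩ Metric.ball x η')
  have o : IsOpen U :=
    (isOpen_lt hρ continuous_const).inter (Metric.isOpen_ball.inter Metric.isOpen_ball)
  have v1 : ∀ j, ContDiff ℝ (1 : ℕ) (V j) := fun j => cdg_le (hV.c6 j) (by norm_num)
  have w1 : ∀ j, ContDiff ℝ (1 : ℕ) (W j) := fun j => cdg_le (hW.c6 j) (by norm_num)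
  have e : ∀ j i, ∀ y ∈ U, pd (H77.Class.sE i) (V j) (t, y) = pd (H77.Class.sE i) (W j) (t, y) := by
    intro j i y hy
    rw [← H77.Class.pd_sl (v1 j), ← H77.Class.pd_sl (w1 j)]
    refine pd_congr_pt _ (mem_of_superset (o.mem_nhds hy) (S64.BNb.eqn o
      (csl (v1 j).continuous t).continuousOn (csl (w1 j).continuous t).continuousOn ?_))
    filter_upwards [hV.ae j t (Metric.mem_ball_self h), hW.ae j t (Metric.mem_ball_self h')]
      with p a b c
    rw [a ⟨c.1, c.2.1⟩, b ⟨c.1, c.2.2⟩]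
  have c : ∀ {V : Fin 2 → ST → ℝ}, (∀ j, ContDiff ℝ (6 : ℕ) (V j)) →
      Tendsto (fun p => vo V (t, p)) (𝓝[{x | ρ x < 0}] x) (𝓝 (vo V (t, x))) := fun hV =>
    ((csl (H77.Class.cd_vo fun j => cdg_le (hV j) (by norm_num)).continuous t).tendsto x).mono_left
      nhdsWithin_le_nhds
  refine tendsto_nhds_unique_of_eventuallyEq (c hV.c6) (c hW.c6) ?_
  filter_upwards [inter_mem_nhdsWithin _ (inter_mem (Metric.ball_mem_nhds x h)
    (Metric.ball_mem_nhds x h'))] with y hy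
  exact congrArg₂ (· - ·) (e 1 0 y hy) (e 0 1 y hy)

/-- The two resultants. -/
theorem rv_eq (hz' : CzS) {ρ : P → ℝ} {x y : P} {t η n : ℝ} {a w : ℝ → E6} {V : Fin 2 → ST → ℝ}
    (hρ : Continuous ρ) (h : 0 < η) (hw : ContDiff ℝ ∞ w) (hV : Rp ρ x t η w V)
    (hy : y ∈ {x | ρ x < 0} ∩ Metric.ball x η) {O Z : Set P} {ps al pr : ℝ → ℕ → J2}
    (yO : y ∈ O) (yZ : y ∈ Z) (hL : Lk O a w ps al pr) (h0 : L0 n O Z ps al pr) :
    Rv V (t, y) = n * rsc n ps y := by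
  have o : IsOpen ({x | ρ x < 0} ∩ Metric.ball x η) :=
    (isOpen_lt hρ continuous_const).inter Metric.isOpen_ball
  have v1 : ∀ j, ContDiff ℝ (1 : ℕ) (V j) := fun j => cdg_le (hV.c6 j) (by norm_num)
  have v2 : ∀ j, ContDiff ℝ (2 : ℕ) (V j) := fun j => cdg_le (hV.c6 j) (by norm_num)
  have m := Metric.mem_ball_self (x := t) h
  have d := fun j => dtm o Metric.isOpen_ball hw (v1 j) (hV.ae j) t m
  have s0 := hL.sw t 0
  have s1 := hL.sw t 1
  rw [iteratedDeriv_zero] at s0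
  rw [iteratedDeriv_one] at s1
  have oU := o.inter hL.oO
  have a1 := spc oU (v1 1) ((hL.tj t).jp 0) (a := 1) (b := 0) rfl (t := t) (c := 1) (by
    filter_upwards [hV.ae 1 t m, s0] with p a b c
    rw [a c.1, (b c.2).1, one_mul]) ⟨hy, yO⟩
  have a0 := spc oU (v1 0) ((hL.tj t).jp 0) (a := 0) (b := 1) rfl (t := t) (c := -1) (by
    filter_upwards [hV.ae 0 t m, s0] with p a b c
    rw [a c.1, (b c.2).2, neg_one_mul, neg_neg]) ⟨hy, yO⟩
  have b1 := spc oU (contDiff_pd e0 (v2 1)) ((hL.tj t).jp 1) (a := 1) (b := 0) rfl (t := t)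
    (c := 1) (by
      filter_upwards [d 1, s1] with p a b c
      rw [a c.1, (b c.2).1, one_mul]) ⟨hy, yO⟩
  have b0 := spc oU (contDiff_pd e0 (v2 0)) ((hL.tj t).jp 1) (a := 0) (b := 1) rfl (t := t)
    (c := -1) (by
      filter_upwards [d 0, s1] with p a b c
      rw [a c.1, (b c.2).2, neg_one_mul, neg_neg]) ⟨hy, yO⟩
  have z := fun j a b e => hz' n O Z ps al pr h0 t j a b (Or.inr e) y ⟨yO, subset_closure yZ⟩
  simp only [Rv, bt, pd_comm e0 e1 (v2 1).contDiffAt, pd_comm e0 e2 (v2 1).contDiffAt,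
    pd_comm e0 e2 (v2 0).contDiffAt, a1.1, a1.2, a0.2, b1.1, b1.2, b0.2, zero_add,
    Nat.reduceAdd, z _ 2 0 rfl, z _ 1 1 rfl, z _ 0 2 rfl, rsc]
  have w1 := ex_wr n t (cz n ps 2 0 y) (cz n ps 0 2 y)
  have w2 := ex_wr n t (cz n ps 2 0 y) (cz n ps 1 1 y)
  have w3 := ex_wr n t (cz n ps 1 1 y) (cz n ps 0 2 y)
  have q := Real.mul_self_sqrt h0.n0.le
  rw [show ∀ A A' C C' : ℝ, 1 * A * (-1 * C') - 1 * A' * (-1 * C) = -(A * C' - A' * C) from
    fun _ _ _ _ => by ring, show ∀ A A' C C' : ℝ, 1 * A * (-1 * C') - 1 * A' * (-1 * C)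
      = -(A * C' - A' * C) from fun _ _ _ _ => by ring]
  simp only [one_mul]
  rw [w1, w2, w3]
  linear_combination ((cz n ps 2 0 y * conj (cz n ps 0 2 y)).im ^ 2
    - 4 * (cz n ps 2 0 y * conj (cz n ps 1 1 y)).im * (cz n ps 1 1 y * conj (cz n ps 0 2 y)).im) * q

end XNb

open XNb in
theorem rowNb : OfNb := by
  intro yz nh hz' wr hy ρ x n g R a w hρ h0 hd hc n0 hP
    ⟨⟨ε, hε, ha⟩, hY, t₁, η₁, V₁, hη₁, r₁, _, v₁⟩
  obtain ⟨N, oN, cN, sN, nN⟩ := nh ρ x ε hρ h0 hd hε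
  have cl := mem_closure_neg h0 hd
  have := mem_closure_iff_nhdsWithin_neBot.1 cl
  have nb : ∀ δ, 0 < δ → ∀ᶠ y in 𝓝[{x | ρ x < 0}] x, y ∈ N ∧ y ∈ Metric.ball x δ := fun δ hδ =>
    (show ∀ᶠ y in 𝓝[{x | ρ x < 0}] x, y ∈ N from nN).and
      (mem_nhdsWithin_of_mem_nhds (Metric.ball_mem_nhds x hδ))
  have A0 : ∀ t j, Van N (vl (a t) j) := fun t j => (ha t j).mono fun p c => (sN c).2
  refine ⟨N, oN, cN, fun y b => (sN b).1, fun t j => ⟨A0 t j, ?_⟩, ?_⟩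
  · obtain ⟨η, V, hη, r, z, v⟩ := hY t
    obtain ⟨δ, hδ, k⟩ := yz ρ x t η n V hρ h0 hc hη z v
    obtain ⟨x₀, b1, b2⟩ := (nb _ (lt_min hδ hη)).exists
    obtain ⟨e, e0', he⟩ := Metric.isOpen_iff.1 (oN.inter Metric.isOpen_ball) x₀ ⟨b1, b2⟩
    refine hy n _ N g R a w (Metric.ball t η) hP oN cN (fun y b => (sN b).1) Metric.isOpen_ball A0
      ⟨x₀, b1, e, e0', fun s hs i => ?_⟩ t (Metric.mem_ball_self hη) j
    have o : IsOpen ({x | ρ x < 0} ∩ Metric.ball x η) :=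
      (isOpen_lt hρ.continuous continuous_const).inter Metric.isOpen_ball
    have v2 : ContDiff ℝ (2 : ℕ) (V i) := cdg_le (r.c6 i) (by norm_num)
    have d1 := dtm o Metric.isOpen_ball hP.sw (cdg_le v2 (by norm_num)) (r.ae i)
    have d2 := dtm o Metric.isOpen_ball (contDiff_infty_iff_deriv.1 hP.sw).2
      (contDiff_pd e0 v2) d1 s hs
    filter_upwards [d2, r.ae i s hs, H77.co_add (deriv (deriv w) s) (n • w s) (i, none),
      H77.co_smul n (w s) (i, none)] with p c1 c2 c3 c4 hp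
    have m : p ∈ {x | ρ x < 0} ∩ Metric.ball x η :=
      ⟨(sN (he hp).1).1, Metric.ball_subset_ball (min_le_right _ _) (he hp).2⟩
    have := k (s, p) hs (Metric.ball_subset_ball (min_le_left _ _) (he hp).2) m.1 i
    rw [Yf, c1 m, c2 m] at this
    exact c3.trans ((congrArg _ c4).trans this)
  · obtain ⟨η, V, hη, r, z, v⟩ := hY t₁
    have ne : vo V (t₁, x) ≠ 0 := vo_eq hρ.continuous cl hη hη₁ r r₁ ▸ v₁
    have e := v t₁ (Metric.mem_ball_self hη)
    obtain ⟨y, b, c1, c2⟩ := ((wr ρ x t₁ η V hρ h0 hc hη z ne (by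
      have p : 0 < n * vo V (t₁, x) ^ 2 := by positivity
      rw [eq_neg_of_add_eq_zero_left e]
      nlinarith [sq_nonneg (pd e0 (vo V) (t₁, x))])).and (nb _ hη)).exists
    refine ⟨y, c1, fun O Z ps al pr yO yZ hL h1 q => b ?_⟩
    rw [rv_eq hz' hρ.continuous hη hP.sw r ⟨(sN c1).1, c2⟩ yO yZ hL h1, q, mul_zero]

end Pool.Agent.MP_ed9623_an.R1
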