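import Pool.Agent.MP_ed9623_an.R1.Base

/-! Reflection across a straight piece. -/

open MeasureTheory Filter Topology Set
open scoped ContDiff ComplexConjugate

namespace Pool.Agent.MP_ed9623_an.R1

open H77 (P ee)
open S64 (Low cst)

namespace XRefl

/-- The reflection in the line of height `c`. -/
def sg (c : ℝ) (z : P) : P := (z.1, 2 * c - z.2)

theorem sg_cd {n : WithTop ℕ∞} (c : ℝ) : ContDiff ℝ n (sg c) := by unfold sg; fun_prop

theorem sg_fix {c : ℝ} {z : P} (h : z.2 = c) : sg c z = z := by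
  ext <;> simp [sg, h]; ring

theorem sg_has {F : P → ℂ} {c : ℝ} {z : P} {u v : ℂ} (h : HasFDerivAt F (lc u v) (sg c z)) :
    HasFDerivAt (fun y => F (sg c y)) (lc u (-v)) z := by
  have d : HasFDerivAt (sg c) ((ContinuousLinearMap.fst ℝ ℝ ℝ).prod
      (-ContinuousLinearMap.snd ℝ ℝ ℝ)) z :=
    hasFDerivAt_fst.prodMk (hasFDerivAt_snd.const_sub _)
  refine (h.comp z d).congr_fderiv ?_
  ext <;> simp

theorem lap_sg {F : P → ℂ} {c : ℝ} {z : P} (h1 : Differentiable ℝ F)
    (h : ContDiffAt ℝ (2 : ℕ) F (sg c z)) :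
    lapC (fun y => F (sg c y)) z = lapC F (sg c z) := by
  have d : ∀ e, DifferentiableAt ℝ (cd e F) (sg c z) := fun e =>
    (cd_cd (k := 1) e h).differentiableAt (by simp)
  have a : cd (ee 0) (fun y => F (sg c y)) = fun y => cd (ee 0) F (sg c y) :=
    funext fun y => cd0_of (sg_has (hasF_cd (h1 _)))
  have b : cd (ee 1) (fun y => F (sg c y)) = fun y => -1 * cd (ee 1) F (sg c y) :=
    funext fun y => (cd1_of (sg_has (hasF_cd (h1 _)))).trans (by ring)
  rw [lapC, a, b, cd_cmul _ _ (sg_has (hasF_cd (d _))).differentiableAt,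
    cd0_of (sg_has (hasF_cd (d _))), cd1_of (sg_has (hasF_cd (d _))), lapC]
  ring

theorem lap_add {F G : P → ℂ} {z : P} (a : ℂ) (h : ContDiffAt ℝ (2 : ℕ) F z)
    (h' : ContDiffAt ℝ (2 : ℕ) G z) :
    lapC (fun y => F y + a * G y) z = lapC F z + a * lapC G z := by
  have d : ∀ {F : P → ℂ} e, ContDiffAt ℝ (2 : ℕ) F z → DifferentiableAt ℝ (cd e F) z :=
    fun e h => (cd_cd (k := 1) e h).differentiableAt (by simp)
  have k : ∀ e, cd e (cd e fun y => F y + a * G y) z = cd e (cd e F) z + a * cd e (cd e G) z := by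
    intro e
    have : cd e (fun y => F y + a * G y) =ᶠ[𝓝 z] fun y => cd e F y + a * cd e G y := by
      filter_upwards [h.eventually (by simp), h'.eventually (by simp)] with y p q
      have q' := q.differentiableAt (by simp)
      rw [cd_add e (p.differentiableAt (by simp)) (q'.const_mul a), cd_cmul e a q']
    rw [(cd_congr e this).self_of_nhds, cd_add e (d e h) ((d e h').const_mul a),
      cd_cmul e a (d e h')]
  rw [lapC, k, k, lapC, lapC]
  ring

theorem c1 {G : P → ℂ} {c : ℝ} {N : Set P} (o : IsOpen N) (hG : ContDiff ℝ (1 : ℕ) G)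
    (h0 : ∀ z ∈ N, z.2 = c → cd (ee 1) G z = 0) :
    ContDiffOn ℝ (1 : ℕ) (fun z => if z.2 ≤ c then G z else G (sg c z)) N := by
  have d := hG.differentiable (by simp)
  have k : ∀ e, Continuous (cd e G) := fun e =>
    (hG.continuous_fderiv (by simp)).clm_apply continuous_const
  have lcc : ∀ {u v : P → ℂ}, Continuous u → Continuous v → Continuous fun z => lc (u z) (v z) := by
    intro u v hu hv
    unfold lc
    exact ((ContinuousLinearMap.smulRightL ℝ P ℂ _).continuous.comp hu).add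
      ((ContinuousLinearMap.smulRightL ℝ P ℂ _).continuous.comp hv)
  have s := (sg_cd (n := 0) c).continuous
  intro x hx
  refine (contDiffAt_one_iff.2 ⟨fun z => if z.2 ≤ c then lc (cd (ee 0) G z) (cd (ee 1) G z)
    else lc (cd (ee 0) G (sg c z)) (-cd (ee 1) G (sg c z)), N, o.mem_nhds hx, ?_,
    fun z hz => ?_⟩).contDiffWithinAt
  · refine ContinuousOn.if (fun z hz => ?_) (lcc (k _) (k _)).continuousOn
      (lcc ((k _).comp s) ((k _).comp s).neg).continuousOn
    have e := frontier_le_subset_eq continuous_snd continuous_const hz.2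
    rw [sg_fix e, h0 z hz.1 e, neg_zero]
  · rcases lt_trichotomy z.2 c with l | l | l
    · simp only [l.le, if_true]
      refine (hasF_cd (d z)).congr_of_eventuallyEq ?_
      filter_upwards [continuous_snd.continuousAt.eventually (eventually_lt_nhds l)] with y hy
      exact if_pos hy.le
    · simp only [l.le, if_true]
      have a : HasFDerivWithinAt (fun z => if z.2 ≤ c then G z else G (sg c z))
          (lc (cd (ee 0) G z) (cd (ee 1) G z)) {y : P | y.2 ≤ c} z :=
        (hasF_cd (d z)).hasFDerivWithinAt.congr (fun y hy => if_pos hy) (if_pos l.le)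
      have b : HasFDerivWithinAt (fun z => if z.2 ≤ c then G z else G (sg c z))
          (lc (cd (ee 0) G z) (cd (ee 1) G z)) {y : P | y.2 ≤ c}ᶜ z := by
        have := sg_has (z := z) (c := c) (hasF_cd (d _))
        rw [sg_fix l, h0 z hz l, neg_zero] at this
        rw [h0 z hz l]
        exact this.hasFDerivWithinAt.congr (fun y hy => if_neg hy) (by rw [if_pos l.le, sg_fix l])
      simpa only [union_compl_self, hasFDerivWithinAt_univ] using a.union b
    · simp only [not_le.2 l, if_false]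
      refine (sg_has (hasF_cd (d _))).congr_of_eventuallyEq ?_
      filter_upwards [continuous_snd.continuousAt.eventually (eventually_gt_nhds l)] with y hy
      exact if_neg (not_le.2 hy)

theorem prd {a b : ℝ → ℂ} {a' b' : ℂ} {z : P} (ha : HasDerivAt a a' z.1)
    (hb : HasDerivAt b b' z.2) :
    HasFDerivAt (fun y : P => a y.1 * b y.2) (lc (a' * b z.2) (a z.1 * b')) z := by
  refine ((ha.hasFDerivAt.comp z hasFDerivAt_fst).fun_mul
    (hb.hasFDerivAt.comp z hasFDerivAt_snd)).congr_fderiv ?_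
  ext <;> simp [mul_comm]

theorem model (A B w : ℂ) (hw : w ≠ 0) (c : ℝ) : ∃ T : P → ℂ, ContDiff ℝ ∞ T ∧
    (∀ z, lapC T z = w * T z) ∧ ∀ z : P, z.2 = c → cd (ee 1) T z = A + B * z.1 := by
  obtain ⟨k, rfl⟩ := IsAlgClosed.exists_eq_mul_self w
  have k0 : k ≠ 0 := left_ne_zero_of_mul hw
  have l : ∀ t : ℂ, HasDerivAt (fun s : ℂ => k * (s - c)) k t := fun t => by
    simpa using ((hasDerivAt_id t).sub_const (c : ℂ)).const_mul k
  have a : ∀ t : ℝ, HasDerivAt (fun s : ℝ => A + B * s) B t := fun t => by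
    simpa using ((Complex.ofRealCLM.hasDerivAt (x := t)).const_mul B).const_add A
  have s : ∀ t : ℝ, HasDerivAt (fun s : ℝ => Complex.sinh (k * (s - c)) / k)
      (Complex.cosh (k * (t - c))) t := fun t =>
    ((l t).csinh.comp_ofReal.div_const k).congr_deriv (by field_simp)
  have s' : ∀ t : ℝ, HasDerivAt (fun s : ℝ => Complex.cosh (k * (s - c)))
      (Complex.sinh (k * (t - c)) * k) t := fun t => (l t).ccosh.comp_ofReal
  have e0 : cd (ee 0) (fun y : P => (A + B * y.1) * (Complex.sinh (k * (y.2 - c)) / k))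
      = fun y => B * (Complex.sinh (k * (y.2 - c)) / k) := funext fun y => cd0_of (prd (a _) (s _))
  have e1 : cd (ee 1) (fun y : P => (A + B * y.1) * (Complex.sinh (k * (y.2 - c)) / k))
      = fun y => (A + B * y.1) * Complex.cosh (k * (y.2 - c)) :=
    funext fun y => cd1_of (prd (a _) (s _))
  refine ⟨fun y => (A + B * y.1) * (Complex.sinh (k * (y.2 - c)) / k), ?_, fun z => ?_,
    fun z hz => ?_⟩
  · have r : ∀ {f : P → ℝ}, ContDiff ℝ ∞ f → ContDiff ℝ ∞ fun y => (f y : ℂ) := fun h =>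
      Complex.ofRealCLM.contDiff.comp h
    exact (contDiff_const.add (contDiff_const.mul (r contDiff_fst))).mul
      (((Complex.contDiff_sinh.restrict_scalars ℝ).comp
        (contDiff_const.mul ((r contDiff_snd).sub contDiff_const))).div_const k)
  · rw [lapC, e0, e1, cd0_of (prd (hasDerivAt_const _ B) (s _)), cd1_of (prd (a _) (s' _))]
    field_simp
    ring
  · rw [e1]
    simp [hz]

end XRefl

open XRefl in
theorem rowRefl : OfRefl := by
  intro hAn hA hB hR hAf n O Z ps al pr p h hp hL h20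
  obtain ⟨A, B, hAB⟩ := hAf n O Z ps al pr p h hp hL h20
  have n0 : √n ≠ 0 := (Real.sqrt_pos.2 h.n0).ne'
  obtain ⟨T, T1, T2, T3⟩ := model A B (Complex.I * √n)
    (mul_ne_zero Complex.I_ne_zero (Complex.ofReal_ne_zero.2 n0)) p.2
  obtain ⟨ε, e0, hε⟩ := Metric.eventually_nhds_iff_ball.1 ((show ∀ᶠ z in 𝓝 p, z ∈ O from
    h.oO.mem_nhds hp).and (hL.2.and (continuous_fst.continuousAt.eventually hAB)))
  have i2 : ((2 : ℕ) : WithTop ℕ∞) ≤ ∞ := WithTop.coe_le_coe.2 (le_top : ((2 : ℕ) : ℕ∞) ≤ ⊤)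
  have T4 : ∀ z, ContDiffAt ℝ (2 : ℕ) T z := fun z => T1.contDiffAt.of_le i2
  set G : P → ℂ := fun y => cz n ps 0 1 y + -1 * T y with hG
  have G1 : ContDiff ℝ (1 : ℕ) G :=
    (cz_c1 h.j4 le_rfl).add (contDiff_const.mul (T1.of_le (by exact_mod_cast le_top)))
  have G2 : ∀ z ∈ Metric.ball p ε, z.2 < p.2 →
      ContDiffAt ℝ (2 : ℕ) G z ∧ lapC G z = Complex.I * √n * G z := fun z hz l => by
    obtain ⟨a, b⟩ := (hAn n O Z ps al pr h z ⟨(hε z hz).1, (hε z hz).2.1 l⟩).1 0 1 (Or.inl rfl)
    refine ⟨a.contDiffAt.add (contDiffAt_const.mul (T4 z)), ?_⟩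
    rw [hG, lap_add _ a.contDiffAt (T4 z), b, T2]
    ring
  have C := c1 (c := p.2) (N := Metric.ball p ε) Metric.isOpen_ball G1 fun z hz l => by
    have d := T1.differentiable (by simp) z
    rw [hG, cd_add _ ((cz_c1 h.j4 le_rfl).differentiable (by simp) z) (d.const_mul _),
      cd_cmul _ _ d, cd1_cz h.j4 le_rfl, T3 z l, ← (hε z hz).2.2, ← l]
    ring
  set W : P → ℂ := fun z => if z.2 ≤ p.2 then G z else G (sg p.2 z) with hW
  obtain ⟨W1, W2⟩ := hA _ _ W Metric.isOpen_ball C (hR (Complex.I * √n) p.2 _ W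
    Metric.isOpen_ball C fun z hz l => by
      rcases lt_or_gt_of_ne l with l | l
      · have e : W =ᶠ[𝓝 z] G := by
          filter_upwards [continuous_snd.continuousAt.eventually (eventually_lt_nhds l)] with y hy
          exact if_pos hy.le
        rw [(lapC_congr e).self_of_nhds, e.self_of_nhds]
        exact ⟨(G2 z hz l).1.congr_of_eventuallyEq e, (G2 z hz l).2⟩
      · have e : W =ᶠ[𝓝 z] fun y => G (sg p.2 y) := by
          filter_upwards [continuous_snd.continuousAt.eventually (eventually_gt_nhds l)] with y hy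
          exact if_neg (not_le.2 hy)
        have m : sg p.2 z ∈ Metric.ball p ε := by
          rw [Metric.mem_ball, Prod.dist_eq, Real.dist_eq, Real.dist_eq] at hz ⊢
          rwa [show (sg p.2 z).2 - p.2 = -(z.2 - p.2) by simp only [sg]; ring, abs_neg]
        obtain ⟨a, b⟩ := G2 _ m (by simp only [sg]; linarith)
        rw [(lapC_congr e).self_of_nhds, e.self_of_nhds, lap_sg (G1.differentiable (by simp)) a]
        exact ⟨(a.comp z (sg_cd _).contDiffAt).congr_of_eventuallyEq e, b⟩)
  have K : ∀ y ∈ Metric.ball p ε, ContDiffAt ℝ ∞ (fun z => W z + 1 * T z) y ∧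
      lapC (fun z => W z + 1 * T z) y = Complex.I * √n * (W y + 1 * T y) := fun y hy => by
    have a := W1.contDiffAt (Metric.isOpen_ball.mem_nhds hy)
    refine ⟨a.add (contDiffAt_const.mul T1.contDiffAt), ?_⟩
    rw [lap_add _ (a.of_le i2) (T4 y), W2 y hy, T2]
    ring
  refine ⟨fun z => W z + 1 * T z, ?_⟩
  filter_upwards [Metric.ball_mem_nhds p e0] with y hy
  refine ⟨hB √n _ y n0 (eventually_of_mem (Metric.isOpen_ball.mem_nhds hy) K), (K y hy).2,
    fun l => ?_⟩
  simp only [hW, hG, if_pos l]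
  ring

end Pool.Agent.MP_ed9623_an.R1
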