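import Pool.Agent.MP_ed9623_an.R1.Base

/-! A line is removable for the Helmholtz equation. -/

open MeasureTheory Filter Topology Set
open scoped ContDiff ComplexConjugate

namespace Pool.Agent.MP_ed9623_an.R1

open H64 (pd)
open H77 (P ee Test)

namespace XRem

theorem div0 (f g h : P → ℂ) (c R : ℝ) (hc : |c| ≤ R) (hf : Continuous f) (hg : Continuous g)
    (hh : Continuous h) (hz : ∀ x : P, R ≤ ‖x‖ → f x = 0 ∧ g x = 0 ∧ h x = 0)
    (hd : ∀ x : P, x.2 ≠ c → DifferentiableAt ℝ f x ∧ DifferentiableAt ℝ g x ∧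
      cd (ee 0) f x + cd (ee 1) g x = h x) : ∫ x, h x = 0 := by
  classical
  have hR : 0 ≤ R := (abs_nonneg c).trans hc
  obtain ⟨c1, c2⟩ := abs_le.1 hc
  let f' : P → P →L[ℝ] ℂ := fun x => if x.2 = c then lc (h x) 0 else fderiv ℝ f x
  let g' : P → P →L[ℝ] ℂ := fun x => if x.2 = c then 0 else fderiv ℝ g x
  have e : (fun x => f' x (1, 0) + g' x (0, 1)) = h := by
    funext x
    by_cases hx : x.2 = c
    · simp [f', g', hx]
    · simpa [f', g', hx, cd, ee] using (hd x hx).2.2
  have key : ∀ a b : P, a ≤ b → c ∉ Ioo a.2 b.2 → (∫ x in Icc a b, h x) =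
      (((∫ x in a.1..b.1, g (x, b.2)) - ∫ x in a.1..b.1, g (x, a.2)) +
        ∫ y in a.2..b.2, f (b.1, y)) - ∫ y in a.2..b.2, f (a.1, y) := fun a b hab hn => by
    have ne : ∀ x ∈ Ioo a.1 b.1 ×ˢ Ioo a.2 b.2, x.2 ≠ c := fun x hx e => hn (e ▸ hx.2)
    have := integral_divergence_prod_Icc_of_hasFDerivAt_of_le f g f' g' a b hab hf.continuousOn
      hg.continuousOn
      (fun x hx => by simpa [f', ne x hx] using (hd x (ne x hx)).1.hasFDerivAt)
      (fun x hx => by simpa [g', ne x hx] using (hd x (ne x hx)).2.1.hasFDerivAt)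
      (by rw [e]; exact hh.continuousOn.integrableOn_compact isCompact_Icc)
    rw [← this]
    exact congrArg _ e.symm
  have z1 : ∀ s y : ℝ, |s| = R → f (s, y) = 0 := fun s y hs =>
    (hz _ (by rw [← hs, ← Real.norm_eq_abs]; exact norm_fst_le (s, y))).1
  have z2 : ∀ x s : ℝ, |s| = R → g (x, s) = 0 := fun x s hs =>
    (hz _ (by rw [← hs, ← Real.norm_eq_abs]; exact norm_snd_le (x, s))).2.1
  have a1 : |R| = R := abs_of_nonneg hR
  have a2 : |-R| = R := by rw [abs_neg, a1]
  have u := key (-R, c) (R, R) ⟨by simpa using hR, c2⟩ (by simp)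
  have l := key (-R, -R) (R, c) ⟨by simpa using hR, c1⟩ (by simp)
  simp only [z1 _ _ a1, z1 _ _ a2, z2 _ _ a1, z2 _ _ a2, intervalIntegral.integral_zero] at u l
  have dj : AEDisjoint volume (Icc ((-R, c) : P) (R, R)) (Icc (-R, -R) (R, c)) := by
    refine measure_mono_null (t := (univ : Set ℝ) ×ˢ ({c} : Set ℝ))
      (fun x hx => ⟨mem_univ _, le_antisymm hx.2.2.2 hx.1.1.2⟩) ?_
    rw [Measure.volume_eq_prod, Measure.prod_prod]
    simp
  have un := setIntegral_union₀ dj measurableSet_Icc.nullMeasurableSet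
    (hh.continuousOn.integrableOn_compact isCompact_Icc)
    (hh.continuousOn.integrableOn_compact isCompact_Icc)
  rw [← setIntegral_eq_integral_of_forall_compl_eq_zero
    (s := Icc ((-R, c) : P) (R, R) ∪ Icc (-R, -R) (R, c)), un, u, l]
  · ring
  · intro x hx
    refine (hz x ?_).2.2
    by_contra hn
    have hn := not_le.1 hn
    have b1 := abs_lt.1 ((norm_fst_le x).trans_lt hn)
    have b2 := abs_lt.1 ((norm_snd_le x).trans_lt hn)
    rcases le_total c x.2 with k | k
    · exact hx (Or.inl ⟨⟨b1.1.le, k⟩, b1.2.le, b2.2.le⟩)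
    · exact hx (Or.inr ⟨⟨b1.1.le, b2.1.le⟩, b1.2.le, k⟩)

theorem ct {N : Set P} (o : IsOpen N) {G : P → ℂ} {ψ : P → ℝ} (hG : ContinuousOn G N)
    (hψ : Continuous ψ) (s : tsupport ψ ⊆ N) : Continuous fun x => G x * ψ x := by
  refine ContinuousOn.continuous_of_tsupport_subset
    (hG.mul (Complex.continuous_ofReal.comp hψ).continuousOn) o (Subset.trans ?_ s)
  refine closure_mono fun x hx e => hx ?_
  simp [e]

end XRem

theorem rowRem : OfRem := by
  intro k c N F o hF hl φ ⟨h1, h2, h3⟩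
  have c1 : ∀ e, ContinuousOn (cd e F) N := fun e y hy =>
    (cd_cd (k := 0) e (hF.contDiffAt (o.mem_nhds hy))).continuousAt.continuousWithinAt
  have c2 : ∀ e, Continuous (pd e φ) := fun e =>
    (h1.continuous_fderiv (by simp)).clm_apply continuous_const
  have s2 : ∀ e, tsupport (pd e φ) ⊆ tsupport φ := fun e => tsupport_fderiv_apply_subset ℝ e
  have z : ∀ x, x ∉ tsupport φ → φ x = 0 ∧ ∀ e, pd e φ x = 0 := fun x hx =>
    ⟨image_eq_zero_of_notMem_tsupport hx,
      fun e => image_eq_zero_of_notMem_tsupport fun a => hx (s2 e a)⟩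
  obtain ⟨R, hR⟩ := h2.isCompact.isBounded.subset_ball (0 : P)
  refine XRem.div0 (fun x => cd (ee 0) F x * φ x) (fun x => cd (ee 1) F x * φ x) _ c (max |c| R)
    (le_max_left _ _) (XRem.ct o (c1 _) h1.continuous h3) (XRem.ct o (c1 _) h1.continuous h3)
    (((XRem.ct o (c1 _) (c2 _) ((s2 _).trans h3)).add
      (XRem.ct o (c1 _) (c2 _) ((s2 _).trans h3))).add
      (XRem.ct o (continuousOn_const.mul hF.continuousOn) h1.continuous h3)) ?_ ?_
  · intro x hx
    have := z x fun a => by
      have := mem_ball_zero_iff.1 (hR a)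
      exact absurd ((le_max_right _ _).trans hx) (not_le.2 this)
    simp [this.1, this.2]
  · intro x hx
    by_cases hs : x ∈ tsupport φ
    · obtain ⟨d2, hL⟩ := hl x (h3 hs) hx
      have d : ∀ e, DifferentiableAt ℝ (cd e F) x := fun e =>
        (cd_cd (k := 1) e d2).differentiableAt (by simp)
      have dφ : HasFDerivAt (fun y => (φ y : ℂ)) (Complex.ofRealCLM.comp (fderiv ℝ φ x)) x :=
        Complex.ofRealCLM.hasFDerivAt.comp x (h1.differentiable (by simp) x).hasFDerivAt
      have m : ∀ e, cd e (fun y => cd e F y * φ y) x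
          = cd e F x * pd e φ x + φ x * cd e (cd e F) x := fun e => by
        rw [cd, ((d e).hasFDerivAt.fun_mul dφ).fderiv]
        simp [pd, cd]
      refine ⟨(d _).mul dφ.differentiableAt, (d _).mul dφ.differentiableAt, ?_⟩
      rw [m, m]
      unfold lapC at hL
      linear_combination (φ x : ℂ) * hL
    · have ev : ∀ e, (fun y => cd e F y * φ y) =ᶠ[𝓝 x] fun _ => 0 := fun e => by
        filter_upwards [(isClosed_tsupport φ).isOpen_compl.mem_nhds hs] with y hy
        simp [(z y hy).1]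
      refine ⟨(differentiableAt_const _).congr_of_eventuallyEq (ev _),
        (differentiableAt_const _).congr_of_eventuallyEq (ev _), ?_⟩
      rw [(cd_congr _ (ev _)).self_of_nhds, (cd_congr _ (ev _)).self_of_nhds]
      simp [cd, (z x hs).1, (z x hs).2]

end Pool.Agent.MP_ed9623_an.R1
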