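import Pool.Agent.MP_ed9623_an.R1.Spec
import Pool.Agent.MP_ed9623_an.H73.AnaP

/-! Smooth representatives where the curl of the force is smooth. -/

open MeasureTheory Filter Topology Set
open scoped ContDiff InnerProductSpace

namespace Pool.Agent.MP_ed9623_an.R1

open H64

namespace XRepN

open H77 H77.AnaP S64 in
theorem loc (hTh : H77.ThS) (hTr : H77.TransS) (hR : H77.RepS) (hB : H77.BootS) {Ω N : Set H77.P}
    {g : Fin 2 → H77.P → ℝ} {G : H77.P → ℝ} {R : ℝ} {U : ℝ → E6} (hΩ : IsOpen N) (hN : N ⊆ Ω)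
    (hg : ∀ j, M2 (g j)) (hU : Sv Ω g R U) (hC : CurlS g N G) (t : ℝ) (j : Fin 2) {x : H77.P}
    (hx : x ∈ N) : ∃ (F : S3) (ε : ℝ), 0 < ε ∧
      ∀ᶠ s in 𝓝 t, ∀ᵐ p, p ∈ Metric.ball x ε → F.1 (s, p) = vl (U s) j p := by
  obtain ⟨hG, hGe⟩ := hC
  obtain ⟨r, hc⟩ := exists_ch hΩ hx
  have r0 := hc.r0
  obtain ⟨-, mi, ⟨T, hT⟩, -, hte, -⟩ := hTh x (1, 0) (fun _ => 0) hc.un Gam.zero
  obtain ⟨t1, t2, -, -, t5, t6⟩ := hTr x (1, 0) (fun _ => 0) hc.un Gam.zero
  have hQ : ∀ p ∈ Q r, x + p ∈ N := fun p hp => by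
    rw [← Th_tr]
    exact (hc.mem p hp).2 (abs_lt.1 (mem_Q.1 hp).2).1
  have hv : ∀ (v : E6) j, tv x (1, 0) (fun _ => 0) (vl v) j =ᵐ[volume] vl (TE T v) j :=
    fun v j => by rw [tv_tr]; exact (hT _).symm
  have hd : ∀ (v : E6) j i, td x (1, 0) (fun _ => 0) (gj v) j i =ᵐ[volume] gj (TE T v) j i :=
    fun v j i => by rw [td_tr]; exact (hT _).symm
  obtain ⟨χ, hχ, -, c1⟩ := exists_cut (isCompact_closedBall (0 : P) (r / 2)) (isOpen_Q r)
    (Q_eq_ball r ▸ Metric.closedBall_subset_ball (by linarith))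
  have c2 : ∀ p ∈ Q (r / 2), χ p = 1 := fun p hp =>
    c1.self_of_nhdsSet p (Metric.ball_subset_closedBall (Q_eq_ball (r / 2) ▸ hp))
  have hA : ∀ p ∈ Q r, ContDiffAt ℝ ∞ (fun q => G (x + q)) p := fun p hp =>
    ContDiffAt.comp (f := fun q => x + q) p (hG.contDiffAt (hΩ.mem_nhds (hQ p hp)))
      (contDiffAt_const.add contDiffAt_id)
  have hθ : ∀ θ, Test (Q (r / 2)) θ → Test N fun q => θ (Thi x (1, 0) (fun _ => 0) q) :=
    fun θ h => (hte _ θ h).2.mono fun q hq => by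
      have := hQ _ (Q_mono (by linarith) hq)
      rwa [Thi_tr, add_sub_cancel] at this
  have hL : Lv (r / 2) (tv x (1, 0) (fun _ => 0) g) (fun p => χ p * G (x + p))
      fun t => TE T (U t) := by
    refine ⟨(TE T).contDiff.comp hU.1, fun t => mem_VZ.2 ⟨(t2 _ _ (hU.2 t).vf).1.congr (hv _) (hd _),
      fun ix => Eventually.of_forall fun p hp => absurd trivial hp⟩, fun j => ((t1 g).1 hg j).1,
      test_mul hA hχ, fun t θ h => ?_, fun θ h => ?_⟩
    · obtain ⟨a, b, c⟩ := t6 _ fun j => h.top.perp Gam.zero j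
      have e := (hU.2 t).eq _ ((hθ θ h).mono hN)
      unfold E2 at e ⊢
      rw [← (t5 θ h.1).1, ← b _ (m2_gj _), ← c _ _ (m2_vl _) (m2_vl _),
        ← a _ fun j => ((hU.2 t).mf j).1, di_congr (hd _), tl_congr (hv _) (hv _)] at e
      rw [e, deriv_clm _ hU.1]
      refine ip_congr (fun j => ?_) fun _ => EventuallyEq.rfl
      filter_upwards [hv (deriv U t) j] with p hp
      rw [← hp, tv_tr, tv_tr, tv_tr]
    · obtain ⟨a, -, -⟩ := t6 _ fun j => h.top.perp Gam.zero j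
      rw [a _ hg, (t5 θ h.1).1, hGe _ (hθ θ h), ← integral_add_left_eq_self _ x]
      refine integral_congr_ae (Eventually.of_forall fun p => ?_)
      simp only [Thi_tr, add_sub_cancel_left]
      by_cases hp : p ∈ Q (r / 2)
      · rw [c2 p hp, one_mul]
      · rw [h.off hp, mul_zero, mul_zero]
  obtain ⟨F, h1, h2⟩ := hR.2 (r / 4) (r / 6) t (H77.cp (fun t => TE T (U t)) (j, none)) (by linarith)
    (sm_cp hL.sm _) fun k => hB (r / 2) (r / 4) _ _ _ hL (by linarith) (by linarith) k j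
  refine ⟨mkS (fun z : ST => F (z.1, z.2 - x))
    (h1.comp (contDiff_fst.prodMk (contDiff_snd.sub contDiff_const))), r / 6, by linarith, ?_⟩
  filter_upwards [h2] with s hs
  filter_upwards [mi.quasiMeasurePreserving.ae hs, mi.quasiMeasurePreserving.ae (hv (U s) j)]
    with q a b hq
  rw [tv_tr] at b
  simp only [Th_Thi hc.un] at b
  rw [b, mkS_val, ← Thi_tr]
  refine a ?_
  rw [Q_eq_ball, Thi_tr, mem_ball_zero_iff, ← dist_eq_norm]
  exact hq

end XRepN

open H77 (P E6 vl) in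
open S64 in
theorem rowRepN : OfRepN := by
  intro h1 h2 h3 h4 hG Ω N g G R a w o hN hP hC
  have key : ∀ (c : ℝ) (u : ℝ → E6), (∀ t j p, vl (u t) j p = 1 / 2 * (vl (a t) j p + vl (w t) j p
      + c * (vl (a t) j p - vl (w t) j p))) → ∃ A, Gr N u A := fun c u hu => by
    have : ∀ j, ∃ F : ST → ℝ, ContDiffOn ℝ ∞ F {z | z.2 ∈ N} ∧
        ∀ t, ∀ᵐ x, x ∈ N → F (t, x) = vl (u t) j x := fun j => hG N _ o fun t x hx => by
      obtain ⟨F, ε, e, b⟩ := XRepN.loc h1 h2 h3 h4 o hN hP.mg hP.s1 hC t j hx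
      obtain ⟨F', ε', e', b'⟩ := XRepN.loc h1 h2 h3 h4 o hN hP.mg hP.s2 hC t j hx
      refine ⟨(1 / 2 : ℝ) • (F + c • F'), min ε ε', lt_min e e', (b.and b').mono fun s k => ?_⟩
      filter_upwards [k.1, k.2, H77.co_add (a s) (w s) (j, none),
        H77.co_sub (a s) (w s) (j, none)] with p m m' d d' hp
      rw [val_smul, val_add, val_smul, m (Metric.ball_subset_ball (min_le_left _ _) hp),
        m' (Metric.ball_subset_ball (min_le_right _ _) hp), hu]
      unfold vl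
      rw [d, d']
    choose A k1 k2 using this
    exact ⟨A, k1, fun t j => k2 j t⟩
  obtain ⟨A, hA⟩ := key 1 a fun _ _ _ => by ring
  obtain ⟨W, hW⟩ := key (-1) w fun _ _ _ => by ring
  exact ⟨A, W, hA, hW⟩

end Pool.Agent.MP_ed9623_an.R1
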