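import Pool.Agent.MP_ed9623_an.R1.Base

/-! There is no common null direction on an open part of the zone. -/

open MeasureTheory Filter Topology Set
open scoped ContDiff ComplexConjugate

namespace Pool.Agent.MP_ed9623_an.R1

open H77 (P E6 ee)
open R77

namespace XRes

theorem alg {x y : ℝ} {A B C : ℂ} (h0 : x ≠ 0 ∨ y ≠ 0)
    (h : (x : ℂ) * x * A + (x * y + y * x) * B + y * y * C = 0) :
    (A * conj C).im ^ 2 - 4 * (A * conj B).im * (B * conj C).im = 0 := by
  have a := congrArg Complex.re h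
  have b := congrArg Complex.im h
  simp only [Complex.add_re, Complex.add_im, Complex.mul_re, Complex.mul_im, Complex.ofReal_re,
    Complex.ofReal_im, Complex.zero_re, Complex.zero_im, mul_zero, zero_mul, sub_zero, add_zero,
    Complex.conj_re, Complex.conj_im] at a b ⊢
  set p := A.re * -C.im + A.im * C.re with hp
  set q := A.re * -B.im + A.im * B.re with hq
  set r := B.re * -C.im + B.im * C.re with hr
  have e1 : 2 * x * y * q + y ^ 2 * p = 0 := by
    rw [hp, hq]; linear_combination A.im * a - A.re * b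
  have e2 : x ^ 2 * p + 2 * x * y * r = 0 := by
    rw [hp, hr]; linear_combination C.re * b - C.im * a
  have e3 : x ^ 2 * q - y ^ 2 * r = 0 := by
    rw [hq, hr]; linear_combination B.re * b - B.im * a
  rcases h0 with h0 | h0
  · refine (mul_eq_zero.1 (?_ : x ^ 4 * (p ^ 2 - 4 * q * r) = 0)).resolve_left (pow_ne_zero 4 h0)
    linear_combination (x ^ 2 * p - 2 * x * y * r) * e2 - 4 * x ^ 2 * r * e3
  · refine (mul_eq_zero.1 (?_ : y ^ 4 * (p ^ 2 - 4 * q * r) = 0)).resolve_left (pow_ne_zero 4 h0)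
    linear_combination (y ^ 2 * p - 2 * x * y * q) * e1 + 4 * y ^ 2 * q * e3

theorem ana {F G : P → ℂ} {p : P} (hF : AnalyticAt ℝ F p) (hG : AnalyticAt ℝ G p) :
    AnalyticAt ℝ (fun y => (F y * conj (G y)).im) p :=
  (Complex.imCLM.analyticAt _).comp
    (hF.mul (((Complex.conjCLE : ℂ →L[ℝ] ℂ).analyticAt _).comp hG))

end XRes

open XRes in
theorem rowRes : OfRes := by
  intro hLk _ hAn hL0 hAgr n Ω Z O g R a w ps al pr hZ ⟨y₀, hy₀, hR⟩ hO p hp hev
  choose! Oc pc ac rc hm _ hk using hLk Ω g R a w hZ.o hZ.pv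
  have ag : ∀ O' ps' al' pr', Lk O' a w ps' al' pr' → ∀ y ∈ O' ∩ Z,
      rsc n (pc y) y = rsc n ps' y := fun O' ps' al' pr' h y hy => by
    have e := fun t u v (c : u + v = 2) => (hAgr a w).1 _ _ _ _ _ _ _ _ (hk y (hZ.sub hy.2)) h t u v
      (Or.inr c) y ⟨hm y (hZ.sub hy.2), hy.1⟩
    simp only [rsc, cz, e _ 2 0 rfl, e _ 1 1 rfl, e _ 0 2 rfl]
  have an : AnalyticOnNhd ℝ (fun y => rsc n (pc y) y) Z := fun x hx => by
    have k := hk x (hZ.sub hx)
    have m : x ∈ Oc x ∩ Z := ⟨hm x (hZ.sub hx), hx⟩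
    have b := (hAn n _ Z _ _ _ (hL0 n Ω Z _ g R a w _ _ _ hZ k) x m).1
    have b20 := (b 2 0 (Or.inr rfl)).1
    have b11 := (b 1 1 (Or.inr rfl)).1
    have b02 := (b 0 2 (Or.inr rfl)).1
    have c : AnalyticAt ℝ (rsc n (pc x)) x :=
      ((ana b20 b02).pow 2).sub ((analyticAt_const.mul (ana b20 b11)).mul (ana b11 b02))
    refine c.congr ?_
    filter_upwards [(k.oO.inter hZ.oZ).mem_nhds m] with y hy using (ag _ _ _ _ k y hy).symm
  have z : (fun y => rsc n (pc y) y) =ᶠ[𝓝 p] 0 := by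
    filter_upwards [hev, (hO.oO.inter hZ.oZ).mem_nhds hp] with y ⟨e, e0, he⟩ hy
    rw [ag _ _ _ _ hO y hy]
    refine alg (x := e.1) (y := e.2) ?_ (hz_of_hs (n := n) he)
    by_contra c
    push Not at c
    exact e0 (Prod.ext c.1 c.2)
  have k := hk y₀ (hZ.sub hy₀)
  exact hR _ Z _ _ _ (hm y₀ (hZ.sub hy₀)) hy₀ k (hL0 n Ω Z _ g R a w _ _ _ hZ k)
    (an.eqOn_zero_of_preconnected_of_eventuallyEq_zero hZ.cZ hp.2 z hy₀)

end Pool.Agent.MP_ed9623_an.R1
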