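import Pool.Agent.MP_ed9623_an.R1.Base

/-! Rigid motions, and the reduction to a touching point at the origin. -/

open Filter Topology Set
open scoped ContDiff ComplexConjugate

namespace Pool.Agent.MP_ed9623_an.R1

open H64 (pd SA)
open H77 (P ee)
open R77
open S64 (Low Crv cst DS)

theorem hasF_pd {f : P → ℝ} {p : P} (h : DifferentiableAt ℝ f p) :
    HasFDerivAt f (lf (pd (ee 0) f p) (pd (ee 1) f p)) p :=
  h.hasFDerivAt.congr_fderiv (by ext <;> simp [pd, ee])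

theorem sm_mo (x τ : P) : ContDiff ℝ ∞ (mo x τ) := mo_eq x τ ▸ S64.sm_mv x τ

theorem rowRotT : OfRotT := by
  intro Z p Φ h
  have h0 : 0 < pd (ee 0) Φ p ^ 2 + pd (ee 1) Φ p ^ 2 := by
    rcases h.ne with c | c <;> positivity
  refine ⟨fun τ hτ => ?_, (√(pd (ee 0) Φ p ^ 2 + pd (ee 1) Φ p ^ 2))⁻¹, by positivity, ?_⟩
  · have d := hasF_comp (x := p) (τ := τ) (p := 0)
      (hasF_pd (h.c1.differentiable (by simp) _))
    rw [mo_zero] at d
    refine ⟨⟨by rw [mem_preimage, mo_zero]; exact h.nm,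
      h.c1.comp ((sm_mo p τ).of_le (by exact_mod_cast le_top)), ?_, ?_⟩, pd0_of d, pd1_of d⟩
    · rw [pd0_of d, pd1_of d]
      by_contra! k
      have : pd (ee 0) Φ p ^ 2 + pd (ee 1) Φ p ^ 2 = 0 := by
        linear_combination (τ.1 * pd (ee 0) Φ p + τ.2 * pd (ee 1) Φ p) * k.1
          + (-τ.2 * pd (ee 0) Φ p + τ.1 * pd (ee 1) Φ p) * k.2
          - (pd (ee 0) Φ p ^ 2 + pd (ee 1) Φ p ^ 2) * hτ
      exact h0.ne' this
    · refine (ev_mo hτ (q := fun y => Φ (mo p τ 0) < Φ y → y ∈ Z)).2 ?_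
      rw [mo_zero]
      exact h.up
  · rw [mul_pow, mul_pow, inv_pow, Real.sq_sqrt h0.le]
    field_simp
    ring

theorem rowRotX : OfRotX := by
  intro hL n O Z ps al pr x τ hτ h
  have nτ : ∀ {u v : ℝ}, τ.1 * u + τ.2 * v = 0 → -τ.2 * u + τ.1 * v = 0 → u = 0 ∧ v = 0 :=
    fun {u v} a b => ⟨by linear_combination τ.1 * a - τ.2 * b - u * hτ,
      by linear_combination τ.2 * a + τ.1 * b - v * hτ⟩
  refine ⟨h.toLz.rot x hτ, fun p c k => h.res _ c ((ev_mo hτ).1 (k.mono ?_)), fun y c t k =>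
    h.mj _ ⟨c.1, (mo_closure hτ Z).subset c.2⟩ t ((ev_mo hτ).1 (k.mono fun z a j =>
      nτ (a j).1 (a j).2)), fun y c ⟨t, k⟩ => ?_⟩
  · rintro y ⟨e, a, b⟩
    refine ⟨mo 0 τ e, fun z => a ?_, fun t => by simpa only [hs_rot] using b t⟩
    rw [← moi_mo (x := 0) hτ e, z, moi_apply]
    simp
  have smi : ContDiff ℝ ∞ (moi x τ) := by rw [funext (moi_apply x τ)]; fun_prop
  have back : ∀ (F : J2) (z : P), ContDiffAt ℝ ∞ (rot x τ F 1 0) z →
      ContDiffAt ℝ ∞ (rot x τ F 0 1) z → ∀ a b, a + b = 1 → ContDiffAt ℝ ∞ (F a b) (mo x τ z) := by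
    intro F z u v a b e
    rw [← moi_mo (x := x) hτ z] at u v
    have u' := u.comp _ smi.contDiffAt
    have v' := v.comp _ smi.contDiffAt
    obtain ⟨rfl, rfl⟩ | ⟨rfl, rfl⟩ := one_cases e
    · refine ((contDiffAt_const (c := τ.1).mul u').sub (contDiffAt_const (c := τ.2).mul
        v')).congr_of_eventuallyEq (Eventually.of_forall fun y => ?_)
      simp only [Function.comp, rot10, rot01, mo_moi hτ]
      linear_combination -F 1 0 y * hτ
    · refine ((contDiffAt_const (c := τ.2).mul u').add (contDiffAt_const (c := τ.1).mul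
        v')).congr_of_eventuallyEq (Eventually.of_forall fun y => ?_)
      simp only [Function.comp, rot10, rot01, mo_moi hτ]
      linear_combination -F 0 1 y * hτ
  obtain ⟨O', α, ψ, a, b, l, e⟩ := h.sm _ c ⟨t, fun a b e => (ev_mo hτ).1 (by
    filter_upwards [k 1 0 rfl, k 0 1 rfl] with z u v
    exact ⟨back _ z u.1 v.1 a b e, back _ z u.2.1 v.2.1 a b e, back _ z u.2.2 v.2.2 a b e⟩)⟩
  refine ⟨mo x τ ⁻¹' O', S64.cm x τ α, S64.cm x τ ψ, a, preimage_mono b,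
    mo_eq x τ ▸ hL n α ψ O' Z x τ hτ l, fun s z hz => ?_⟩
  rw [S64.d1_cm, S64.d2_cm, S64.cm_val, S64.cm_val, S64.val_add, S64.val_sub, S64.val_smul,
    S64.val_smul, S64.val_smul, S64.val_smul, ← mo_eq, (e s _ hz).1, (e s _ hz).2, rot10, rot01]
  exact ⟨rfl, by ring⟩

theorem rowRotC : OfRotC := by
  intro hL n Ω Z f p τ hτ h
  let f' : ℝ → Fin 2 → P → ℝ := fun t => ![
    fun z => τ.1 * f t 0 (mo p τ z) + τ.2 * f t 1 (mo p τ z),
    fun z => -τ.2 * f t 0 (mo p τ z) + τ.1 * f t 1 (mo p τ z)]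
  have k : ∀ O ps al pr, Cx n Ω Z f O ps al pr → Cx n (mo p τ ⁻¹' Ω) (mo p τ ⁻¹' Z) f'
      (mo p τ ⁻¹' O) (fun t j => rot p τ (ps t j)) (fun t j => rot p τ (al t j))
      fun t j => rot p τ (pr t j) := fun O ps al pr c =>
    ⟨hL n O Z ps al pr p τ hτ c.lx, preimage_mono c.sub, fun t z hz => by
      rw [rot10, rot01, (c.eq t _ hz).1, (c.eq t _ hz).2]
      exact ⟨rfl, rfl⟩⟩
  have ct := ct_mo p τ
  refine ⟨f', ⟨h.o.preimage ct, ?_, fun x hx => ?_, fun t j x hx => ?_⟩, k⟩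
  · exact ((moH p hτ).isCompact_preimage.2 h.b.isCompact_closure).isBounded.subset
      (preimage_mono subset_closure)
  · obtain ⟨O, ps, al, pr, a, b⟩ := h.ch _ hx
    exact ⟨_, _, _, _, a, k O ps al pr b⟩
  · have m : Tendsto (mo p τ) (𝓝[mo p τ ⁻¹' Ω] x) (𝓝[Ω] mo p τ x) :=
      ct.continuousWithinAt.tendsto_nhdsWithin (mapsTo_preimage _ _)
    have e1 := (h.bd t 0 _ hx).comp m
    have e2 := (h.bd t 1 _ hx).comp m
    fin_cases j
    · simpa [f'] using (e1.const_mul τ.1).add (e2.const_mul τ.2)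
    · simpa [f'] using (e1.const_mul (-τ.2)).add (e2.const_mul τ.1)

theorem cz_tr {n : ℝ} {ps : ℝ → ℕ → J2} (x p : P) :
    cz n (fun t j => rot x (1, 0) (ps t j)) 1 0 p = cz n ps 1 0 (x + p) ∧
    cz n (fun t j => rot x (1, 0) (ps t j)) 2 0 p = cz n ps 2 0 (x + p) ∧
    cz n (fun t j => rot x (1, 0) (ps t j)) 1 1 p = cz n ps 1 1 (x + p) := by
  simp [cz_rot10, cz_rot20, cz_rot11, hz, mo_one]

theorem rowTP1 : OfTP1 := by
  intro hL hT h0 n O Z ps al pr p Φ t hl hp ht a b hd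
  have u : ((1, 0) : P).1 ^ 2 + ((1, 0) : P).2 ^ 2 = 1 := by norm_num
  obtain ⟨t0, c, d⟩ := (hT Z p Φ ht).1 _ u
  have k := (h0 n _ _ _ _ _ _ t (hL n O Z ps al pr p _ u hl) (by rwa [mem_preimage, mo_zero]) t0
    (by rw [c, a]; simp) (by rw [d]; simpa using b) (by rwa [dt_rot u, mo_zero])).1
  have tr : ∀ {q : ℝ → Prop}, (∀ᶠ s in 𝓝 (0 : ℝ), q (p.1 + s)) → ∀ᶠ s in 𝓝 p.1, q s := fun {q} h => by
    have : Tendsto (fun s => s - p.1) (𝓝 p.1) (𝓝 0) := by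
      simpa using (continuous_sub_right p.1).tendsto p.1
    simpa using this.eventually h
  have e : ∀ s : ℝ, p + (s, (0 : P).2) = (p.1 + s, p.2) := fun s => by ext <;> simp
  have m : ∀ {q : P → Prop}, (∀ᶠ y in 𝓝 (0 : P), q (mo p (1, 0) y)) → ∀ᶠ y in 𝓝 p, q y :=
    fun h => by simpa only [mo_zero] using (ev_mo u).1 h
  refine ⟨⟨⟨rfl, m (k.crv.1.2.mono fun y a b => a ?_)⟩, m (k.crv.2.mono fun y a b => a ?_)⟩,
    tr (k.nul.mono fun s a => by rwa [(cz_tr _ _).2.1, e] at a),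
    by simpa only [(cz_tr _ _).2.2, add_zero] using k.nd,
    tr (k.rr.mono fun s a => by rwa [(cz_tr _ _).1, (cz_tr _ _).2.2, e] at a)⟩
  · simpa [mo_one, S64.cst_val] using b
  · simpa [mo_one, S64.cst_val] using b

/-- The rotation which makes the tangent horizontal. -/
theorem exists_rot (hT : RotTS) {Z : Set P} {p : P} {Φ : P → ℝ} (ht : Tc Z p Φ) : ∃ (c : ℝ) (τ : P),
    0 < c ∧ τ = (c * -pd (ee 1) Φ p, c * pd (ee 0) Φ p) ∧ τ.1 ^ 2 + τ.2 ^ 2 = 1 ∧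
    Tc (mo p τ ⁻¹' Z) 0 (fun y => Φ (mo p τ y)) ∧ pd (ee 0) (fun y => Φ (mo p τ y)) 0 = 0 ∧
    pd (ee 1) (fun y => Φ (mo p τ y)) 0 < 0 := by
  obtain ⟨a, c, c0, u⟩ := hT Z p Φ ht
  obtain ⟨t0, b, d⟩ := a (c * -pd (ee 1) Φ p, c * pd (ee 0) Φ p) u
  refine ⟨c, _, c0, rfl, u, t0, by rw [b]; ring, ?_⟩
  rw [d]
  refine neg_of_mul_neg_left (b := c) ?_ c0.le
  linarith

theorem rowTP : OfTP := by
  intro hL hT h0 n O Z ps al pr p Φ t hl hp ht hd
  obtain ⟨c, τ, c0, e, u, t0, a, b⟩ := exists_rot hT ht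
  have k := (h0 n _ _ _ _ _ _ t (hL n O Z ps al pr p _ u hl) (by rwa [mem_preimage, mo_zero]) t0
    a b (by rwa [dt_rot u, mo_zero])).1.rr.self_of_nhds
  rw [Prod.mk.eta, cz_rot10, cz_rot11, mo_zero] at k
  refine (mul_eq_zero.1 (?_ : -c ^ 3 * _ = 0)).resolve_left (neg_ne_zero.2 (by positivity))
  rw [← k, ← Complex.re_ofReal_mul, e]
  simp only [hz, map_add, map_mul, Complex.conj_ofReal]
  congr 1
  push_cast
  ring

theorem rowND : OfND := by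
  intro di rd n O Z ps al pr h x hx hn
  obtain ⟨y, a, b, t, c⟩ := rd n O Z ps al pr h x hx hn
  obtain ⟨p, d, Φ, e⟩ := di Z (O ∩ {z | dt (ps t 0) z ≠ 0}) y h.oZ a.2 b (inter_mem
    (h.oO.mem_nhds a.1) ((dt_ct ((h.tj t).jp 0)).continuousAt.eventually_ne c))
  exact ⟨p, d.1, Φ.1, t, ⟨e.1, Φ.cd 1, e.2.1, e.2.2⟩, d.2⟩

theorem rowCore : OfCore := by
  intro nd rt rc tp ct n Ω Z f h x hx hz
  by_contra hn
  obtain ⟨O, ps, al, pr, hO, c⟩ := h.ch x hx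
  obtain ⟨p, hp, Φ, t, h1, h2⟩ := nd n O Z ps al pr c.lx.toLz x ⟨hO, hz⟩ hn
  obtain ⟨-, τ, -, -, e, k1, k2, k3⟩ := exists_rot rt h1
  obtain ⟨f', g1, g2⟩ := rc n Ω Z f p τ e h
  have c' := g2 O ps al pr c
  have h0 : (0 : P) ∈ mo p τ ⁻¹' O := by rwa [mem_preimage, mo_zero]
  have k := tp n _ _ _ _ _ _ t c'.lx h0 k1 k2 k3 (by rwa [dt_rot e, mo_zero])
  exact ct n _ _ f' _ _ _ _ g1 c' h0 k.1 k.2

end Pool.Agent.MP_ed9623_an.R1
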