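import Pool.Agent.MP_ed9623_an.R1.Base

/-! The smooth case. -/

open Filter Topology Set
open scoped ContDiff ComplexConjugate

namespace Pool.Agent.MP_ed9623_an.R1

open H64 (pd SA)
open H77 (P ee)
open R77
open S64

namespace XSm

theorem jet {F : J2} (hj : Jt 4 F) {O : Set P} (o : IsOpen O) {f : S3} {t : ℝ} {a b : ℕ}
    (k : a + b ≤ 1) (e : ∀ y ∈ O, f.1 (t, y) = F a b y) :
    ∀ y ∈ O, (DS.d 1 f).1 (t, y) = F (a + 1) b y ∧ (DS.d 2 f).1 (t, y) = F a (b + 1) y := by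
  intro y hy
  have d := (hj.d a b (by omega) y).congr_of_eventuallyEq (mem_of_superset (o.mem_nhds hy) e)
  have u := d.comp_hasDerivAt (f := fun r => (r, y.2)) y.1
    ((hasDerivAt_id _).prodMk (hasDerivAt_const _ y.2))
  have v := d.comp_hasDerivAt (f := fun r => (y.1, r)) y.2
    ((hasDerivAt_const _ y.1).prodMk (hasDerivAt_id _))
  exact ⟨by simpa using (hd_x1 f t y.1 y.2).unique u, by simpa using (hd_x2 f t y.1 y.2).unique v⟩

/-- The amplitude along a line. -/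
noncomputable def am (n c : ℝ) (f : S3) (s : ℝ) : ℂ :=
  f.1 (0, s, c) - Complex.I * f.1 (Real.pi / (2 * √n), s, c)

/-- `f` is a sinusoid. -/
def Sw (n c : ℝ) (f : S3) (s : ℝ) : Prop := ∀ t, f.1 (t, s, c) = (ex n t 0 * am n c f s).re

variable {n c s : ℝ} {f g : S3}

theorem am_hd (n c : ℝ) (f : S3) (s : ℝ) : HasDerivAt (am n c f) (am n c (DS.d 1 f) s) s :=
  (hd_x1 f 0 s c).ofReal_comp.sub ((hd_x1 f _ s c).ofReal_comp.const_mul _)

theorem am_d (n c : ℝ) (f : S3) : deriv (am n c f) = am n c (DS.d 1 f) :=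
  funext fun s => (am_hd n c f s).deriv

theorem Sw.d1 (h : ∀ᶠ r in 𝓝 s, Sw n c f r) : ∀ᶠ r in 𝓝 s, Sw n c (DS.d 1 f) r :=
  h.eventually_nhds.mono fun r a t => (hd_x1 f t r c).unique
    ((Complex.reCLM.hasFDerivAt.comp_hasDerivAt r ((am_hd n c f r).const_mul
      (ex n t 0))).congr_of_eventuallyEq (a.mono fun _ b => b t))

theorem Sw.d0 (h : Sw n c f s) (t : ℝ) : (DS.d 0 f).1 (t, s, c) = (ex n t 1 * am n c f s).re :=
  (hd_time f t (s, c)).unique (funext h ▸ ex_re_hd n t 0 _)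

theorem Sw.ip (h0 : 0 < n) (h : Sw n c f s) (k : Sw n c g s) :
    (DS.ip n f g).1 (0, s, c) = n * (am n c f s * conj (am n c g s)).re := by
  rw [ip_val, h.d0, k.d0, h, k, ex_ip h0]

theorem Sw.bk (h : Sw n c f s) (k : Sw n c g s) :
    (DS.bk f g).1 (0, s, c) = √n * (am n c f s * conj (am n c g s)).im := by
  rw [bk_val, h.d0, k.d0, h, k, ex_wr]

theorem real_mul {q l : ℂ} (h : q ≠ 0) (k : (q * conj l).im = 0) : l = (l / q).re * q := by
  have : (l / q).im = 0 := by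
    rw [Complex.div_im]
    simp only [Complex.mul_im, Complex.conj_re, Complex.conj_im] at k
    linear_combination -k / Complex.normSq q
  rw [Complex.conj_eq_iff_re.1 (Complex.conj_eq_iff_im.2 this), div_mul_cancel₀ _ h]

end XSm

open XSm

theorem rowSmE : OfSmE := by
  intro dc hc n O Z ps al pr p γ t h hp sm cr q
  obtain ⟨O', α, ψ, a, -, l, e⟩ := h.sm p hp sm
  have k := jet (h.j4 t) l.oO (a := 0) (b := 1) le_rfl (fun y c => (e t y c).2) p a
  have := hc n α ψ O' Z p γ t l cr a (dc n α ψ O' Z p γ l cr a)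
    (by rwa [DR.QQ, val_add, val_mul, gg_val, k.1, k.2])
  rwa [← (hd_one (H64.D 1 γ) p.1).deriv] at this

theorem rowSmH : OfSmH := by
  intro dc w1 hd cz' n O Z ps al pr p h hp sm cr q
  obtain ⟨O', α, ψ, a, sub, l, e⟩ := h.sm p hp sm
  have n0 := h.n0
  obtain ⟨t, ht⟩ := ex_exists n0 q
  rw [← cz' n O Z ps al pr h.l0 t 0 1 1 (Or.inr rfl) p ⟨hp, cr.1.cl⟩,
    ← (jet (h.j4 t) l.oO (a := 0) (b := 1) le_rfl (fun y c => (e t y c).2) p a).1] at ht
  have d := dc n α ψ O' Z p _ l cr a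
  have w := w1 n α ψ O' Z p _ t l cr a d (by simpa [gg_cst, DR.QQ] using ht)
  have g := hd n α ψ O' Z p t l cr a (by simpa [gg_cst, DR.AA] using d) ht
  simp only [gg_cst, DR.AA, DR.QQ, zero_mul, mul_zero, add_zero, ne_eq, OfNat.ofNat_ne_zero,
    not_false_eq_true, zero_pow] at w
  have T := (Continuous.prodMk_left p.2).tendsto p.1
  have o := T.eventually (l.oO.mem_nhds a)
  have e0 : am n p.2 (DS.d 2 ψ) =ᶠ[𝓝 p.1] fun r => cz n ps 0 1 (r, p.2) :=
    o.mono fun r b => by simp only [am, cz, (e _ _ b).2]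
  have s0 : ∀ᶠ r in 𝓝 p.1, Sw n p.2 (DS.d 2 ψ) r := by
    filter_upwards [o, e0, T.eventually cr.ev] with r b c d s
    rw [c, (e s _ b).2]
    exact cz' n O Z ps al pr h.l0 s 0 0 1 (Or.inl rfl) _ ⟨sub b, (d rfl).1.cl⟩
  have s1 := Sw.d1 s0
  have s2 := Sw.d1 s1
  have q0 : ∀ᶠ r in 𝓝 p.1, am n p.2 (DS.d 1 (DS.d 2 ψ)) r ≠ 0 :=
    (am_hd _ _ _ _).continuousAt.eventually_ne fun z => ht (by
      rw [show (t, p) = (t, p.1, p.2) from rfl, s1.self_of_nhds, z]; simp)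
  have r1 : ∀ᶠ r in 𝓝 p.1, am n p.2 (DS.d 1 (DS.d 1 (DS.d 2 ψ))) r
      = r0 (am n p.2 (DS.d 2 ψ)) r * am n p.2 (DS.d 1 (DS.d 2 ψ)) r := by
    filter_upwards [s1, s2, q0, T.eventually (mem_TI.1 w)] with r b c d f
    rw [r0, am_d, am_d]
    exact real_mul d ((mul_eq_zero.1 ((b.bk c).symm.trans (f rfl 0))).resolve_left
      (Real.sqrt_pos.2 n0).ne')
  refine Or.inr ⟨?_, Ty.congr ⟨by simpa only [am_d] using r1, Or.inl ?_⟩ e0 EventuallyEq.rfl⟩
  · filter_upwards [o, T.eventually (mem_TI.1 g.tan)] with r b c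
    simp [cz, ← (e _ _ b).1, c rfl]
  · filter_upwards [s0, s1, s2, q0, r1, T.eventually (mem_TI.1 g.rel)] with r b c d f k m
    have m := m rfl 0
    simp only [rel, val_sub, val_mul, val_pow, val_ofNat] at m
    rw [d.ip n0 c, c.ip n0 b, c.ip n0 c, k, mul_assoc (_ : ℂ), Complex.re_ofReal_mul,
      Complex.mul_conj, Complex.ofReal_re] at m
    rw [am_d, ← Complex.conj_re, map_mul, Complex.conj_conj, mul_comm (conj _)]
    refine mul_left_cancel₀ (mul_pos (pow_pos n0 2) (Complex.normSq_pos.2 f)).ne' ?_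
    linear_combination m

end Pool.Agent.MP_ed9623_an.R1
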