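import Pool.Agent.MP_ed9623_an.R1.Base
import Pool.Agent.MP_ed9623_an.R77.Rep

/-! The smooth local structure. -/

open MeasureTheory Filter Topology Set
open scoped ContDiff

namespace Pool.Agent.MP_ed9623_an.R1

open H64
open H77 (P E6 vl)
open R77
open S64 (S3 DS Gr Ck NI GZ hd_time hd_x1 hd_x2 val_add val_smul)

namespace XSmo

theorem rep {O N O' : Set P} {a : ℝ → E6} {A : Fin 2 → ST → ℝ} {α : S3} {F : J2} {s : ℝ}
    (o : IsOpen O') (h1 : O' ⊆ N) (h2 : N ⊆ O) (hA : Gr N a A) (hs : St2 O (a s) F) (hF : Jt 3 F)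
    (a1 : ∀ z : ST, z.2 ∈ O' → (DS.d 1 α).1 z = A 1 z)
    (a2 : ∀ z : ST, z.2 ∈ O' → (DS.d 2 α).1 z = -A 0 z) :
    ∀ y ∈ O', (DS.d 1 α).1 (s, y) = F 1 0 y ∧ (DS.d 2 α).1 (s, y) = F 0 1 y := fun y hy => by
  have c : ∀ f : S3, ContinuousOn (fun y : P => f.1 (s, y)) O' := fun f =>
    (f.ct.comp (Continuous.prodMk_right s)).continuousOn
  constructor
  · refine eq_of_ae o (c _) (hF.ct (by omega)).continuousOn ?_ hy
    filter_upwards [hA.ae s 1, hs] with p b d e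
    rw [a1 (s, p) e, b (h1 e), (d (h2 (h1 e))).1]
  · refine eq_of_ae o (c _) (hF.ct (by omega)).continuousOn ?_ hy
    filter_upwards [hA.ae s 0, hs] with p b d e
    rw [a2 (s, p) e, b (h1 e), (d (h2 (h1 e))).2]

theorem dx {O : Set P} {f : S3} {g : P → ℝ} {s u v : ℝ} {y : P} (o : IsOpen O) (hy : y ∈ O)
    (h : ∀ p ∈ O, f.1 (s, p) = g p) (hg : HasFDerivAt g (lf u v) y) :
    (DS.d 1 f).1 (s, y) = u ∧ (DS.d 2 f).1 (s, y) = v := by
  constructor
  · have a := hg.comp_hasDerivAt y.1 ((hasDerivAt_id y.1).prodMk (hasDerivAt_const y.1 y.2))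
    refine ((hd_x1 f s y.1 y.2).unique (a.congr_of_eventuallyEq ?_)).trans (by simp)
    exact (((Continuous.prodMk_left y.2).tendsto y.1).eventually (o.mem_nhds hy)).mono
      fun r b => h _ b
  · have a := hg.comp_hasDerivAt y.2 ((hasDerivAt_const y.2 y.1).prodMk (hasDerivAt_id y.2))
    refine ((hd_x2 f s y.1 y.2).unique (a.congr_of_eventuallyEq ?_)).trans (by simp)
    exact (((Continuous.prodMk_right y.1).tendsto y.2).eventually (o.mem_nhds hy)).mono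
      fun r b => h _ b

theorem osc {n : ℝ} (n0 : 0 < n) {f : S3} {y : P} {c : ℂ}
    (h : ∀ s, f.1 (s, y) = (ex n s 0 * c).re) (t : ℝ) :
    (DS.d 0 (DS.d 0 f) + n • f).1 (t, y) = 0 := by
  have k : ∀ (f : S3) (j : ℕ), (∀ s, f.1 (s, y) = (ex n s j * c).re) →
      ∀ s, (DS.d 0 f).1 (s, y) = (ex n s (j + 1) * c).re := fun f j h s =>
    (hd_time f s y).unique ((funext h : (fun s => f.1 (s, y)) = _) ▸ ex_re_hd n s j c)
  have e : ex n t (0 + 1 + 1) * c = (-n : ℝ) * (ex n t 0 * c) := by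
    have : ((√n : ℝ) : ℂ) * (√n : ℝ) = n := by exact_mod_cast Real.mul_self_sqrt n0.le
    rw [ex_succ, ex_succ]
    push_cast
    linear_combination (√n * √n * ex n t 0 * c) * Complex.I_mul_I - ex n t 0 * c * this
  rw [val_add, val_smul, k _ _ (k _ _ h), h, e, Complex.re_ofReal_mul]
  ring

end XSmo

open XSmo in
theorem rowSmo : OfSmo := by
  intro hCz hCur hRep hCk n Ω Z O g R a w ps al pr hZ hL hO hz x hx ⟨t, ht⟩
  obtain ⟨N, hN, oN, xN⟩ := eventually_nhds_iff.1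
    ((ht 1 0 rfl).and ((ht 0 1 rfl).and (hz.oO.mem_nhds hx)))
  have NO : N ⊆ O := fun y b => (hN y b).2.2
  have sw : ∀ s, St2 O (w s) (ps s 0) := fun s => by simpa using hL.sw s 0
  have sa : ∀ s, St2 O (a s) (al s 0) := fun s => by simpa using hL.sa s 0
  have sb : St2 O (deriv a t) (al t 1) := by simpa using hL.sa t 1
  obtain ⟨G, hG⟩ := hCur Ω N g R t a w ![fun y => -al t 0 0 1 y, al t 0 1 0]
    ![fun y => -al t 1 0 1 y, al t 1 1 0] ![fun y => -ps t 0 0 1 y, ps t 0 1 0] oN (NO.trans hO)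
    hZ.pv (Fin.forall_fin_two.2 ⟨⟨fun y b => (hN y b).2.1.2.1.neg.contDiffWithinAt,
      fun y b => (hN y b).2.1.2.2.neg.contDiffWithinAt,
      fun y b => (hN y b).2.1.1.neg.contDiffWithinAt, by
        filter_upwards [sa t, sb, sw t] with y b c d e
        simp [(b (NO e)).2, (c (NO e)).2, (d (NO e)).2]⟩,
      ⟨fun y b => (hN y b).1.2.1.contDiffWithinAt, fun y b => (hN y b).1.2.2.contDiffWithinAt,
      fun y b => (hN y b).1.1.contDiffWithinAt, by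
        filter_upwards [sa t, sb, sw t] with y b c d e
        simp [(b (NO e)).1, (c (NO e)).1, (d (NO e)).1]⟩⟩)
  obtain ⟨A, W, hA, hW⟩ := hRep Ω N g G R a w oN (NO.trans hO) hZ.pv hG
  obtain ⟨O', α, ψ, xO, ON, hC⟩ := hCk Ω N g G R a w A W oN (NO.trans hO) hZ.pv hG hA hW x xN
  have j4 : ∀ s, Jt 4 (ps s 0) := fun s => (hz.tj s).jp 0
  have eψ := fun s => rep hC.oO ON NO hW (sw s) ((j4 s).mono (by omega)) hC.w1 hC.w2
  have eα := fun s => rep hC.oO ON NO hA (sa s) (hz.tj s).j0 hC.a1 hC.a2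
  have OO : O' ⊆ O := ON.trans NO
  refine ⟨O', α, ψ, xO, OO, ⟨hz.n0, hC.oO, hz.oZ, hC.eW, hC.eA, fun j hj z b c => ?_,
    fun j hj z b c => ?_, fun e e0 z b c h => ?_, fun z b c h => ?_⟩, eψ⟩
  · fin_cases j
    · exact absurd rfl hj
    · exact (eα z.1 z.2 b).1.trans (hz.za _ 0 1 0 rfl _ ⟨OO b, c⟩)
    · exact (eα z.1 z.2 b).2.trans (hz.za _ 0 0 1 rfl _ ⟨OO b, c⟩)
  · have k := fun s u v (e : u + v = 1) =>
      hCz n O Z ps al pr hz.l0 s 0 u v (Or.inl e) z.2 ⟨OO b, subset_closure c⟩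
    fin_cases j
    · exact absurd rfl hj
    · exact osc hz.n0 (fun s => (eψ s z.2 b).1.trans (k s 1 0 rfl)) z.1
    · exact osc hz.n0 (fun s => (eψ s z.2 b).2.trans (k s 0 1 rfl)) z.1
  · refine hz.wall e e0 z.2 ⟨OO b, c⟩ ?_
    have h1 : ∀ᶠ q : P × ℝ in 𝓝 (z.2, z.1), (DS.BB ψ e e).1 q.swap = 0 :=
      (continuous_swap.tendsto (z.2, z.1)).eventually h
    filter_upwards [h1.curry_nhds, hC.oO.mem_nhds b, hz.oZ.mem_nhds c] with y h2 h3 h4 s
    have k := fun s => hs_eq hCz hz.l0 (p := y) ⟨OO h3, subset_closure h4⟩ s e e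
    rw [k, ex_zero hz.n0 (t := z.1) (w := R1.hz n ps e e y) (h2.mono fun r h5 => ?_), mul_zero,
      Complex.zero_re]
    have d1 := dx hC.oO h3 (fun p b => (eψ r p b).1) ((j4 r).d 1 0 le_rfl y)
    have d2 := dx hC.oO h3 (fun p b => (eψ r p b).2) ((j4 r).d 0 1 le_rfl y)
    rw [← k, ← h5]
    simp only [hs, S64.DR.BB, val_add, val_smul, Prod.swap_prod_mk, d1.1, d2.1, d2.2]
  · have h1 : ∀ᶠ q : ST in 𝓝 (z.1, z.2), (DS.d 1 α).1 q = 0 ∧ (DS.d 2 α).1 q = 0 := h.1.and h.2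
    obtain ⟨I, hI, oI, tI⟩ := eventually_nhds_iff.1 h1.curry_nhds
    refine hz.max z.2 ⟨OO b, c⟩ I oI ⟨_, tI⟩ fun s hs => ?_
    filter_upwards [hI s hs, hC.oO.mem_nhds b] with y h2 h3
    exact ⟨(eα s y h3).1.symm.trans h2.1, (eα s y h3).2.symm.trans h2.2⟩

end Pool.Agent.MP_ed9623_an.R1
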