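import Pool.Agent.MP_ed9623_an.R1.Rots
import Pool.Agent.MP_ed9623_an.S64.GStep

/-! The end of a straight piece. -/

open Filter Topology Set
open scoped ContDiff ComplexConjugate

namespace Pool.Agent.MP_ed9623_an.R1

open H64 (pd SA)
open H77 (P ee)
open R77
open S64 (Low Crv cst)

namespace XStep

theorem alg {a b : ℝ} {u h Q E : ℂ} (hb : b ≠ 0) (g1 : (a * b + b * a) * Q + b * b * E = 0)
    (g2 : ((a * u + b * h) * conj ((a * (-a : ℝ) + b * b) * Q + b * (-a : ℝ) * E)).re = 0)
    (ru : (u * conj Q).re = 0) : (E * conj Q).im = 0 ∧ (h * conj Q).re = 0 := by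
  have r := congrArg Complex.re g1
  have i := congrArg Complex.im g1
  simp only [Complex.add_re, Complex.add_im, Complex.mul_re, Complex.mul_im, Complex.ofReal_re,
    Complex.ofReal_im, Complex.conj_re, Complex.conj_im, Complex.zero_re, Complex.zero_im] at *
  have p : 0 < a ^ 2 + b ^ 2 := by positivity
  refine ⟨mul_left_cancel₀ (mul_ne_zero hb hb) ?_,
    mul_left_cancel₀ (mul_ne_zero (mul_ne_zero hb hb) p.ne') ?_⟩
  · linear_combination Q.re * i - Q.im * r
  · linear_combination b * g2 + a * (a * u.re + b * h.re) * r + a * (a * u.im + b * h.im) * i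
      - a * b * (a ^ 2 + b ^ 2) * ru

/-- The second null direction. -/
theorem fac {F : J2} {x V T : P} (hT : hs F T T x = 0) (hV : hs F V V x = 0)
    (hB : V.2 * T.1 - V.1 * T.2 ≠ 0) :
    V.1 * (2 * T.1 * F 1 1 x + T.2 * F 0 2 x) + V.2 * (T.1 * F 0 2 x) = 0 := by
  refine mul_left_cancel₀ hB ?_
  simp only [hs] at hT hV
  linear_combination T.1 ^ 2 * hV - V.1 ^ 2 * hT

end XStep

open XStep S64.GStep in
theorem rowStep : OfStep := by
  intro hz' hT hE hP h1 hS n O Z ps al pr q l h hq hl sr q0 alt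
  have j := h.j4
  have hle : l ≤ 𝓝 q.1 := by rcases hl with rfl | rfl <;> exact nhdsWithin_le_nhds
  have : l.NeBot := by rcases hl with rfl | rfl <;> infer_instance
  have L := ((Continuous.prodMk_left q.2).tendsto q.1).mono_left hle
  have hqZ : q ∉ Z := fun a => by
    obtain ⟨b, c, d⟩ := (sr.and (L.eventually (h.oZ.mem_nhds a))).exists
    exact c.crv.nm d
  have cl : q ∈ O ∩ closure Z := ⟨hq, isClosed_closure.mem_of_tendsto L (sr.mono fun _ a => a.crv.1.cl)⟩
  have k20 : cz n ps 2 0 q = 0 := tendsto_nhds_unique (((cz_ct j le_rfl).tendsto _).comp L)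
    (tendsto_const_nhds.congr' (sr.mono fun _ a => a.nul.self_of_nhds.symm))
  have ru : (cz n ps 1 0 q * conj (cz n ps 1 1 q)).re = 0 :=
    lim_zero (g := fun a => (cz n ps 1 0 (a, q.2) * conj (cz n ps 1 1 (a, q.2))).re) hle
      (Complex.continuous_re.comp ((cz_line j (by omega) _).mul (Complex.continuous_conj.comp
        (cz_line j le_rfl _)))) (sr.mono fun _ a => a.rr.self_of_nhds)
  obtain ⟨t, ht⟩ := ex_exists h.n0 q0
  rw [← hz' n O Z ps al pr h.l0 t 0 1 1 (Or.inr rfl) q cl] at ht
  have m20 : ps t 0 2 0 q = 0 := by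
    rw [hz' n O Z ps al pr h.l0 t 0 2 0 (Or.inr rfl) q cl, k20]; simp
  have hd : dt (ps t 0) q ≠ 0 := by simpa [dt, m20] using ht
  obtain ⟨η, c1, e0, e1, nul⟩ := hE O (ps t) (al t) (pr t) q h.oO hq (h.tj t) m20 ht
  have c0 := fun e => (H64.contDiff_pd (n := 0) e c1).continuous
  let A : P → ℝ := fun x => -(pd (ee 1) η x * ps t 0 0 2 x)
  let B : P → ℝ := fun x => 2 * pd (ee 1) η x * ps t 0 1 1 x + -pd (ee 0) η x * ps t 0 0 2 x
  have cA : Continuous A := ((c0 _).mul ((j t).ct le_rfl)).neg
  have cB : Continuous B := ((continuous_const.mul (c0 _)).mul ((j t).ct le_rfl)).add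
    ((c0 _).neg.mul ((j t).ct le_rfl))
  have B0 : B q ≠ 0 := by simpa [B, e0, e1.ne'] using ht
  have eB := cB.continuousAt.eventually_ne B0
  have c2 := fun a b (e : a + b ≤ 2) => cz_ct (n := n) j e
  have ch : ∀ {u v : P → ℝ}, Continuous u → Continuous v →
      Continuous fun x => hz n ps (A x, B x) (u x, v x) x := fun a b => by
    have := c2 2 0 le_rfl
    have := c2 1 1 le_rfl
    have := c2 0 2 le_rfl
    unfold hz
    fun_prop
  have ex' : ∀ᶠ x in 𝓝 q, hz n ps (A x, B x) (A x, B x) x ≠ 0 ∨ ((A x * cz n ps 1 0 x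
      + B x * cz n ps 0 1 x) * conj (hz n ps (A x, B x) (B x, -A x) x)).re ≠ 0 := by
    by_cases g1 : hz n ps (A q, B q) (A q, B q) q = 0
    · refine ((Complex.continuous_re.comp ((((Complex.continuous_ofReal.comp cA).mul
        (c2 1 0 (by omega))).add ((Complex.continuous_ofReal.comp cB).mul (c2 0 1 (by omega)))).mul
          (Complex.continuous_conj.comp (ch cB cA.neg)))).continuousAt.eventually_ne
            fun g2 => ?_).mono fun _ a => Or.inr a
      simp only [hz, k20, mul_zero, zero_add] at g1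
      simp only [hz, k20, mul_zero, zero_add, Function.comp, Pi.mul_apply, Pi.add_apply,
        Pi.neg_apply] at g2
      have := alg B0 g1 g2 ru
      exact alt.elim (· this.1) (· this.2)
    · exact ((ch cA cB).continuousAt.eventually_ne g1).mono fun _ a => Or.inl a
  have sw := hS Z η q h.oZ c1 e1 (by
    filter_upwards [h.oO.mem_nhds hq, (dt_ct (j t)).continuousAt.eventually_ne hd, nul, eB, ex']
      with x a b c d e Φ hΦ
    by_contra z
    have k1 := hT n O Z ps al pr x Φ t h.toLz a hΦ b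
    have k2 := hP n O Z ps al pr x Φ t h a hΦ b
    have k3 := fac c (V := (-pd (ee 1) Φ x, pd (ee 0) Φ x))
      (by rw [hs_eq hz' h.l0 ⟨a, hΦ.cl⟩, k1]; simp)
      fun w => z (by linear_combination -w)
    obtain ⟨s, s1, s2⟩ : ∃ s : ℝ, pd (ee 0) Φ x = s * B x ∧ pd (ee 1) Φ x = -(s * A x) :=
      ⟨pd (ee 0) Φ x / B x, by field_simp, by
        field_simp
        simp only [A, B] at k3 ⊢
        linear_combination -k3⟩
    have s0 : s ≠ 0 := fun w => by simpa [s1, s2, w] using hΦ.ne
    rw [s1, s2] at k1 k2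
    rcases e with e | e
    · refine e (mul_left_cancel₀ (pow_ne_zero 2 (Complex.ofReal_ne_zero.2 s0)) ?_)
      rw [mul_zero, ← k1]
      simp only [hz]
      push_cast
      ring
    · refine e (mul_left_cancel₀ (pow_ne_zero 3 s0) ?_)
      rw [mul_zero, ← k2, ← Complex.re_ofReal_mul]
      simp only [hz, map_add, map_mul, Complex.conj_ofReal]
      congr 1
      push_cast
      ring) (by
    refine Frequently.filter_mono (Eventually.frequently (f := l) ?_) hle
    have z : ∀ᶠ a in l, pd (ee 0) η (a, q.2) = 0 := by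
      filter_upwards [sr, L.eventually (h.oO.mem_nhds hq), L.eventually nul, L.eventually eB]
        with a u v w x
      by_contra y
      have k : hs (ps t 0) (1, 0) (1, 0) (a, q.2) = 0 := by
        rw [hs_eq hz' h.l0 ⟨v, u.crv.1.cl⟩]
        simp [hz, u.nul.self_of_nhds]
      exact x (by simpa [B] using fac w k (by simpa using y))
    filter_upwards [sr, side_const hl (g := fun s => η (s, q.2)) (fun s =>
      (c1.differentiable (by simp) _).hasFDerivAt.comp_hasDerivAt s
        ((hasDerivAt_id s).prodMk (hasDerivAt_const s q.2))) z] with a b d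
    exact ⟨d, eventually_nhdsWithin_iff.2 ((((Continuous.prodMk_right a).tendsto q.2).eventually
      b.crv.1.2).mono fun y e f => e f)⟩)
  have n1 : pd (ee 1) (fun y => -η y) q < 0 := by rw [H64.pd_neg]; exact neg_neg_of_pos e1
  exact h1 n O Z ps al pr q (fun y => -η y) t h hq ⟨hqZ, c1.neg, Or.inr n1.ne,
    sw.mono fun y a b => a (neg_lt_neg_iff.1 b)⟩ (by rw [H64.pd_neg, e0, neg_zero]) n1 hd

end Pool.Agent.MP_ed9623_an.R1
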