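import Pool.Agent.MP_ed9623_an.R1.Rots

/-! Sweeping along the level curves of a `C¹` function. -/

open Filter Topology Set
open scoped ContDiff

namespace Pool.Agent.MP_ed9623_an.R1

open H64 (pd)
open H77 (P ee)
open R77

namespace XSw2

/-- The sweeping function. -/
def F (Ψ : P → ℝ) (u v a b : ℝ) (x : P) : ℝ :=
  (u - Ψ x) * (Ψ x - v) * ((x.1 - (a - b)) * (a + b - x.1))

variable {Ψ : P → ℝ}

theorem F_c1 (h : ContDiff ℝ (1 : ℕ) Ψ) (u v a b : ℝ) : ContDiff ℝ (1 : ℕ) (F Ψ u v a b) := by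
  unfold F
  fun_prop

theorem F_br (h : ContDiff ℝ (1 : ℕ) Ψ) (u v a b : ℝ) (x : P) :
    pd (ee 0) Ψ x * pd (ee 1) (F Ψ u v a b) x - pd (ee 1) Ψ x * pd (ee 0) (F Ψ u v a b) x
      = 2 * pd (ee 1) Ψ x * (x.1 - a) * ((u - Ψ x) * (Ψ x - v)) := by
  have d := hasF_pd (h.differentiable (by simp) x)
  have e := hasFDerivAt_fst (𝕜 := ℝ) (p := x)
  have k := (((d.const_sub u).mul (d.sub_const v)).mul
    ((e.sub_const (a - b)).mul (e.const_sub (a + b)))).fderiv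
  have k' : ∀ w, pd w (F Ψ u v a b) x = _ := fun w => congrArg (fun L : P →L[ℝ] ℝ => L w) k
  rw [k', k']
  simp [ee]
  ring

theorem slope (hΨ : ContDiff ℝ (1 : ℕ) Ψ) {c s l u : ℝ}
    (h : ∀ y ∈ Icc l u, c ≤ pd (ee 1) Ψ (s, y)) :
    ∀ y ∈ Icc l u, ∀ y' ∈ Icc l u, y ≤ y' → c * (y' - y) ≤ Ψ (s, y') - Ψ (s, y) := by
  have e : ∀ y, HasDerivAt (fun y => Ψ (s, y)) (pd (ee 1) Ψ (s, y)) y := fun y =>
    (hΨ.differentiable (by simp) _).hasFDerivAt.comp_hasDerivAt y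
      ((hasDerivAt_const y s).prodMk (hasDerivAt_id y))
  exact (convex_Icc l u).mul_sub_le_image_sub_of_le_deriv
    (fun y _ => (e y).continuousAt.continuousWithinAt)
    (fun y _ => (e y).differentiableAt.differentiableWithinAt)
    fun y a => (e y).deriv ▸ h y (interior_subset a)

end XSw2

open XSw2 in
theorem rowSw2 : OfSw2 := by
  intro Z Ψ q hZ hΨ h2 hT hA
  have ct := hΨ.continuous
  obtain ⟨c, c0, hc⟩ := exists_between h2
  obtain ⟨r, r0, hr⟩ := Metric.nhds_basis_closedBall.eventually_iff.1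
    (hT.and (continuousAt_const.eventually_lt (H64.contDiff_pd (n := 0) _ hΨ).continuous.continuousAt hc))
  have bx : ∀ x : P, |x.1 - q.1| ≤ r → x.2 ∈ Icc (q.2 - r) (q.2 + r) → x ∈ Metric.closedBall q r :=
    fun x a b => max_le a (abs_le.2 ⟨by linarith [b.1], by linarith [b.2]⟩)
  have sl := fun s (a : |s - q.1| ≤ r) => slope hΨ (c := c) fun y b => (hr (bx (s, y) a b)).2.le
  have q2 : q.2 ∈ Icc (q.2 - r) (q.2 + r) := ⟨by linarith, by linarith⟩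
  have cr := mul_pos c0 r0
  obtain ⟨b3, b0, hb⟩ := Metric.nhds_basis_closedBall.eventually_iff.1
    (((ct.comp (Continuous.prodMk_left q.2)).tendsto q.1).eventually
      (Metric.closedBall_mem_nhds (Ψ q) (by positivity : 0 < c * r / 4)))
  obtain ⟨b, b0, b1, b2⟩ : ∃ b : ℝ, 0 < b ∧ 3 * b ≤ r ∧ 3 * b ≤ b3 :=
    ⟨min r b3 / 3, by positivity, by linarith [min_le_left r b3], by linarith [min_le_right r b3]⟩
  obtain ⟨a, ⟨a1, a2⟩, a3⟩ := (hA.and_eventually (Metric.ball_mem_nhds q.1 b0)).exists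
  obtain ⟨l, l0, hl⟩ := mem_nhdsLT_iff_exists_Ioo_subset.1 a2
  obtain ⟨ρ, ρ0, ρ1, ρ2⟩ : ∃ ρ : ℝ, 0 < ρ ∧ ρ ≤ r / 2 ∧ ρ ≤ q.2 - l :=
    ⟨min (r / 2) (q.2 - l), lt_min (by positivity) (sub_pos.2 l0), min_le_left _ _, min_le_right _ _⟩
  have cρ := mul_pos c0 ρ0
  have cρ' := mul_le_mul_of_nonneg_left ρ1 c0.le
  have a4 := abs_lt.1 (show |a - q.1| < b from a3)
  filter_upwards [Metric.ball_mem_nhds q b0, continuousAt_const.eventually_lt ct.continuousAt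
    (show Ψ q - c * ρ < Ψ q by linarith)] with x x1 x2 x3
  by_contra xZ
  have x4 := abs_lt.1 (show |x.1 - q.1| < b from (max_lt_iff.1 x1).1)
  have x5 := abs_lt.1 (show |x.2 - q.2| < b from (max_lt_iff.1 x1).2)
  let K : Set P := (Icc (a - 2 * b) (a + 2 * b) ×ˢ Icc (q.2 - r) (q.2 + r))
    ∩ Ψ ⁻¹' Icc (Ψ q - c * ρ) (Ψ q)
  have hK : IsCompact (K \ Z) :=
    ((isCompact_Icc.prod isCompact_Icc).inter_right (isClosed_Icc.preimage ct)).diff hZ
  have xK : x ∈ K \ Z := ⟨⟨⟨⟨by linarith, by linarith⟩, ⟨by linarith, by linarith⟩⟩, x2.le, x3.le⟩, xZ⟩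
  obtain ⟨m, ⟨⟨⟨m1, m2⟩, m3⟩, mZ⟩, hm⟩ :=
    hK.exists_isMaxOn ⟨x, xK⟩ (F_c1 hΨ (Ψ q) (Ψ q - c * ρ) a (2 * b)).continuous.continuousOn
  have p : 0 < F Ψ (Ψ q) (Ψ q - c * ρ) a (2 * b) m := lt_of_lt_of_le (by
    rw [F]
    exact mul_pos (mul_pos (by linarith) (by linarith)) (mul_pos (by linarith) (by linarith)))
    (hm xK)
  rw [F] at p
  obtain ⟨p1, p2⟩ := mul_ne_zero_iff.1 p.ne'
  have u1 := lt_of_le_of_ne m3.2 (sub_ne_zero.1 (left_ne_zero_of_mul p1)).symm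
  have u2 := lt_of_le_of_ne m3.1 (sub_ne_zero.1 (right_ne_zero_of_mul p1)).symm
  have u3 := lt_of_le_of_ne m1.1 (sub_ne_zero.1 (left_ne_zero_of_mul p2)).symm
  have u4 := lt_of_le_of_ne m1.2 (sub_ne_zero.1 (right_ne_zero_of_mul p2)).symm
  have v0 : |m.1 - q.1| ≤ 3 * b := abs_le.2 ⟨by linarith, by linarith⟩
  have v1 := abs_le.1 (show |Ψ (m.1, q.2) - Ψ q| ≤ c * r / 4 from hb (v0.trans b2))
  have s1 := sl m.1 (v0.trans b1) _ m2 _ q2
  have s2 := sl m.1 (v0.trans b1) _ q2 _ m2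
  have em : Ψ (m.1, m.2) = Ψ m := rfl
  have u5 : q.2 - r < m.2 := lt_of_le_of_ne m2.1 fun e => by
    have := s1 (by linarith)
    rw [em, ← e] at this
    linarith
  have u6 : m.2 < q.2 + r := lt_of_le_of_ne m2.2 fun e => by
    have := s2 (by linarith)
    rw [em, e] at this
    linarith
  have ma : m.1 - a ≠ 0 := fun e => by
    rw [sub_eq_zero] at e
    rw [e, a1] at s1 s2
    rw [e] at em
    have t1 : m.2 < q.2 := not_le.1 fun t => by
      have := s2 t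
      have := mul_nonneg c0.le (sub_nonneg.2 t)
      linarith
    have t2 : q.2 - m.2 < ρ := lt_of_mul_lt_mul_left (by have := s1 t1.le; linarith) c0.le
    exact mZ (by rw [show m = (a, m.2) from Prod.ext e rfl]; exact hl ⟨by linarith, t1⟩)
  obtain ⟨g1, g2⟩ := hr (bx m (v0.trans b1) m2)
  have ne := mul_ne_zero (mul_ne_zero (mul_ne_zero two_ne_zero (c0.trans g2).ne') ma) p1
  rw [← F_br hΨ _ _ _ (2 * b)] at ne
  refine ne (g1 _ ⟨mZ, F_c1 hΨ _ _ _ _, ?_, ?_⟩)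
  · by_contra t
    rw [not_or, not_not, not_not] at t
    exact ne (by rw [t.1, t.2]; ring)
  · have : K ∈ 𝓝 m := inter_mem (prod_mem_nhds (Icc_mem_nhds u3 u4) (Icc_mem_nhds u5 u6))
      (ct.continuousAt.preimage_mem_nhds (Icc_mem_nhds u2 u1))
    filter_upwards [this] with y y1 y2
    by_contra t
    exact y2.not_ge (hm ⟨y1, t⟩)

end Pool.Agent.MP_ed9623_an.R1
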