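import Pool.Agent.MP_ed9623_an.R1.Base

/-! A nondegenerate touching point with horizontal tangent. -/

open Filter Topology Set
open scoped ContDiff ComplexConjugate

namespace Pool.Agent.MP_ed9623_an.R1

open H64 (pd SA)
open H77 (P ee)
open R77
open S64 (Low Crv cst)

theorem const_of {f : ℝ → ℝ} {a : ℝ} (hf : Differentiable ℝ f) (h : ∀ᶠ s in 𝓝 a, deriv f s = 0) :
    ∀ᶠ s in 𝓝 a, f s = f a := by
  obtain ⟨r, hr, h⟩ := Metric.eventually_nhds_iff_ball.1 h
  filter_upwards [Metric.ball_mem_nhds a hr] with s hs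
  exact Metric.isOpen_ball.is_const_of_deriv_eq_zero (convex_ball a r).isPreconnected
    hf.differentiableOn h hs (Metric.mem_ball_self hr)

theorem rowTP0 : OfTP0 := by
  intro hz' hT hA hE hH hW n O Z ps al pr Φ t h hp ht a b hd
  have j := h.j4
  have k20 : cz n ps 2 0 0 = 0 := by
    simpa [hz, a, b.ne] using hT n O Z ps al pr 0 Φ t h.toLz hp ht hd
  have cl : (0 : P) ∈ O ∩ closure Z := ⟨hp, ht.cl⟩
  have m11 : ps t 0 1 1 0 ≠ 0 := fun z => hd (by
    rw [dt, z, hz' n O Z ps al pr h.l0 t 0 2 0 (Or.inr rfl) 0 cl, k20]; simp)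
  have k11 : cz n ps 1 1 0 ≠ 0 := fun z => m11 (by
    rw [hz' n O Z ps al pr h.l0 t 0 1 1 (Or.inr rfl) 0 cl, z]; simp)
  obtain ⟨γ, g0, cr, alt⟩ := hA n O Z ps al pr Φ h hp ht a b k20 k11
  have T := S64.tend_curve γ cr.1.1
  have d1 : Differentiable ℝ γ.1 := fun s => (S64.hd_one γ s).differentiableAt
  have d2 : Differentiable ℝ (deriv γ.1) := fun s => (S64.hd_one (H64.D 1 γ) s).differentiableAt
  have c2 : Continuous (deriv (deriv γ.1)) := (H64.D 1 (H64.D 1 γ)).ct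
  have c : Continuous fun y : P => ps t 0 1 1 y + deriv γ.1 y.1 * ps t 0 0 2 y :=
    ((j t).ct (by omega)).add ((d2.continuous.comp continuous_fst).mul ((j t).ct (by omega)))
  have e2 : ∀ᶠ s in 𝓝 (0 : ℝ), deriv (deriv γ.1) s = 0 := by
    filter_upwards [alt, (T.eventually (cr.ev.and ((c.continuousAt.eventually_ne
      (by simpa [g0] using m11)).and (h.oO.mem_nhds hp)))).eventually_nhds] with s u v
    by_contra z
    obtain ⟨r, r1, r2, r3⟩ :=
      ((u.1 z).and_eventually (v.and (c2.continuousAt.eventually_ne z))).exists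
    exact r3 (hE n O Z ps al pr _ γ t h r2.2.2 r1 (r2.1 rfl) r2.2.1)
  have e0 : ∀ᶠ s in 𝓝 (0 : ℝ), γ.1 s = 0 :=
    (const_of d1 ((const_of d2 e2).mono fun _ a => a.trans g0)).mono fun _ a => a.trans cr.1.1.symm
  have cr' : Crv Z 0 (cst 0) := cr.congr e0
  have L := (Continuous.prodMk_left (0 : ℝ)).tendsto (0 : ℝ)
  have ev : ∀ᶠ s in 𝓝 (0 : ℝ), Crv Z (s, 0) (cst 0) ∧ (s, 0) ∈ O ∧ cz n ps 1 1 (s, 0) ≠ 0 ∧
      cz n ps 2 0 (s, 0) = 0 := by
    filter_upwards [L.eventually cr'.ev, L.eventually (h.oO.mem_nhds hp),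
      L.eventually ((cz_ct j le_rfl).continuousAt.eventually_ne k11),
      L.eventually ((dt_ct (j t)).continuousAt.eventually_ne hd)] with s u v w x
    obtain ⟨t1, t2, t3⟩ := tc_of_crv (u rfl)
    exact ⟨u rfl, v, w, by simpa [hz, t2, t3] using hT n O Z ps al pr _ _ t h.toLz v t1 x⟩
  have fin : ∀ᶠ s in 𝓝 (0 : ℝ), ∃ᶠ r in 𝓝 s,
      (cz n ps 1 0 (r, 0) * conj (cz n ps 1 1 (r, 0))).re = 0 ∧
        Ty (fun r => cz n ps 0 1 (r, 0)) (fun r => cz n ps 0 2 (r, 0)) r := by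
    filter_upwards [alt, e0.eventually_nhds, ev.eventually_nhds.eventually_nhds] with s u v w
    refine ((u.2 v).and_eventually w).mono fun r ⟨x, y⟩ => ?_
    have y0 := y.self_of_nhds
    refine ((x.elim (fun z => hH n O Z ps al pr (r, 0) h y0.2.1 z y0.1 y0.2.2.1) id).resolve_left
      (hW n O Z ps al pr (r, 0) h.toLz y0.2.1 y0.1.1 (y.mono fun _ z => z.2.2.2))).imp_left
        fun z => z.self_of_nhds
  refine ⟨⟨cr', ev.mono fun _ a => a.2.2.2, k11, fin.mono fun s u => ?_⟩,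
    fin.self_of_nhds.mono fun _ a => a.2⟩
  by_contra z
  obtain ⟨r, r1, r2⟩ := (u.and_eventually ((Complex.continuous_re.comp ((cz_line j (by omega) 0).mul
    (Complex.continuous_conj.comp (cz_line j le_rfl 0)))).continuousAt.eventually_ne z)).exists
  exact r2 r1.1

end Pool.Agent.MP_ed9623_an.R1
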