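import Pool.Agent.MP_ed9623_an.R1.Base

/-! At a nondegenerate touching point the tangent is a null direction at all times. -/

open MeasureTheory Filter Topology Set
open scoped ContDiff ComplexConjugate

namespace Pool.Agent.MP_ed9623_an.R1

open H64 (pd)
open H77 (P ee)
open R77

namespace XTouch

theorem pd_lf {f : P → ℝ} {u v : ℝ} {p : P} (h : HasFDerivAt f (lf u v) p) (e : P) :
    pd e f p = u * e.1 + v * e.2 := by simp [pd, h.fderiv]

theorem hasF {f : P → ℝ} {p : P} (h : DifferentiableAt ℝ f p) :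
    HasFDerivAt f (lf (pd (ee 0) f p) (pd (ee 1) f p)) p :=
  h.hasFDerivAt.congr_fderiv (by ext <;> simp [pd, ee])

theorem lf_zero {u v : ℝ} (h : lf u v = 0) : u = 0 ∧ v = 0 := by
  have a := congrArg (fun L : P →L[ℝ] ℝ => L (1, 0)) h
  have b := congrArg (fun L : P →L[ℝ] ℝ => L (0, 1)) h
  simpa using And.intro a b

/-- The step at one time. -/
theorem one (hj : JetS) (hv : U81.VtS) {O Z : Set P} {ps al pr : ℕ → J2} {p : P} {Φ : P → ℝ}
    (oO : IsOpen O) (hp : p ∈ O) (tj : Tj O ps al pr) (hc : Tc Z p Φ)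
    (za : ∀ y ∈ O ∩ Z, al 0 1 0 y = 0 ∧ al 0 0 1 y = 0) (hd : dt (ps 0) p ≠ 0)
    (hh : hs (ps 0) (-pd (ee 1) Φ p, pd (ee 0) Φ p) (-pd (ee 1) Φ p, pd (ee 0) Φ p) p ≠ 0) :
    G0 (al 0) p := by
  obtain ⟨U, G, f, pU, UO, J⟩ := hj O ps al pr p oO hp tj
  obtain ⟨V, hV, oV, pV⟩ := eventually_nhds_iff.1 hc.up
  have dΦ := hasF (p := p) (hc.c1.differentiable (by simp) p)
  generalize pd (ee 0) Φ p = A at dΦ hh
  generalize pd (ee 1) Φ p = B at dΦ hh
  have m0 : 0 < A ^ 2 + B ^ 2 := by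
    by_contra k
    have a : A = 0 := by nlinarith [sq_nonneg A, sq_nonneg B]
    have b : B = 0 := by nlinarith [sq_nonneg A, sq_nonneg B]
    exact hh (by simp [hs, a, b])
  obtain ⟨c, c0, hcc⟩ : ∃ c : ℝ, 0 < c ∧ c ^ 2 * (A ^ 2 + B ^ 2) = 1 :=
    ⟨(√(A ^ 2 + B ^ 2))⁻¹, inv_pos.2 (Real.sqrt_pos.2 m0), by
      rw [inv_pow, Real.sq_sqrt m0.le, inv_mul_cancel₀ m0.ne']⟩
  have d10 := (tj.jp 0).d 1 0 le_rfl p
  have d01 := (tj.jp 0).d 0 1 le_rfl p
  have dρ : HasFDerivAt (fun y => Φ p - Φ y) (lf (-A) (-B)) p :=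
    (dΦ.const_sub (Φ p)).congr_fderiv (by ext <;> simp)
  have nn : U81.hs ![ps 0 1 0, ps 0 0 1] (U81.nv (c * A, c * B)) (U81.nv (c * A, c * B)) p
      = c ^ 2 * hs (ps 0) (-B, A) (-B, A) p := by
    simp only [U81.hs, U81.nv, Matrix.cons_val_zero, Matrix.cons_val_one, pd_lf d10, pd_lf d01, hs]
    ring
  have n0 := nn ▸ mul_ne_zero (pow_ne_zero 2 c0.ne') hh
  have r0 : pd (U81.nv (c * A, c * B)) (fun y => Φ p - Φ y) p = 0 := by
    rw [pd_lf dρ]; simp only [U81.nv]; ring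
  have da := fun y => (tj.j0.d 0 0 le_rfl y).fderiv
  have := hv (U ∩ V) p (c * A, c * B) _ (al 0 0 0) G f (fun y => Φ p - Φ y)
    ⟨J.op.inter oV, J.cp, J.ca, J.cg, J.cf, fun y a => J.sy y a.1, fun y a => J.fe y a.1,
      fun y a => J.eq y a.1⟩ ⟨pU, pV⟩ (by linear_combination hcc) n0
    (contDiff_const.sub hc.c1) (sub_self _) (by
      rw [U81.XJ, r0, mul_zero, sub_zero, pd_lf dρ]
      refine mul_ne_zero n0 ?_
      have : 0 < c * (A ^ 2 + B ^ 2) := mul_pos c0 m0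
      intro k
      simp only at k
      linarith)
    (fun y a b => by
      obtain ⟨u, v⟩ := za y ⟨UO a.1, hV y a.2 (sub_neg.1 b)⟩
      rw [da]
      ext <;> simp [u, v])
    (Or.inr (Or.inl ⟨by
      rw [J.fe p pU]
      simp only [U81.Jc, Matrix.cons_val_zero, Matrix.cons_val_one, pd0_of d10, pd1_of d10,
        pd0_of d01, pd1_of d01]
      rwa [dt, sq] at hd, r0⟩))
  filter_upwards [this] with y a
  rw [da] at a
  exact lf_zero a

end XTouch

theorem rowTouch : OfTouch := by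
  intro hz' hj hv n O Z ps al pr p Φ t h hp hc hd
  by_contra hne
  have cl : p ∈ O ∩ closure Z := ⟨hp, hc.cl⟩
  have e1 := fun s => hs_eq hz' h.l0 cl s (-pd (ee 1) Φ p, pd (ee 0) Φ p)
    (-pd (ee 1) Φ p, pd (ee 0) Φ p)
  have c1 : Continuous fun s => hs (ps s 0) (-pd (ee 1) Φ p, pd (ee 0) Φ p)
      (-pd (ee 1) Φ p, pd (ee 0) Φ p) p := by
    rw [funext e1]; exact ex_re_ct _ _ _
  have c2 : Continuous fun s => dt (ps s 0) p := by
    have k := fun a b (e : a + b = 2) => funext fun s =>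
      hz' n O Z ps al pr h.l0 s 0 a b (Or.inr e) p cl
    have c := fun a b (e : a + b = 2) =>
      (k a b e ▸ ex_re_ct n 0 (cz n ps a b p) : Continuous fun s => ps s 0 a b p)
    exact ((c 2 0 rfl).mul (c 0 2 rfl)).sub ((c 1 1 rfl).pow 2)
  obtain ⟨s, a, b⟩ := ((ex_freq h.n0 hne t).and_eventually (c2.continuousAt.eventually_ne hd)).exists
  refine hc.nm (h.max p cl _ ((isOpen_ne_fun c1 continuous_const).inter
    (isOpen_ne_fun c2 continuous_const)) ⟨s, (e1 s).symm ▸ a, b⟩ fun r hr => ?_)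
  exact XTouch.one hj hv h.oO hp (h.tj r) hc
    (fun y c => ⟨h.za r 0 1 0 rfl y c, h.za r 0 0 1 rfl y c⟩) hr.2 hr.1

end Pool.Agent.MP_ed9623_an.R1
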