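import Pool.Agent.MP_ed9623_an.R1.Spec
import Pool.Agent.MP_ed9623_an.H64.NA4

/-! The resultant near a convex point of the boundary. -/

open MeasureTheory Filter Topology Set


namespace Pool.Agent.MP_ed9623_an.R1

open H64
open H77 (P Zn vo)

namespace XWRes

variable {R : Type*} [CommRing R]

theorem frame2 {N T : R →+ R} (hN : Lb N) (hT : Lb T) {ρ G L : R} {ev : R →+* ℝ}
    (H : Loc ρ ev) (hG : ev G ≠ 0) (hNρ : N ρ = G) (hTρ : T ρ = 0) (p q ω : ℕ → R)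
    (C : ∀ j, G * q j + ρ * (N (q j) + L * q j) - ρ * ρ * T (p j) = ω j)
    (D : ∀ j, 2 * G * p j + ρ * (N (p j) + L * p j) + T (q j) = 0)
    (hNω : ∀ j, N (ω j) = G * ρ * q (j + 1)) (hTω : ∀ j, T (ω j) = -(G * ρ * ρ * p (j + 1)))
    (hW : p 0 * q 2 - q 0 * p 2 = 0) :
    ∃ r s, ω 0 * q 1 - ω 1 * q 0 = ρ * (ρ * r) ∧ ω 0 * p 1 - ω 1 * p 0 = ρ * (ρ * s) ∧
      3 * ev G ^ 2 * ev r = ev (ω 1) ^ 2 - ev (ω 0) * ev (ω 2) := by
  have π0 := Loc.mk0 ρ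
  set π := Ideal.Quotient.mk (Ideal.span {ρ}) with hπ
  have evρ := H.evρ
  have hN' : ∀ f g, N (f * g) = N f * g + f * N g := hN
  have hT' : ∀ f g, T (f * g) = T f * g + f * T g := hT
  have G2 : ev (2 * G) ≠ 0 := by rw [map_mul, map_ofNat]; positivity
  have G3 : ev (3 * G) ≠ 0 := by rw [map_mul, map_ofNat]; positivity
  obtain ⟨Q1, hQ1⟩ : ∃ Q1, Q1 = ω 0 * q 1 - ω 1 * q 0 := ⟨_, rfl⟩
  obtain ⟨P2, hP2⟩ : ∃ P2, P2 = ω 0 * p 1 - ω 1 * p 0 := ⟨_, rfl⟩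
  obtain ⟨y, hy⟩ : ∃ y, y = q 1 * q 1 - q 2 * q 0 := ⟨_, rfl⟩
  obtain ⟨y2, hy2⟩ : ∃ y, y = p 1 * p 1 - p 2 * p 0 := ⟨_, rfl⟩
  have cz : G * Q1 + ρ * (N Q1 + L * Q1) - ρ * ρ * T P2 = ρ * ρ * (G * (y + ρ * ρ * y2)) := by
    simp only [hQ1, hP2, hy, hy2, map_sub, hN', hT', hNω, hTω]
    linear_combination ω 0 * C 1 - ω 1 * C 0
  have dz : 2 * G * P2 + ρ * (N P2 + L * P2) + T Q1 = 0 := by
    simp only [hQ1, hP2, map_sub, hN', hT', hNω, hTω]
    linear_combination ω 0 * D 1 - ω 1 * D 0 + ρ * ρ * G * (-hW)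
  obtain ⟨Q2, rfl⟩ : ∃ z, Q1 = ρ * z := H.dv hG (by
    have := congrArg π cz
    simp only [map_add, map_sub, map_mul, π0] at this ⊢
    linear_combination this)
  obtain ⟨r, rfl⟩ : ∃ z, Q2 = ρ * z := H.dv G2 (by
    have h1 : 2 * G * Q2 + ρ * (N Q2 + L * Q2) - ρ * T P2 - ρ * (G * (y + ρ * ρ * y2)) = 0 :=
      H.reg _ (by simp only [hN', hNρ] at cz; linear_combination cz)
    have := congrArg π h1
    simp only [map_add, map_sub, map_mul, π0, map_zero] at this ⊢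
    linear_combination this)
  obtain ⟨P3, rfl⟩ : ∃ z, P2 = ρ * z := H.dv G2 (by
    have := congrArg π dz
    simp only [hT', hTρ, map_add, map_mul, π0, map_zero] at this ⊢
    linear_combination this)
  obtain ⟨s, rfl⟩ : ∃ z, P3 = ρ * z := H.dv G3 (by
    have h1 : 3 * G * P3 + ρ * (N P3 + L * P3) + ρ * T r = 0 :=
      H.reg _ (by simp only [hN', hNρ, hT', hTρ] at dz; linear_combination dz)
    have := congrArg π h1
    simp only [map_add, map_mul, π0, map_zero] at this ⊢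
    linear_combination this)
  have C2 : 3 * G * r + ρ * (N r + L * r) - ρ * ρ * T s - G * (y + ρ * ρ * y2) = 0 :=
    H.reg _ (H.reg _ (by simp only [hN', hNρ, hT', hTρ] at cz; linear_combination cz))
  refine ⟨r, s, hQ1.symm, hP2.symm, ?_⟩
  have a3 := congrArg ev C2
  have c0 := congrArg ev (C 0)
  have c1 := congrArg ev (C 1)
  have c2 := congrArg ev (C 2)
  simp only [hy, map_add, map_sub, map_mul, map_ofNat, map_zero, evρ, zero_mul, add_zero,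
    sub_zero] at a3 c0 c1 c2
  rw [← c0, ← c1, ← c2]
  linear_combination ev G * a3

theorem res_alg {o0 o1 a0 b0 c0 a1 b1 c1 x y ρ A B k m : R} (h0 : o0 = a0 - c0) (h1 : o1 = a1 - c1)
    (hA : y * y * a0 - 2 * x * y * b0 - x * x * c0 = ρ * A)
    (hB : -(x * y * a0) + (x * x - y * y) * b0 - x * y * c0 = ρ * B)
    (hk : o0 * (y * y * a1 - 2 * x * y * b1 - x * x * c1) - o1 * (ρ * A) = ρ ^ 3 * k)
    (hm : o0 * (-(x * y * a1) + (x * x - y * y) * b1 - x * y * c1) - o1 * (ρ * B) = ρ ^ 3 * m) :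
    o0 ^ 2 * (x * x + y * y) ^ 4 * ((a0 * c1 - a1 * c0) ^ 2
      + 4 * (a0 * b1 - a1 * b0) * (b0 * c1 - b1 * c0)) = ρ ^ 6 * ((k * (x * x + y * y) * o0) ^ 2
      + ρ * (4 * (A * m - k * B) * (ρ * B * k + m * ((x * x + y * y) * o0 - ρ * A)))) := by
  have e : ρ ^ 6 * ((k * (x * x + y * y) * o0) ^ 2
      + ρ * (4 * (A * m - k * B) * (ρ * B * k + m * ((x * x + y * y) * o0 - ρ * A))))
      = (ρ ^ 3 * k * (x * x + y * y) * o0) ^ 2 + 4 * (ρ * A * (ρ ^ 3 * m) - ρ ^ 3 * k * (ρ * B))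
        * (ρ * B * (ρ ^ 3 * k) + ρ ^ 3 * m * ((x * x + y * y) * o0 - ρ * A)) := by ring
  rw [e, ← hk, ← hm, ← hA, ← hB, h0, h1]
  ring

variable (X : DR R)

theorem res_jet {w1 w2 : R} (h1 : X.ρ ∣ w1) (h2 : X.ρ ∣ w2) (hd : X.d1 w1 + X.d2 w2 = 0)
    (e1 : X.d0 w1 = X.lap w1) (e2 : X.d0 w2 = X.lap w2)
    (hG0 : X.d0 (w1 * X.d1 (X.curl w1 w2) + w2 * X.d2 (X.curl w1 w2)) = 0)
    (hG : X.ev X.G ≠ 0) :
    ∃ Y, X.curl w1 w2 ^ 2 * X.G ^ 4 * ((X.d1 w2 * X.d0 (X.d2 w1) - X.d0 (X.d1 w2) * X.d2 w1) ^ 2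
      + 4 * (X.d1 w2 * X.d0 (X.d2 w2) - X.d0 (X.d1 w2) * X.d2 w2)
        * (X.d2 w2 * X.d0 (X.d2 w1) - X.d0 (X.d2 w2) * X.d2 w1)) = X.ρ ^ 6 * Y ∧
      9 * X.ev X.G ^ 2 * X.ev Y = (X.ev X.e * X.ev (X.curl w1 w2) *
        (X.ev (X.curl w1 w2) * X.ev (X.d0 (X.d0 (X.curl w1 w2)))
          - X.ev (X.d0 (X.curl w1 w2)) ^ 2)) ^ 2 := by
  obtain ⟨W1, hW1⟩ := h1
  obtain ⟨W2, hW2⟩ := h2
  obtain ⟨g, hg⟩ := (X.loc.unit _ hG).exists_left_inv
  have z1 : X.d0 (X.d1 X.ρ) = 0 := by rw [X.c01, X.h0, map_zero]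
  have z2 : X.d0 (X.d2 X.ρ) = 0 := by rw [X.c02, X.h0, map_zero]
  let p : ℕ → R := fun j => X.d0^[j] (-g * (X.d1 W1 + X.d2 W2))
  let q : ℕ → R := fun j => X.d0^[j] (g * (-X.d2 X.ρ * W1 + X.d1 X.ρ * W2))
  let u : ℕ → R := fun j => X.d0^[j] w1
  let v : ℕ → R := fun j => X.d0^[j] w2
  have sp : ∀ j, p (j + 1) = X.d0 (p j) := fun j => Function.iterate_succ_apply' _ _ _
  have sq : ∀ j, q (j + 1) = X.d0 (q j) := fun j => Function.iterate_succ_apply' _ _ _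
  have su : ∀ j, u (j + 1) = X.d0 (u j) := fun j => Function.iterate_succ_apply' _ _ _
  have sv : ∀ j, v (j + 1) = X.d0 (v j) := fun j => Function.iterate_succ_apply' _ _ _
  have fr : ∀ j, u j = X.ρ * X.ρ * p j * X.d1 X.ρ - X.ρ * q j * X.d2 X.ρ ∧
      v j = X.ρ * X.ρ * p j * X.d2 X.ρ + X.ρ * q j * X.d1 X.ρ := by
    intro j
    induction j with
    | zero =>
      rw [hW1, hW2, X.l1, X.l2] at hd
      unfold DR.G at hg
      change w1 = X.ρ * X.ρ * (-g * (X.d1 W1 + X.d2 W2)) * X.d1 X.ρ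
        - X.ρ * (g * (-X.d2 X.ρ * W1 + X.d1 X.ρ * W2)) * X.d2 X.ρ ∧
        w2 = X.ρ * X.ρ * (-g * (X.d1 W1 + X.d2 W2)) * X.d2 X.ρ
        + X.ρ * (g * (-X.d2 X.ρ * W1 + X.d1 X.ρ * W2)) * X.d1 X.ρ
      constructor
      · linear_combination hW1 - X.ρ * W1 * hg + X.ρ * g * X.d1 X.ρ * hd
      · linear_combination hW2 - X.ρ * W2 * hg + X.ρ * g * X.d2 X.ρ * hd
    | succ j ih =>
      rw [su, sv, sp, sq, ih.1, ih.2]
      simp only [map_add, map_sub, X.l0, X.h0, z1, z2]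
      constructor <;> ring
  have ht : ∀ j, X.d1 (u j) + X.d2 (v j) = 0 ∧ X.d0 (u j) = X.lap (u j) ∧
      X.d0 (v j) = X.lap (v j) := by
    intro j
    induction j with
    | zero => exact ⟨hd, e1, e2⟩
    | succ j ih =>
      have a1 := congrArg X.d0 ih.1
      have a2 := congrArg X.d0 ih.2.1
      have a3 := congrArg X.d0 ih.2.2
      unfold DR.lap at a2 a3 ⊢
      simp only [map_add, X.c01, X.c02, map_zero] at a1 a2 a3
      rw [su, sv]
      exact ⟨a1, a2, a3⟩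
  have g1 : ∀ j, X.d1 (X.curl (u j) (v j)) = v (j + 1) := fun j => by
    have := congrArg X.d2 (ht j).1
    rw [sv, (ht j).2.2]
    unfold DR.curl DR.lap
    simp only [map_add, map_sub, X.c12, map_zero] at this ⊢
    linear_combination -this
  have g2 : ∀ j, X.d2 (X.curl (u j) (v j)) = -u (j + 1) := fun j => by
    have := congrArg X.d1 (ht j).1
    rw [su, (ht j).2.1]
    unfold DR.curl DR.lap
    simp only [map_add, map_sub, X.c12, map_zero] at this ⊢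
    linear_combination this
  have sω : ∀ j, X.d0 (X.curl (u j) (v j)) = X.curl (u (j + 1)) (v (j + 1)) := fun j => by
    unfold DR.curl
    rw [su, sv, map_sub, X.c01, X.c02]
  have k0 : w1 * X.d1 (X.curl w1 w2) + w2 * X.d2 (X.curl w1 w2) = u 0 * v 1 - v 0 * u 1 := by
    rw [show X.curl w1 w2 = X.curl (u 0) (v 0) from rfl, g1, g2]
    change u 0 * _ + v 0 * _ = _
    ring
  have cr : ∀ i j, u i * v j - v i * u j = X.ρ ^ 3 * (X.G * (p i * q j - q i * p j)) := by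
    intro i j
    rw [(fr i).1, (fr i).2, (fr j).1, (fr j).2]
    unfold DR.G; ring
  have lT : ∀ f g, X.T (f * g) = X.T f * g + f * X.T g := fun f g => by
    simp only [DR.T_apply, X.l1, X.l2]; ring
  have Tρ : X.T X.ρ = 0 := by rw [DR.T_apply]; ring
  have Tω : ∀ j, X.T (X.curl (u j) (v j)) = -(X.G * X.ρ * X.ρ * p (j + 1)) := fun j => by
    rw [DR.T_apply, g1, g2, (fr _).1, (fr _).2, DR.G]; ring
  obtain ⟨r, s, k1, k2, k3⟩ := frame2 (N := X.N) (T := X.T) (ρ := X.ρ) (G := X.G)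
    (L := X.lap X.ρ) (fun f g => by simp only [DR.N_apply, X.l1, X.l2]; ring)
    lT X.loc hG rfl Tρ p q (fun j => X.curl (u j) (v j))
    (fun j => by
      simp only [(fr j).1, (fr j).2, DR.curl, DR.lap, DR.G, DR.N_apply, DR.T_apply, map_add,
        map_sub, X.l1, X.l2, X.c12]
      ring)
    (fun j => X.loc.reg _ (by
      have := (ht j).1
      simp only [(fr j).1, (fr j).2, DR.lap, DR.G, DR.N_apply, DR.T_apply, map_add, map_sub, X.l1,
        X.l2, X.c12] at this ⊢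
      linear_combination this))
    (fun j => by rw [DR.N_apply, g1, g2, (fr _).1, (fr _).2, DR.G]; ring) Tω
    (by
      rw [k0, map_sub, X.l0, X.l0, ← su, ← sv, ← su, ← sv] at hG0
      have := X.loc.reg_pow 3 _ ((cr 0 2).symm.trans (by linear_combination hG0))
      linear_combination g * this - (p 0 * q 2 - q 0 * p 2) * hg)
  obtain ⟨b, hb⟩ : ∃ b, b = X.d1 X.ρ * X.d2 X.ρ * (X.d2 (X.d2 X.ρ) - X.d1 (X.d1 X.ρ))
      + X.d1 (X.d2 X.ρ) * (X.d1 X.ρ * X.d1 X.ρ - X.d2 X.ρ * X.d2 X.ρ) := ⟨_, rfl⟩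
  have hA : ∀ j, X.d2 X.ρ * X.d2 X.ρ * X.d1 (v j) - 2 * X.d1 X.ρ * X.d2 X.ρ * X.d2 (v j)
      - X.d1 X.ρ * X.d1 X.ρ * X.d2 (u j)
      = X.ρ * (q j * X.e - X.ρ * (X.G * X.T (p j) + p j * b)) := fun j => by
    have := (ht j).1
    simp only [(fr j).1, (fr j).2, hb, DR.e, DR.G, DR.T_apply, map_add, map_sub, X.l1,
      X.l2, X.c12] at this ⊢
    linear_combination -(X.d1 X.ρ * X.d2 X.ρ) * this
  have hB : ∀ j, -(X.d1 X.ρ * X.d2 X.ρ * X.d1 (v j))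
      + (X.d1 X.ρ * X.d1 X.ρ - X.d2 X.ρ * X.d2 X.ρ) * X.d2 (v j)
      - X.d1 X.ρ * X.d2 X.ρ * X.d2 (u j)
      = X.ρ * (X.ρ * p j * X.e + (X.G * X.T (q j) + q j * b)) := fun j => by
    have := (ht j).1
    simp only [(fr j).1, (fr j).2, hb, DR.e, DR.G, DR.T_apply, map_add, map_sub, X.l1,
      X.l2, X.c12] at this ⊢
    linear_combination -(X.d2 X.ρ * X.d2 X.ρ) * this
  have t1 := congrArg X.T k1
  have t2 := congrArg X.T k2
  simp only [map_sub, lT, Tρ, Tω] at t1 t2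
  have K := res_alg (o0 := X.curl (u 0) (v 0)) (o1 := X.curl (u 1) (v 1))
    (k := X.e * r - X.ρ * (X.G * (X.T s + X.G * (p 1 * p 1 - p 2 * p 0)) + b * s))
    (m := X.G * X.T r + X.G * X.G * (p 1 * q 1 - p 2 * q 0) + b * r + X.ρ * X.e * s)
    rfl rfl (hA 0) (hB 0)
    (by rw [hA 1]
        linear_combination X.ρ * X.e * k1 - X.ρ * X.ρ * X.G * t2 - X.ρ * X.ρ * b * k2)
    (by rw [hB 1]
        linear_combination X.ρ * X.ρ * X.e * k2 + X.ρ * X.G * t1 + X.ρ * b * k1)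
  refine ⟨_, by simp only [X.c01, X.c02]; exact K, ?_⟩
  rw [show X.curl w1 w2 = X.curl (u 0) (v 0) from rfl, sω, sω]
  simp only [map_add, map_sub, map_mul, map_pow, X.loc.evρ, zero_mul, add_zero, sub_zero]
  have xg : X.ev (X.d1 X.ρ) * X.ev (X.d1 X.ρ) + X.ev (X.d2 X.ρ) * X.ev (X.d2 X.ρ) = X.ev X.G := by
    simp only [DR.G, map_add, map_mul]
  rw [xg]
  linear_combination (X.ev X.e * X.ev (X.curl (u 0) (v 0))) ^ 2 * (3 * X.ev X.G ^ 2 * X.ev r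
    + X.ev (X.curl (u 1) (v 1)) ^ 2 - X.ev (X.curl (u 0) (v 0)) * X.ev (X.curl (u 2) (v 2))) * k3

end XWRes

open scoped ContDiff in
open XWRes in
theorem rowWRes : OfWRes := by
  intro ρ x t η V hρ' h0 hk' η0 Z hω hW
  have hρ : ∀ k : ℕ, ContDiff ℝ k ρ := fun k => hρ'.of_le (by exact_mod_cast le_top)
  have hk2 : 0 < curv2 ρ x := by
    by_contra h
    exact hk'.not_ge (div_nonpos_of_nonpos_of_nonneg (not_lt.1 h) (by positivity))
  obtain ⟨r, hrr⟩ : ∃ r : ST → ℝ, r = fun y : ST => ρ y.2 := ⟨_, rfl⟩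
  have hr : ∀ k : ℕ, ContDiff ℝ k r := fun k => hrr ▸ (hρ k).comp contDiff_snd
  have ht : pd e0 r = 0 := by
    rw [hrr, pd_snd_fun (hρ 1)]; funext z; simp [pd, Prod.mk_zero_zero]
  have hk : curv r (t, x) ≠ 0 := by rw [hrr, curv_snd (hρ 2)]; exact hk2.ne'
  have r0 : r (t, x) = 0 := by rw [hrr]; exact h0
  have m1 := Metric.mem_ball_self (x := t) η0
  have m2 := Metric.mem_ball_self (x := x) η0
  have sw1 : SmAt r (t, x) (V 0) := hrr ▸ Z.sm 0 (t, x) m1 m2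
  have sw2 : SmAt r (t, x) (V 1) := hrr ▸ Z.sm 1 (t, x) m1 m2
  have cw1 := cdg_le (Z.c6 0) (by norm_num : 3 ≤ 6)
  have cw2 := cdg_le (Z.c6 1) (by norm_num : 3 ≤ 6)
  have hS : ∀ᶠ y in 𝓝[{y | r y < 0}] (t, x), Lh (V 0) y = 0 ∧ Lh (V 1) y = 0 ∧
      pd e1 (V 0) y + pd e2 (V 1) y = 0 ∧
      pd e0 (V 0 * pd e1 (vort (V 0) (V 1)) + V 1 * pd e2 (vort (V 0) (V 1))) y = 0 := by
    rw [hrr]
    exact eventually_nhdsWithin_iff.2 (mem_of_superset
      ((Metric.isOpen_ball.prod Metric.isOpen_ball).mem_nhds ⟨m1, m2⟩) fun z hz => Z.eq z hz.1 hz.2)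
  have hB : ∀ y, r y = 0 → V 0 y = 0 ∧ V 1 y = 0 := fun y hy =>
    ⟨Z.bd 0 y (by rwa [hrr] at hy), Z.bd 1 y (by rwa [hrr] at hy)⟩
  have hd := fderiv_ne_of_curv hk
  have : (𝓝[{y | r y < 0}] (t, x)).NeBot :=
    mem_closure_iff_nhdsWithin_neBot.1 (mem_closure_neg r0 hd)
  have cr := (hr 0).continuous
  let X := gDR hr r0 ht
  have x0 : ∀ f hf, X.d0 (gm f hf) = gm (pd e0 f) (hf.pd cr _) := fun _ _ => rfl
  have x1 : ∀ f hf, X.d1 (gm f hf) = gm (pd e1 f) (hf.pd cr _) := fun _ _ => rfl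
  have x2 : ∀ f hf, X.d2 (gm f hf) = gm (pd e2 f) (hf.pd cr _) := fun _ _ => rfl
  have xρ : X.ρ = gm r (SmAt.of_cd hr) := rfl
  have xe : ∀ f hf, Continuous f → X.ev (gm f hf) = f (t, x) := fun f hf hc =>
    gev_gm hf hc.continuousAt
  have sm : ∀ {f : ST → ℝ} e, (∀ k : ℕ, ContDiff ℝ k f) → ∀ k : ℕ, ContDiff ℝ k (pd e f) :=
    fun e h k => contDiff_pd e (h (k + 1))
  have sG : ∀ k : ℕ, ContDiff ℝ k (GS r) := fun k =>
    ((sm e1 hr k).mul (sm e1 hr k)).add ((sm e2 hr k).mul (sm e2 hr k))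
  have sE : ∀ k : ℕ, ContDiff ℝ k (curv r) := fun k =>
    (((sm e1 (sm e1 hr) k).mul ((sm e2 hr k).pow 2)).sub (((contDiff_const.mul
      (sm e1 (sm e2 hr) k)).mul (sm e1 hr k)).mul (sm e2 hr k))).add
        ((sm e2 (sm e2 hr) k).mul ((sm e1 hr k).pow 2))
  have xG : X.G = gm (GS r) (SmAt.of_cd sG) := rfl
  have xE : X.e = gm (curv r) (SmAt.of_cd sE) := by
    have t : (2 : GR r (t, x)) = gm 2 (SmAt.of_cd fun _ => contDiff_const) := rfl
    simp only [DR.e, xρ, x1, x2, t, gm_mul, gm_sub, gm_add]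
    refine gm_eq.2 (Eventually.of_forall fun y => ?_)
    simp only [curv, Pi.add_apply, Pi.sub_apply, Pi.mul_apply, Pi.ofNat_apply]; ring
  have sω : SmAt r (t, x) (vort (V 0) (V 1)) := (sw2.pd cr _).sub (sw1.pd cr _)
  have xc : X.curl (gm (V 0) sw1) (gm (V 1) sw2) = gm (vort (V 0) (V 1)) sω := rfl
  have cω := cd_vort (n := 2) cw1 cw2
  have cω1 := contDiff_pd (n := 1) e0 cω
  have cω2 := contDiff_pd (n := 0) e0 cω1
  obtain ⟨Y, k1, k2⟩ := res_jet X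
    (gm_dvd hr r0 hd sw1 cw1.continuous (Eventually.of_forall fun y hy => (hB y hy).1))
    (gm_dvd hr r0 hd sw2 cw2.continuous (Eventually.of_forall fun y hy => (hB y hy).2))
    (by simp only [x1, x2, gm_add]; exact gm_zero.2 (hS.mono fun y hy => hy.2.2.1))
    (by simp only [DR.lap, x0, x1, x2, gm_add]
        exact gm_eq.2 (hS.mono fun y hy => (sub_eq_zero.1 hy.1).symm))
    (by simp only [DR.lap, x0, x1, x2, gm_add]
        exact gm_eq.2 (hS.mono fun y hy => (sub_eq_zero.1 hy.2.1).symm))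
    (by rw [xc]
        simp only [x0, x1, x2, gm_add, gm_mul]
        exact gm_zero.2 (hS.mono fun y hy => hy.2.2.2))
    (by
      rw [xG, xe _ _ (sG 0).continuous]
      intro h
      simp only [GS, Pi.add_apply, Pi.mul_apply] at h
      have a1 : pd e1 r (t, x) = 0 := by
        nlinarith [mul_self_nonneg (pd e1 r (t, x)), mul_self_nonneg (pd e2 r (t, x))]
      have a2 : pd e2 r (t, x) = 0 := by
        nlinarith [mul_self_nonneg (pd e1 r (t, x)), mul_self_nonneg (pd e2 r (t, x))]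
      apply hk
      unfold curv
      rw [a1, a2]; ring)
  obtain ⟨f, hf, rfl⟩ := gm_sj Y
  rw [xc, x0, x0, xe _ _ cω.continuous, xe _ _ cω1.continuous, xe _ _ cω2.continuous, xE,
    xe _ _ (sE 0).continuous] at k2
  have y0 : X.ev (gm f hf) ≠ 0 := fun h => by
    rw [h, mul_zero] at k2
    exact pow_ne_zero 2 (mul_ne_zero (mul_ne_zero hk hω) hW) k2.symm
  have t4 : (4 : GR r (t, x)) = gm 4 (SmAt.of_cd fun _ => contDiff_const) := rfl
  rw [xc, xG, xρ, t4] at k1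
  simp only [x0, x1, x2, gm_mul, gm_sub, gm_add, gm_pow] at k1
  have tt : Tendsto (fun y : P => ((t, y) : ST)) (𝓝[{x | ρ x < 0}] x)
      (𝓝[{y : ST | r y < 0}] (t, x)) :=
    (Continuous.continuousWithinAt (by fun_prop)).tendsto_nhdsWithin fun x hx => by
      rw [hrr]; exact hx
  refine tt.eventually (p := fun z => Rv V z ≠ 0) ?_
  filter_upwards [gm_eq.1 k1, (gm_tend hf).eventually_ne y0, self_mem_nhdsWithin] with z a b c h
  simp only [Pi.mul_apply, Pi.add_apply, Pi.sub_apply, Pi.pow_apply, Pi.ofNat_apply] at a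
  unfold Rv bt at h
  rw [h, mul_zero] at a
  exact mul_ne_zero (pow_ne_zero 6 (ne_of_lt c)) b a.symm

end Pool.Agent.MP_ed9623_an.R1
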