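import Pool.Agent.MP_ed9623_an.R1.Spec

/-! The zone exists: the connected component of the set where the half difference vanishes. -/

open MeasureTheory Filter Topology Set
open scoped ContDiff ComplexConjugate

namespace Pool.Agent.MP_ed9623_an.R1

open H77 (P E6 Van vl Pv TU)

namespace XZn

/-- Points of `Ω` near which `a` vanishes at all times. -/
def Ua (Ω : Set P) (a : ℝ → E6) : Set P :=
  {x | x ∈ Ω ∧ ∃ M ∈ 𝓝 x, ∀ t j, Van M (vl (a t) j)}

theorem ua_open {Ω : Set P} (hΩ : IsOpen Ω) (a : ℝ → E6) : IsOpen (Ua Ω a) := by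
  rw [isOpen_iff_mem_nhds]
  rintro x ⟨hx, M, hM, hv⟩
  filter_upwards [hΩ.mem_nhds hx, eventually_mem_nhds_iff.2 hM] with y hy hyM
  exact ⟨hy, M, hyM, hv⟩

theorem van_loc {O : Set P} {f : P → ℝ} (h : ∀ x ∈ O, ∃ M ∈ 𝓝 x, Van M f) : Van O f := by
  have h0 : volume {p | p ∈ O ∧ f p ≠ 0} = 0 := by
    refine measure_null_of_locally_null _ fun x hx => ?_
    obtain ⟨M, hM, hv⟩ := h x hx.1
    refine ⟨{p | p ∈ O ∧ f p ≠ 0} ∩ M, inter_mem_nhdsWithin _ hM, ?_⟩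
    refine measure_mono_null ?_ (ae_iff.1 hv)
    rintro p ⟨hp, hpM⟩ hq
    exact hp.2 (hq hpM)
  refine ae_iff.2 (measure_mono_null ?_ h0)
  intro p hp
  by_contra hc
  apply hp
  intro hpO
  by_contra hf
  exact hc ⟨hpO, hf⟩

theorem van_mono {O O' : Set P} {f : P → ℝ} (h : Van O f) (hO : O' ⊆ O) : Van O' f :=
  h.mono hO

end XZn

open XZn in
theorem rowZn : OfZn := by
  intro hHy n Ω N g R a w hn hΩ hPv hTU hTJ hN hNc hNe hNΩ hv
  obtain ⟨x₀, hx₀⟩ := hNe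
  have hNU : N ⊆ Ua Ω a := fun y hy => ⟨hNΩ hy, N, hN.mem_nhds hy, fun t j => (hv t j).1⟩
  have hNZ : N ⊆ connectedComponentIn (Ua Ω a) x₀ := hNc.subset_connectedComponentIn hx₀ hNU
  have hZU : connectedComponentIn (Ua Ω a) x₀ ⊆ Ua Ω a := connectedComponentIn_subset _ _
  have hZo : IsOpen (connectedComponentIn (Ua Ω a) x₀) := (ua_open hΩ a).connectedComponentIn
  have hZc : IsPreconnected (connectedComponentIn (Ua Ω a) x₀) :=
    isPreconnected_connectedComponentIn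
  have hZΩ : connectedComponentIn (Ua Ω a) x₀ ⊆ Ω := fun y hy => (hZU hy).1
  have hza : ∀ t j, Van (connectedComponentIn (Ua Ω a) x₀) (vl (a t) j) := fun t j =>
    van_loc fun y hy => by
      obtain ⟨M, hM, hMv⟩ := (hZU hy).2
      exact ⟨M, hM, hMv t j⟩
  refine ⟨connectedComponentIn (Ua Ω a) x₀, hNZ, hn, hΩ, hPv, hTU, hTJ, hZo, hZc, hZΩ, hza, ?_, ?_⟩
  · obtain ⟨ε, hε, hb⟩ := Metric.isOpen_iff.1 hN x₀ hx₀
    intro t j
    exact hHy n Ω _ g R a w univ hPv hZo hZc hZΩ isOpen_univ hza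
      ⟨x₀, hNZ hx₀, ε, hε, fun s _ i => van_mono (hv s i).2 hb⟩ t (mem_univ t) j
  · rintro x ⟨hxΩ, hxc⟩ M hM hMv
    have hxU : x ∈ Ua Ω a := ⟨hxΩ, M, hM, hMv⟩
    have hins : IsPreconnected (insert x (connectedComponentIn (Ua Ω a) x₀)) :=
      hZc.subset_closure (subset_insert _ _) (insert_subset hxc subset_closure)
    exact hins.subset_connectedComponentIn (mem_insert_of_mem _ (hNZ hx₀))
      (insert_subset hxU hZU) (mem_insert _ _)

end Pool.Agent.MP_ed9623_an.R1
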