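import Pool.Agent.MP_ed9623_an.R1.Base

/-! The zone is the whole domain. -/

open MeasureTheory Filter Topology Set

namespace Pool.Agent.MP_ed9623_an.R1

open H77 (P vl mm)
open R77

theorem rowZon : OfZon := by
  intro hk ha hb hg hr hs' hd hc ρ n Z g R a w sm ne bd cn zo rn t j
  obtain ⟨-, f, hf⟩ := hg a w
  have cr : Cr n {x | ρ x < 0} Z f := by
    refine ⟨zo.o, bd, fun x hx => ?_, fun t j => hd ρ g R t a w (f t j) sm ne zo.pv ?_ ?_⟩
    · obtain ⟨O, ps, al, pr, xO, sub, lk⟩ := hk _ g R a w zo.o zo.pv x hx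
      have l0 := ha n _ Z O g R a w ps al pr zo lk
      have mx := hb n _ Z O g R a w ps al pr zo lk sub
      have rs := hr n _ Z O g R a w ps al pr zo rn lk
      have lz : Lz n O Z ps al pr := ⟨l0.n0, l0.oO, l0.oZ, l0.tj, l0.za, l0.zp, l0.zt,
        fun e he p hp h => rs p hp (h.mono fun y hy => ⟨e, he, hy⟩), fun x hx => (mx x hx).1⟩
      exact ⟨O, ps, al, pr, xO, ⟨lz, rs, fun x hx => (mx x hx).2,
        hs' n _ Z O g R a w ps al pr zo lk sub lz⟩, sub, hf O ps al pr lk⟩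
    · intro x hx
      obtain ⟨O, ps, al, pr, xO, -, lk⟩ := hk _ g R a w zo.o zo.pv x hx
      have J := (lk.tj t).jp 0
      refine ContinuousAt.continuousWithinAt ?_
      revert j
      refine Fin.forall_fin_two.2 ⟨?_, ?_⟩
      · exact (J.ct (a := 1) (b := 0) (by omega)).continuousAt.congr
          (mem_of_superset (lk.oO.mem_nhds xO) fun y hy => (hf O ps al pr lk t y hy).1)
      · exact (J.ct (a := 0) (b := 1) (by omega)).continuousAt.congr
          (mem_of_superset (lk.oO.mem_nhds xO) fun y hy => (hf O ps al pr lk t y hy).2)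
    · refine H77.ae_of_loc fun x hx => ?_
      obtain ⟨O, ps, al, pr, xO, -, lk⟩ := hk _ g R a w zo.o zo.pv x hx
      refine ⟨O, lk.oO.mem_nhds xO, (lk.sw t 0).mono fun y h hy => ?_⟩
      obtain ⟨h1, h2⟩ := h hy
      obtain ⟨e1, e2⟩ := hf O ps al pr lk t y hy
      rw [iteratedDeriv_zero] at h1 h2
      rw [mm, Fin.sum_univ_two]
      revert j
      refine Fin.forall_fin_two.2 ⟨?_, ?_⟩
      · rw [← e1, h1]
        nlinarith [sq_nonneg (vl (w t) 0 y)]
      · rw [← e2, h2]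
        nlinarith [sq_nonneg (vl (w t) 1 y)]
  obtain ⟨y, hy, -⟩ := rn
  exact (zo.za t j).mono (cn.subset_of_closure_inter_subset zo.oZ ⟨y, zo.sub hy, hy⟩
    fun x hx => hc n _ Z f cr x hx.2 hx.1)

end Pool.Agent.MP_ed9623_an.R1
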