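import Pool.Agent.MP_ed9623_an.R1.Base

/-! The mixed derivative is not constant along a straight piece. -/

open MeasureTheory Filter Topology Set
open scoped ContDiff ComplexConjugate

namespace Pool.Agent.MP_ed9623_an.R1

open H77 (P ee)
open R77
open S64 (Low cst)

namespace XZw

variable {k : ℂ} {F : P → ℂ} {p : P}

theorem helm0 (h : ∀ᶠ y in 𝓝 p, AnalyticAt ℝ F y ∧ lapC F y = k * F y) :
    ∀ᶠ y in 𝓝 p, AnalyticAt ℝ (cd (ee 0) F) y ∧ lapC (cd (ee 0) F) y = k * cd (ee 0) F y := by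
  filter_upwards [h.eventually_nhds] with y n
  have a := n.self_of_nhds.1
  refine ⟨cd_ana _ a, ?_⟩
  have e1 : cd (ee 1) (cd (ee 0) F) =ᶠ[𝓝 y] cd (ee 0) (cd (ee 1) F) := by
    filter_upwards [n] with z hz using cd_comm _ _ hz.1.contDiffAt
  have e2 : cd (ee 1) (cd (ee 1) (cd (ee 0) F)) y = cd (ee 0) (cd (ee 1) (cd (ee 1) F)) y := by
    rw [(cd_congr (ee 1) e1).eq_of_nhds]
    exact cd_comm _ _ (cd_ana _ a).contDiffAt
  have e3 : (fun z => cd (ee 0) (cd (ee 0) F) z + cd (ee 1) (cd (ee 1) F) z) =ᶠ[𝓝 y]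
      fun z => k * F z := by
    filter_upwards [n] with z hz using hz.2
  have e4 := (cd_congr (ee 0) e3).eq_of_nhds
  rw [cd_add _ (cd_ana _ (cd_ana _ a)).differentiableAt (cd_ana _ (cd_ana _ a)).differentiableAt,
    cd_cmul _ _ a.differentiableAt] at e4
  rw [lapC, e2, e4]

/-- The tangential derivative along the line through `p`. -/
theorem tang {u u' : ℝ → ℂ} (h : ∀ᶠ y in 𝓝 p, AnalyticAt ℝ F y)
    (e : ∀ᶠ s in 𝓝 p.1, F (s, p.2) = u s) (d : ∀ᶠ s in 𝓝 p.1, HasDerivAt u (u' s) s) :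
    ∀ᶠ s in 𝓝 p.1, cd (ee 0) F (s, p.2) = u' s := by
  filter_upwards [((Continuous.prodMk_left p.2).tendsto p.1).eventually h, e.eventually_nhds, d]
    with s a b c
  exact (hd0_of (hasF_cd a.differentiableAt)).unique (c.congr_of_eventuallyEq b)

end XZw

open XZw in
theorem rowZw : OfZw := by
  intro hCz hAn hCau hAff hRefl n O Z ps al pr p hL hp hlow h20 h11
  have h0 := hL.l0
  have j4 := h0.j4
  obtain ⟨F, hF⟩ := hRefl n O Z ps al pr p h0 hp hlow h20
  obtain ⟨A, B, hAB⟩ := hAff n O Z ps al pr p h0 hp hlow h20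
  have ln := (Continuous.prodMk_left p.2).tendsto p.1
  have a0 : ∀ᶠ y in 𝓝 p, AnalyticAt ℝ F y ∧ lapC F y = Complex.I * √n * F y :=
    hF.mono fun y h => ⟨h.1, h.2.1⟩
  have a1 := helm0 a0
  have a2 := helm0 a1
  have b0 := a0.mono fun _ h => h.1
  have l0 : ∀ᶠ s in 𝓝 p.1, F (s, p.2) = cz n ps 0 1 (s, p.2) :=
    (ln.eventually hF).mono fun s h => h.2.2 le_rfl
  have l1 := tang (u' := fun s => cz n ps 1 1 (s, p.2)) b0 l0
    (Eventually.of_forall fun s => hd0_of (cz_hasF j4 (a := 0) (b := 1) le_rfl _))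
  have l2 := tang (u' := fun _ => 0) (a1.mono fun _ h => h.1) l1 h11
  have m0 : ∀ᶠ s in 𝓝 p.1, cd (ee 1) F (s, p.2) = A + B * s := by
    filter_upwards [ln.eventually hF.eventually_nhds, hAB] with s h e
    have d1 := (hd1_of (hasF_cd h.self_of_nhds.1.differentiableAt)).hasDerivWithinAt (s := Iic p.2)
    have d2 := (hd1_of (cz_hasF j4 (n := n) (a := 0) (b := 1) le_rfl (s, p.2))).hasDerivWithinAt
      (s := Iic p.2)
    have q : (fun r => F (s, r)) =ᶠ[𝓝[Iic p.2] p.2] fun r => cz n ps 0 1 (s, r) := by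
      filter_upwards [mem_nhdsWithin_of_mem_nhds
        (((Continuous.prodMk_right s).tendsto p.2).eventually h), self_mem_nhdsWithin] with r a b
      exact a.2.2 b
    rw [← e]
    exact (uniqueDiffWithinAt_Iic p.2).eq_deriv _ d1
      (d2.congr_of_eventuallyEq q (h.self_of_nhds.2.2 le_rfl))
  have c0 := b0.mono fun _ h => cd_ana (ee 1) h
  have m1 := tang (u' := fun _ => B) c0 m0 (Eventually.of_forall fun s => by
    simpa using ((Complex.ofRealCLM.hasDerivAt (x := s)).const_mul B).const_add A)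
  have m2 := tang (u' := fun _ => 0) (c0.mono fun _ h => cd_ana (ee 0) h) m1
    (Eventually.of_forall fun s => hasDerivAt_const s B)
  have fst := continuous_fst.tendsto p
  have z := hCau (Complex.I * √n) (cd (ee 0) (cd (ee 0) F)) p (by
    filter_upwards [a2, fst.eventually l2, fst.eventually m2, b0.eventually_nhds] with y a b c d
    refine ⟨a.1, a.2, fun e => ?_⟩
    rw [← e] at b c
    refine ⟨b, ?_⟩
    have e1 : cd (ee 1) (cd (ee 0) F) =ᶠ[𝓝 y] cd (ee 0) (cd (ee 1) F) := by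
      filter_upwards [d] with w hw using cd_comm _ _ hw.contDiffAt
    rw [cd_comm _ _ (cd_ana _ d.self_of_nhds).contDiffAt, (cd_congr (ee 0) e1).eq_of_nhds]
    exact c)
  have all : ∀ᶠ y in 𝓝 p, y ∈ O ∧ (y.2 < p.2 → y ∈ Z) ∧ cz n ps 2 0 (y.1, p.2) = 0 ∧
      (y.2 < p.2 → HasDerivAt (fun r => cz n ps 2 0 (y.1, r)) 0 y.2) := by
    filter_upwards [h0.oO.mem_nhds hp, hlow.2, fst.eventually h20, z, hF.eventually_nhds]
      with y o l a b c
    refine ⟨o, l, a, fun hy => ?_⟩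
    have an := (hAn n O Z ps al pr h0 y ⟨o, l hy⟩).1
    have q : F =ᶠ[𝓝 y] cz n ps 0 1 := by
      filter_upwards [c, (isOpen_lt continuous_snd continuous_const).mem_nhds hy] with w a b
      exact a.2.2 (le_of_lt b)
    rw [(cd_congr (ee 0) (cd_congr (ee 0) q)).eq_of_nhds, cd0_cz j4 (a := 0) (b := 1) le_rfl,
      ← cd1_cz j4 (a := 1) (b := 0) le_rfl, cd_comm _ _ (an 1 0 (Or.inl rfl)).1.contDiffAt,
      cd0_cz j4 (a := 1) (b := 0) le_rfl] at b
    have d := hd1_of (s := y.1) (c := y.2) (hasF_cd (an 2 0 (Or.inr rfl)).1.differentiableAt)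
    exact d.congr_deriv b
  obtain ⟨ε, hε, hb⟩ := Metric.eventually_nhds_iff_ball.1 all
  have low : ∀ y ∈ Metric.ball p ε, y.2 < p.2 → cz n ps 2 0 y = 0 := by
    intro y hy hl
    have k := constant_of_has_deriv_right_zero (f := fun r => cz n ps 2 0 (y.1, r)) (a := y.2)
      (b := p.2) ((cz_ct j4 le_rfl).comp (Continuous.prodMk_right y.1)).continuousOn
      (fun r hr => ((hb (y.1, r) (by
        rw [Metric.mem_ball, Prod.dist_eq, max_lt_iff, Real.dist_eq, Real.dist_eq] at hy ⊢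
        refine ⟨hy.1, ?_⟩
        have := abs_lt.1 hy.2
        exact abs_lt.2 ⟨by linarith [hr.1], by linarith [hr.2]⟩)).2.2.2 hr.2).hasDerivWithinAt)
      p.2 ⟨hl.le, le_rfl⟩
    exact k.symm.trans (hb y hy).2.2.1
  have qb : (p.1, p.2 - ε / 2) ∈ Metric.ball p ε := by
    rw [Metric.mem_ball, Prod.dist_eq, max_lt_iff, Real.dist_eq, Real.dist_eq]
    exact ⟨by simpa using hε, abs_lt.2 ⟨by linarith, by linarith⟩⟩
  have ql : (p.1, p.2 - ε / 2).2 < p.2 := by show p.2 - ε / 2 < p.2; linarith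
  refine hL.wall (1, 0) (by simp) _ ⟨(hb _ qb).1, (hb _ qb).2.1 ql⟩ ?_
  filter_upwards [Metric.isOpen_ball.mem_nhds qb,
    (isOpen_lt continuous_snd continuous_const).mem_nhds ql] with y a b t
  have e := hCz n O Z ps al pr h0 t 0 2 0 (Or.inr rfl) y
    ⟨(hb y a).1, subset_closure ((hb y a).2.1 b)⟩
  rw [low y a b] at e
  simp [hs, e]

end Pool.Agent.MP_ed9623_an.R1
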