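import Pool.Agent.MP_ed9623_an.R1.Defs
import Pool.Agent.MP_ed9623_an.U81.Spec

/-! Statements: the geometry of the zone for rough pairs, and the global layer. -/

open MeasureTheory Filter Topology Set
open scoped ContDiff ComplexConjugate

namespace Pool.Agent.MP_ed9623_an.R1

open H64 (pd SA ST e0 e1 e2 curvature dcurvature)
open H77 (P E6 M2 Van Test ee vl ip perp Pv TU Zn vo mm)
open R77
open S64 (S3 DS Low Crv cst CurlS Gr Cks Pc)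

/-- The weak Helmholtz equation. -/
def Hw (c : ℂ) (N : Set P) (F : P → ℂ) : Prop := ∀ φ, Test N φ →
  ∫ x, (cd (ee 0) F x * pd (ee 0) φ x + cd (ee 1) F x * pd (ee 1) φ x + c * F x * φ x) = 0

/-- The behaviour at an end of a maximal straight piece. -/
def En (h E : ℝ → ℂ) (l : Filter ℝ) : Prop := Tendsto h l (𝓝 0) ∨ ∃ h₁ Q₁ E₁ : ℂ,
  Tendsto h l (𝓝 h₁) ∧ Tendsto (deriv h) l (𝓝 Q₁) ∧ Tendsto E l (𝓝 E₁) ∧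
    (Q₁ = 0 ∨ (E₁ * conj Q₁).im = 0 ∧ (h₁ * conj Q₁).re = 0)

/-- A maximal straight piece. -/
structure Mx (h E : ℝ → ℂ) (a b : ℝ) : Prop where
  an : ∀ s ∈ Ioo a b, AnalyticAt ℝ h s ∧ AnalyticAt ℝ E s ∧ deriv h s ≠ 0 ∧
    deriv (deriv h) s = r0 h s * deriv h s
  ea : En h E (𝓝[>] a)
  eb : En h E (𝓝[<] b)

/-- The Wronskian in time. -/
noncomputable def bt (f g : ST → ℝ) (z : ST) : ℝ := f z * pd e0 g z - pd e0 f z * g z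

/-- The resultant of the Hessian and of its time derivative. -/
noncomputable def Rv (V : Fin 2 → ST → ℝ) (z : ST) : ℝ :=
  bt (pd e1 (V 1)) (pd e2 (V 0)) z ^ 2
    + 4 * bt (pd e1 (V 1)) (pd e2 (V 1)) z * bt (pd e2 (V 1)) (pd e2 (V 0)) z

/-- The resultant does not vanish at `y`. -/
def Rn (n : ℝ) (a w : ℝ → E6) (y : P) : Prop := ∀ (O Z : Set P) (ps al pr : ℝ → ℕ → J2),
  y ∈ O → y ∈ Z → Lk O a w ps al pr → L0 n O Z ps al pr → rsc n ps y ≠ 0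

/-! ### The Helmholtz equation -/

def HelAS : Prop := ∀ (c : ℂ) (N : Set P) (F : P → ℂ), IsOpen N → ContDiffOn ℝ (1 : ℕ) F N →
  Hw c N F → ContDiffOn ℝ ∞ F N ∧ ∀ x ∈ N, lapC F x = c * F x

def HelBS : Prop := ∀ (ν : ℝ) (F : P → ℂ) (x : P), ν ≠ 0 →
  (∀ᶠ y in 𝓝 x, ContDiffAt ℝ ∞ F y ∧ lapC F y = Complex.I * ν * F y) → AnalyticAt ℝ F x

/-- A line is removable. -/
def RemS : Prop := ∀ (k : ℂ) (c : ℝ) (N : Set P) (F : P → ℂ), IsOpen N →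
  ContDiffOn ℝ (1 : ℕ) F N →
  (∀ y ∈ N, y.2 ≠ c → ContDiffAt ℝ (2 : ℕ) F y ∧ lapC F y = k * F y) → Hw k N F

/-- Uniqueness in the Cauchy problem. -/
def CauS : Prop := ∀ (k : ℂ) (F : P → ℂ) (p : P),
  (∀ᶠ y in 𝓝 p, AnalyticAt ℝ F y ∧ lapC F y = k * F y ∧
    (y.2 = p.2 → F y = 0 ∧ cd (ee 1) F y = 0)) → ∀ᶠ y in 𝓝 p, F y = 0

/-- The second normal derivative is affine along a straight piece. -/
def AffS : Prop := ∀ (n : ℝ) (O Z : Set P) (ps al pr : ℝ → ℕ → J2) (p : P), L0 n O Z ps al pr →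
  p ∈ O → Low Z p (cst p.2) → (∀ᶠ s in 𝓝 p.1, cz n ps 2 0 (s, p.2) = 0) →
  ∃ A B : ℂ, ∀ᶠ s in 𝓝 p.1, cz n ps 0 2 (s, p.2) = A + B * s

/-- Reflection. -/
def ReflS : Prop := ∀ (n : ℝ) (O Z : Set P) (ps al pr : ℝ → ℕ → J2) (p : P), L0 n O Z ps al pr →
  p ∈ O → Low Z p (cst p.2) → (∀ᶠ s in 𝓝 p.1, cz n ps 2 0 (s, p.2) = 0) →
  ∃ F : P → ℂ, ∀ᶠ y in 𝓝 p, AnalyticAt ℝ F y ∧ lapC F y = Complex.I * √n * F y ∧
    (y.2 ≤ p.2 → F y = cz n ps 0 1 y)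

/-- The mixed derivative is not constant along a straight piece. -/
def ZwS : Prop := ∀ (n : ℝ) (O Z : Set P) (ps al pr : ℝ → ℕ → J2) (p : P), Lz n O Z ps al pr →
  p ∈ O → Low Z p (cst p.2) → (∀ᶠ s in 𝓝 p.1, cz n ps 2 0 (s, p.2) = 0) →
  (∀ᶠ s in 𝓝 p.1, HasDerivAt (fun r => cz n ps 1 1 (r, p.2)) 0 s) → False

/-! ### Touching points -/

/-- The data for unique continuation at a fixed time. -/
def JetS : Prop := ∀ (O : Set P) (ps al pr : ℕ → J2) (x : P), IsOpen O → x ∈ O → Tj O ps al pr →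
  ∃ (U : Set P) (G f : P → ℝ), x ∈ U ∧ U ⊆ O ∧ U81.Jet U ![ps 0 1 0, ps 0 0 1] (al 0 0 0) G f

/-- In the smooth case the arc is straight. -/
def SmES : Prop := ∀ (n : ℝ) (O Z : Set P) (ps al pr : ℝ → ℕ → J2) (p : P) (γ : SA ℝ) (t : ℝ),
  Lx n O Z ps al pr → p ∈ O → Smo ps al p → Crv Z p γ →
  ps t 0 1 1 p + deriv γ.1 p.1 * ps t 0 0 2 p ≠ 0 → deriv (deriv γ.1) p.1 = 0

/-- The relations in the smooth case. -/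
def SmHS : Prop := ∀ (n : ℝ) (O Z : Set P) (ps al pr : ℝ → ℕ → J2) (p : P),
  Lx n O Z ps al pr → p ∈ O → Smo ps al p → Crv Z p (cst p.2) → cz n ps 1 1 p ≠ 0 →
  Tz n ps p.2 p.1

/-- A nondegenerate touching point with horizontal tangent, at the origin. -/
def TP0S : Prop := ∀ (n : ℝ) (O Z : Set P) (ps al pr : ℝ → ℕ → J2) (Φ : P → ℝ) (t : ℝ),
  Lx n O Z ps al pr → 0 ∈ O → Tc Z 0 Φ → pd (ee 0) Φ 0 = 0 → pd (ee 1) Φ 0 < 0 →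
  dt (ps t 0) 0 ≠ 0 → Sr n Z ps 0 ∧ ∃ᶠ s in 𝓝 (0 : ℝ),
    Ty (fun r => cz n ps 0 1 (r, 0)) (fun r => cz n ps 0 2 (r, 0)) s

/-- Invariance under rigid motions. -/
def RotXS : Prop := ∀ (n : ℝ) (O Z : Set P) (ps al pr : ℝ → ℕ → J2) (x τ : P),
  τ.1 ^ 2 + τ.2 ^ 2 = 1 → Lx n O Z ps al pr →
  Lx n (mo x τ ⁻¹' O) (mo x τ ⁻¹' Z) (fun t j => rot x τ (ps t j)) (fun t j => rot x τ (al t j))
    fun t j => rot x τ (pr t j)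

def RotTS : Prop := ∀ (Z : Set P) (p : P) (Φ : P → ℝ), Tc Z p Φ →
  (∀ τ : P, τ.1 ^ 2 + τ.2 ^ 2 = 1 → Tc (mo p τ ⁻¹' Z) 0 (fun y => Φ (mo p τ y)) ∧
    pd (ee 0) (fun y => Φ (mo p τ y)) 0 = τ.1 * pd (ee 0) Φ p + τ.2 * pd (ee 1) Φ p ∧
    pd (ee 1) (fun y => Φ (mo p τ y)) 0 = -τ.2 * pd (ee 0) Φ p + τ.1 * pd (ee 1) Φ p) ∧
  ∃ c : ℝ, 0 < c ∧ (c * -pd (ee 1) Φ p) ^ 2 + (c * pd (ee 0) Φ p) ^ 2 = 1

def RotCS : Prop := ∀ (n : ℝ) (Ω Z : Set P) (f : ℝ → Fin 2 → P → ℝ) (x τ : P),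
  τ.1 ^ 2 + τ.2 ^ 2 = 1 → Cr n Ω Z f → ∃ f', Cr n (mo x τ ⁻¹' Ω) (mo x τ ⁻¹' Z) f' ∧
    ∀ O ps al pr, Cx n Ω Z f O ps al pr → Cx n (mo x τ ⁻¹' Ω) (mo x τ ⁻¹' Z) f' (mo x τ ⁻¹' O)
      (fun t j => rot x τ (ps t j)) (fun t j => rot x τ (al t j)) fun t j => rot x τ (pr t j)

/-- A nondegenerate touching point with horizontal tangent. -/
def TP1S : Prop := ∀ (n : ℝ) (O Z : Set P) (ps al pr : ℝ → ℕ → J2) (p : P) (Φ : P → ℝ) (t : ℝ),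
  Lx n O Z ps al pr → p ∈ O → Tc Z p Φ → pd (ee 0) Φ p = 0 → pd (ee 1) Φ p < 0 →
  dt (ps t 0) p ≠ 0 → Sr n Z ps p

/-- A nondegenerate touching point. -/
def TPS : Prop := ∀ (n : ℝ) (O Z : Set P) (ps al pr : ℝ → ℕ → J2) (p : P) (Φ : P → ℝ) (t : ℝ),
  Lx n O Z ps al pr → p ∈ O → Tc Z p Φ → dt (ps t 0) p ≠ 0 →
  ((-pd (ee 1) Φ p * cz n ps 1 0 p + pd (ee 0) Φ p * cz n ps 0 1 p) *
    conj (hz n ps (-pd (ee 1) Φ p, pd (ee 0) Φ p) (pd (ee 0) Φ p, pd (ee 1) Φ p) p)).re = 0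

/-- Sweeping along level curves. -/
def Sw2S : Prop := ∀ (Z : Set P) (Ψ : P → ℝ) (q : P), IsOpen Z → ContDiff ℝ (1 : ℕ) Ψ →
  0 < pd (ee 1) Ψ q → (∀ᶠ x in 𝓝 q, ∀ Φ, Tc Z x Φ →
    pd (ee 0) Ψ x * pd (ee 1) Φ x - pd (ee 1) Ψ x * pd (ee 0) Φ x = 0) →
  (∃ᶠ a in 𝓝 q.1, Ψ (a, q.2) = Ψ q ∧ ∀ᶠ y in 𝓝[<] q.2, (a, y) ∈ Z) →
  ∀ᶠ x in 𝓝 q, Ψ x < Ψ q → x ∈ Z

/-- The end of a straight piece. -/
def StepS : Prop := ∀ (n : ℝ) (O Z : Set P) (ps al pr : ℝ → ℕ → J2) (q : P) (l : Filter ℝ),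
  Lx n O Z ps al pr → q ∈ O → (l = 𝓝[<] q.1 ∨ l = 𝓝[>] q.1) → (∀ᶠ a in l, Sr n Z ps (a, q.2)) →
  cz n ps 1 1 q ≠ 0 → ((cz n ps 0 2 q * conj (cz n ps 1 1 q)).im ≠ 0 ∨
    (cz n ps 0 1 q * conj (cz n ps 1 1 q)).re ≠ 0) → Sr n Z ps q

/-! ### The line -/

/-- The normal form along a straight piece. -/
def NfS : Prop := ∀ (h E : ℝ → ℂ) (a b : ℝ), a < b → Mx h E a b → ∃ (u : ℂ) (y₀ : ℝ) (x : ℝ → ℝ),
  u * conj u = 1 ∧ ∀ s ∈ Ioo a b, AnalyticAt ℝ x s ∧ AnalyticAt ℝ (r0 h) s ∧ 0 < deriv x s ∧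
    h s = (x s + y₀ * Complex.I) * u ∧ deriv h s = (deriv x s : ℝ) * u ∧
    deriv (deriv x) s = r0 h s * deriv x s

def LnRS : Prop := ∀ (h E : ℝ → ℂ) (a b : ℝ), a < b → Mx h E a b →
  (∀ s ∈ Ioo a b, 3 * r0 h s * (h s * conj (deriv h s)).re = 4 * Complex.normSq (deriv h s)) → False

def LnAS : Prop := ∀ (h E : ℝ → ℂ) (a b N s₀ : ℝ), s₀ ∈ Ioo a b → Mx h E a b → 3 / 2 ≤ N →
  r0 h s₀ ≠ 0 → (E s₀ * conj (deriv h s₀)).im ≠ 0 → (∀ s ∈ Ioo a b,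
    HasDerivAt (Mf N h) (2 * r0 h s * Mf N h s) s ∧ Pb N h s = 0 ∧ deriv E s = 0) → False

def LnBS : Prop := ∀ (h E : ℝ → ℂ) (a b N s₀ : ℝ), s₀ ∈ Ioo a b → Mx h E a b → 3 / 2 ≤ N →
  r0 h s₀ ≠ 0 → (∀ s ∈ Ioo a b, HasDerivAt (Mf N h) (2 * r0 h s * Mf N h s) s ∧
    (h s * conj (deriv h s)).re * Pb N h s
      = N * (N + 1) / 3 * r0 h s * Complex.normSq (deriv h s)) → False

def LineS : Prop := ∀ (h Q E : ℝ → ℂ) (J G : Set ℝ) (s₀ : ℝ), Bornology.IsBounded J → s₀ ∈ G →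
  G ⊆ J → IsOpen G → (∀ s ∈ J, HasDerivAt h (Q s) s ∧ ContinuousAt Q s ∧ ContinuousAt E s) →
  (∀ s ∈ G, AnalyticAt ℝ h s ∧ AnalyticAt ℝ E s ∧ Q s ≠ 0) → Ty h E s₀ →
  (∀ s ∈ J, (G ∈ 𝓝[<] s ∨ G ∈ 𝓝[>] s) → Q s ≠ 0 →
    ((E s * conj (Q s)).im ≠ 0 ∨ (h s * conj (Q s)).re ≠ 0) → s ∈ G) →
  (∀ s, s ∉ J → Tendsto h (𝓝[G] s) (𝓝 0)) → False

/-- There are no straight pieces. -/
def ContS : Prop := ∀ (n : ℝ) (Ω Z : Set P) (f : ℝ → Fin 2 → P → ℝ) (O : Set P)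
    (ps al pr : ℝ → ℕ → J2), Cr n Ω Z f → Cx n Ω Z f O ps al pr → 0 ∈ O → Sr n Z ps 0 →
  (∃ᶠ s in 𝓝 (0 : ℝ), Ty (fun r => cz n ps 0 1 (r, 0)) (fun r => cz n ps 0 2 (r, 0)) s) → False

/-- There is a nondegenerate touching point. -/
def NDS : Prop := ∀ (n : ℝ) (O Z : Set P) (ps al pr : ℝ → ℕ → J2), Lz n O Z ps al pr →
  ∀ x ∈ O ∩ closure Z, x ∉ Z → ∃ p ∈ O, ∃ Φ t, Tc Z p Φ ∧ dt (ps t 0) p ≠ 0

/-- The zone is closed in the domain. -/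
def CoreS : Prop := ∀ (n : ℝ) (Ω Z : Set P) (f : ℝ → Fin 2 → P → ℝ), Cr n Ω Z f →
  ∀ x ∈ Ω, x ∈ closure Z → x ∈ Z

/-! ### The global layer -/

def L0aS : Prop := ∀ (n : ℝ) (Ω Z O : Set P) (g : Fin 2 → P → ℝ) (R : ℝ) (a w : ℝ → E6)
    (ps al pr : ℝ → ℕ → J2), Zo n Ω Z g R a w → Lk O a w ps al pr → L0 n O Z ps al pr

def L0bS : Prop := ∀ (n : ℝ) (Ω Z O : Set P) (g : Fin 2 → P → ℝ) (R : ℝ) (a w : ℝ → E6)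
    (ps al pr : ℝ → ℕ → J2), Zo n Ω Z g R a w → Lk O a w ps al pr → O ⊆ Ω →
  ∀ x ∈ O ∩ closure Z,
    (∀ I : Set ℝ, IsOpen I → I.Nonempty → (∀ t ∈ I, G0 (al t 0) x) → x ∈ Z) ∧
    ∀ t, (∀ᶠ y in 𝓝 x, ∀ j, al t j 1 0 y = 0 ∧ al t j 0 1 y = 0) → x ∈ Z

/-- Two charts agree, and there is a global representative. -/
def AgrS : Prop := ∀ a w : ℝ → E6,
  (∀ O O' ps al pr ps' al' pr', Lk O a w ps al pr → Lk O' a w ps' al' pr' → ∀ t u v,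
    u + v = 1 ∨ u + v = 2 → ∀ y ∈ O ∩ O', ps t 0 u v y = ps' t 0 u v y) ∧
  ∃ f : ℝ → Fin 2 → P → ℝ, ∀ O ps al pr, Lk O a w ps al pr →
    ∀ t, ∀ y ∈ O, ps t 0 1 0 y = f t 0 y ∧ ps t 0 0 1 y = f t 1 y

/-- The resultant near a convex point of the boundary. -/
def WResS : Prop := ∀ (ρ : P → ℝ) (x : P) (t η : ℝ) (V : Fin 2 → ST → ℝ), ContDiff ℝ ∞ ρ →
  ρ x = 0 → 0 < curvature ρ x → 0 < η → Zn ρ x t η V → vo V (t, x) ≠ 0 →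
  vo V (t, x) * pd e0 (pd e0 (vo V)) (t, x) - pd e0 (vo V) (t, x) ^ 2 ≠ 0 →
  ∀ᶠ y in 𝓝[{x | ρ x < 0}] x, Rv V (t, y) ≠ 0

/-- Unique continuation for the defect. -/
def HyS : Prop := ∀ (n : ℝ) (Ω B : Set P) (g : Fin 2 → P → ℝ) (R : ℝ) (a w : ℝ → E6) (I : Set ℝ),
  Pv Ω g R a w → IsOpen B → IsPreconnected B → B ⊆ Ω → IsOpen I →
  (∀ t j, Van B (vl (a t) j)) → (∃ x ∈ B, ∃ ε : ℝ, 0 < ε ∧ ∀ t ∈ I, ∀ j,
    Van (Metric.ball x ε) (vl (yw n w t) j)) → ∀ t ∈ I, ∀ j, Van B (vl (yw n w t) j)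

/-- The starting piece of the zone. -/
def NbS : Prop := ∀ (ρ : P → ℝ) (x : P) (n : ℝ) (g : Fin 2 → P → ℝ) (R : ℝ) (a w : ℝ → E6),
  ContDiff ℝ ∞ ρ → ρ x = 0 → fderiv ℝ ρ x ≠ 0 → 0 < curvature ρ x → 0 < n →
  Pv {x | ρ x < 0} g R a w → Pc ρ x n a w →
  ∃ N : Set P, IsOpen N ∧ IsPreconnected N ∧ N ⊆ {x | ρ x < 0} ∧
    (∀ t j, Van N (vl (a t) j) ∧ Van N (vl (yw n w t) j)) ∧ ∃ y ∈ N, Rn n a w y

/-- The zone exists. -/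
def ZnS : Prop := ∀ (n : ℝ) (Ω N : Set P) (g : Fin 2 → P → ℝ) (R : ℝ) (a w : ℝ → E6), 0 < n →
  IsOpen Ω → Pv Ω g R a w → TU a → TJ a → IsOpen N → IsPreconnected N → N.Nonempty → N ⊆ Ω →
  (∀ t j, Van N (vl (a t) j) ∧ Van N (vl (yw n w t) j)) → ∃ Z, N ⊆ Z ∧ Zo n Ω Z g R a w

/-- There is no common null direction on an open part of the zone. -/
def ResS : Prop := ∀ (n : ℝ) (Ω Z O : Set P) (g : Fin 2 → P → ℝ) (R : ℝ) (a w : ℝ → E6)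
    (ps al pr : ℝ → ℕ → J2), Zo n Ω Z g R a w → (∃ y ∈ Z, Rn n a w y) → Lk O a w ps al pr →
  ∀ p ∈ O ∩ Z, ¬ ∀ᶠ y in 𝓝 p, ∃ e : P, e ≠ 0 ∧ ∀ t, hs (ps t 0) e e y = 0

/-- Where the fields are smooth at one time, the curl of the force is smooth. -/
def CurS : Prop := ∀ (Ω N : Set P) (g : Fin 2 → P → ℝ) (R t : ℝ) (a w : ℝ → E6)
    (A B W : Fin 2 → P → ℝ), IsOpen N → N ⊆ Ω → Pv Ω g R a w →
  (∀ j, ContDiffOn ℝ ∞ (A j) N ∧ ContDiffOn ℝ ∞ (B j) N ∧ ContDiffOn ℝ ∞ (W j) N ∧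
    ∀ᵐ x, x ∈ N → A j x = vl (a t) j x ∧ B j x = vl (deriv a t) j x ∧ W j x = vl (w t) j x) →
  ∃ G, CurlS g N G

/-- Smooth representatives where the curl of the force is smooth. -/
def RepNS : Prop := ∀ (Ω N : Set P) (g : Fin 2 → P → ℝ) (G : P → ℝ) (R : ℝ) (a w : ℝ → E6),
  IsOpen N → N ⊆ Ω → Pv Ω g R a w → CurlS g N G → ∃ A W, Gr N a A ∧ Gr N w W

def CkNS : Prop := ∀ (Ω N : Set P) (g : Fin 2 → P → ℝ) (G : P → ℝ) (R : ℝ) (a w : ℝ → E6)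
    (A W : Fin 2 → ST → ℝ), IsOpen N → N ⊆ Ω → Pv Ω g R a w → CurlS g N G → Gr N a A →
  Gr N w W → Cks N A W

/-- The smooth local structure. -/
def SmoS : Prop := ∀ (n : ℝ) (Ω Z O : Set P) (g : Fin 2 → P → ℝ) (R : ℝ) (a w : ℝ → E6)
    (ps al pr : ℝ → ℕ → J2), Zo n Ω Z g R a w → Lk O a w ps al pr → O ⊆ Ω → Lz n O Z ps al pr →
  ∀ x ∈ O, Smo ps al x → ∃ (O' : Set P) (α ψ : S3), x ∈ O' ∧ O' ⊆ O ∧ S64.Loc n α ψ O' Z ∧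
    ∀ t, ∀ y ∈ O', (DS.d 1 ψ).1 (t, y) = ps t 0 1 0 y ∧ (DS.d 2 ψ).1 (t, y) = ps t 0 0 1 y

/-- The half difference tends to zero at the boundary. -/
def BdS : Prop := ∀ (ρ : P → ℝ) (g : Fin 2 → P → ℝ) (R t : ℝ) (a w : ℝ → E6) (F : P → ℝ),
  ContDiff ℝ ∞ ρ → (∀ x, ρ x = 0 → fderiv ℝ ρ x ≠ 0) → Pv {x | ρ x < 0} g R a w →
  ContinuousOn F {x | ρ x < 0} → (∀ᵐ y, y ∈ {x | ρ x < 0} → F y ^ 2 ≤ mm (vl (w t)) y) →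
  ∀ x, x ∉ {x | ρ x < 0} → Tendsto F (𝓝[{x | ρ x < 0}] x) (𝓝 0)

/-- The zone is the whole domain. -/
def ZonS : Prop := ∀ (ρ : P → ℝ) (n : ℝ) (Z : Set P) (g : Fin 2 → P → ℝ) (R : ℝ) (a w : ℝ → E6),
  ContDiff ℝ ∞ ρ → (∀ x, ρ x = 0 → fderiv ℝ ρ x ≠ 0) → Bornology.IsBounded {x | ρ x < 0} →
  IsPreconnected {x | ρ x < 0} → Zo n {x | ρ x < 0} Z g R a w → (∃ y ∈ Z, Rn n a w y) →
  ∀ t j, Van {x | ρ x < 0} (vl (a t) j)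

/-- Uniqueness for every force. -/
def SmRS : Prop := ∀ (ρ : P → ℝ) (x : P) (g : Fin 2 → P → ℝ) (R : ℝ) (a w : ℝ → E6),
  ContDiff ℝ ∞ ρ → (∀ x, ρ x = 0 → fderiv ℝ ρ x ≠ 0) → Bornology.IsBounded {x | ρ x < 0} →
  IsPreconnected {x | ρ x < 0} → ρ x = 0 → 0 < curvature ρ x → dcurvature ρ x ≠ 0 →
  Pv {x | ρ x < 0} g R a w → TU a → TJ a →
  (IsPreconnected {x | ρ x = 0} ∨ ∀ δ : ℝ, 0 < δ → ∃ θ,
    Test ({x | ρ x < 0} ∩ Metric.ball x δ) θ ∧ ip g (perp (fun _ => 0) θ) ≠ 0) →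
  (∃ t, t ≤ 0 ∧ w t = 0) ∨ ∀ t, t < 0 → a t = 0

def OfCz : Prop := CzS
def OfHelA : Prop := H77.RepS → HelAS
def OfHelB : Prop := HelBS
def OfAnZ : Prop := CzS → HelAS → HelBS → AnZS
def OfRem : Prop := RemS
def OfCau : Prop := CauS
def OfAff : Prop := AnZS → AffS
def OfRefl : Prop := AnZS → HelAS → HelBS → RemS → AffS → ReflS
def OfZw : Prop := CzS → AnZS → CauS → AffS → ReflS → ZwS
def OfJet : Prop := DetS → JetS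
def OfTouch : Prop := CzS → JetS → U81.VtS → TouchS
def OfSmE : Prop := S64.DC1S → S64.HCS → SmES
def OfSmH : Prop := S64.DC1S → S64.W1S → S64.HDS → CzS → SmHS
def OfTP0 : Prop := CzS → TouchS → ATS → SmES → SmHS → ZwS → TP0S
def OfRotX : Prop := S64.RotLS → RotXS
def OfRotT : Prop := RotTS
def OfRotC : Prop := RotXS → RotCS
def OfTP1 : Prop := RotXS → RotTS → TP0S → TP1S
def OfTP : Prop := RotXS → RotTS → TP0S → TPS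
def OfSw2 : Prop := Sw2S
def OfStep : Prop := CzS → TouchS → EtaS → TPS → TP1S → Sw2S → StepS
def OfNf : Prop := NfS
def OfLnR : Prop := NfS → LnRS
def OfLnA : Prop := NfS → LnAS
def OfLnB : Prop := NfS → LnBS
def OfLine : Prop := LnRS → LnAS → LnBS → LineS
def OfCont : Prop := AffS → ReflS → StepS → LineS → ContS
def OfND : Prop := S64.DiscS → RdS → NDS
def OfCore : Prop := NDS → RotTS → RotCS → TP0S → ContS → CoreS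
def OfL0a : Prop := L0aS
def OfL0b : Prop := L0bS
def OfAgr : Prop := AgrS
def OfWRes : Prop := WResS
def OfHy : Prop := H77.UcS → HyS
def OfNb : Prop := S64.YzS → S64.NhS → CzS → WResS → HyS → NbS
def OfZn : Prop := HyS → ZnS
def OfRes : Prop := LkS → CzS → AnZS → L0aS → AgrS → ResS
def OfCur : Prop := CurS
def OfRepN : Prop := H77.ThS → H77.TransS → H77.RepS → H77.BootS → S64.GlueS → RepNS
def OfCkN : Prop := S64.CutS → S64.Eq1S → S64.Eq2S → S64.StrmS → CkNS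
def OfSmo : Prop := CzS → CurS → RepNS → CkNS → SmoS
def OfBd : Prop := H77.Chart0S → H77.SmallS → BdS
def OfZon : Prop := LkS → L0aS → L0bS → AgrS → ResS → SmoS → BdS → CoreS → ZonS
def OfSmR : Prop := S64.PerS → NbS → ZnS → ZonS → SmRS

end Pool.Agent.MP_ed9623_an.R1
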