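import Pool.Agent.MP_ed9623_an.R1.AllS
import Pool.Agent.MP_ed9623_an.R1.Fin4
import Pool.Agent.MP_ed9623_an.S64.GRotL
import Pool.Agent.MP_ed9623_an.S64.GCha
import Pool.Agent.MP_ed9623_an.S64.GDisc
import Pool.Agent.MP_ed9623_an.S64.BGlue
import Pool.Agent.MP_ed9623_an.S64.BCut
import Pool.Agent.MP_ed9623_an.S64.BEq1
import Pool.Agent.MP_ed9623_an.S64.BEq2
import Pool.Agent.MP_ed9623_an.S64.BStrm
import Pool.Agent.MP_ed9623_an.S64.BSin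
import Pool.Agent.MP_ed9623_an.S64.BPer
import Pool.Agent.MP_ed9623_an.S64.BYz
import Pool.Agent.MP_ed9623_an.S64.BNh
import Pool.Agent.MP_ed9623_an.S64.BOsc
import Pool.Agent.MP_ed9623_an.S64.BGeo
import Pool.Agent.MP_ed9623_an.U81.Fin
import Pool.Agent.MP_ed9623_an.R77.Det
import Pool.Agent.MP_ed9623_an.R77.Lk
import Pool.Agent.MP_ed9623_an.R77.Rd4
import Pool.Agent.MP_ed9623_an.R46.All
import Pool.Agent.MP_ed9623_an.R10.In
import Pool.Agent.MP_ed9623_an.R10.All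
import Pool.Agent.MP_ed9623_an.R1.Aff
import Pool.Agent.MP_ed9623_an.R1.Agr
import Pool.Agent.MP_ed9623_an.R1.AnZ
import Pool.Agent.MP_ed9623_an.R1.Bd
import Pool.Agent.MP_ed9623_an.R1.Cau
import Pool.Agent.MP_ed9623_an.R1.CkN
import Pool.Agent.MP_ed9623_an.R1.Cont
import Pool.Agent.MP_ed9623_an.R1.Cur
import Pool.Agent.MP_ed9623_an.R1.Cz
import Pool.Agent.MP_ed9623_an.R1.HelA
import Pool.Agent.MP_ed9623_an.R1.HelB
import Pool.Agent.MP_ed9623_an.R1.Hy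
import Pool.Agent.MP_ed9623_an.R1.L0a
import Pool.Agent.MP_ed9623_an.R1.L0b
import Pool.Agent.MP_ed9623_an.R1.Line
import Pool.Agent.MP_ed9623_an.R1.Ln
import Pool.Agent.MP_ed9623_an.R1.Nb
import Pool.Agent.MP_ed9623_an.R1.Refl
import Pool.Agent.MP_ed9623_an.R1.Rem
import Pool.Agent.MP_ed9623_an.R1.RepN
import Pool.Agent.MP_ed9623_an.R1.Res
import Pool.Agent.MP_ed9623_an.R1.Rots
import Pool.Agent.MP_ed9623_an.R1.Sm
import Pool.Agent.MP_ed9623_an.R1.SmR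
import Pool.Agent.MP_ed9623_an.R1.Smo
import Pool.Agent.MP_ed9623_an.R1.Step
import Pool.Agent.MP_ed9623_an.R1.Sw2
import Pool.Agent.MP_ed9623_an.R1.TP0
import Pool.Agent.MP_ed9623_an.R1.Touch
import Pool.Agent.MP_ed9623_an.R1.WRes
import Pool.Agent.MP_ed9623_an.R1.Zn
import Pool.Agent.MP_ed9623_an.R1.Zon
import Pool.Agent.MP_ed9623_an.R1.Zw

/-! All parts together. -/

open MeasureTheory Filter Topology Set
open scoped ContDiff

namespace Pool.Agent.MP_ed9623_an.R1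

theorem aHelA : HelAS := rowHelA H77.zRep
theorem aAnZ : AnZS := rowAnZ rowCz aHelA rowHelB
theorem aAff : AffS := rowAff aAnZ
theorem aRefl : ReflS := rowRefl aAnZ aHelA rowHelB rowRem aAff
theorem aZw : ZwS := rowZw rowCz aAnZ rowCau aAff aRefl
theorem aTouch : TouchS := rowTouch rowCz R77.rowJetS U81.wVt
theorem aAT : ATS := R10.at_of (R46.aIn aTouch rowCz) (R10.aAt rowCz)
theorem aTP0 : TP0S := rowTP0 rowCz aTouch aAT (rowSmE S64.Y.yDC1 S64.Y.yHC)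
  (rowSmH S64.Y.yDC1 S64.Y.yW1 S64.Y.yHD rowCz) aZw
theorem aRotX : RotXS := rowRotX S64.rowRotL
theorem aStep : StepS := rowStep rowCz aTouch R46.aEta (rowTP aRotX rowRotT aTP0)
  (rowTP1 aRotX rowRotT aTP0) rowSw2
theorem aCore : CoreS :=
  rowCore (rowND S64.rowDisc (R77.rowRd U81.wVt U81.wVk rowCz aAnZ aZw)) rowRotT (rowRotC aRotX)
    aTP0 (rowCont aAff aRefl aStep (rowLine (rowLnR rowNf) (rowLnA rowNf) (rowLnB rowNf)))
theorem aHy : HyS := rowHy H77.xUc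

section
open H77

theorem aZon : ZonS :=
  rowZon R77.rowLk rowL0a rowL0b rowAgr (rowRes R77.rowLk rowCz aAnZ rowL0a rowAgr)
    (rowSmo rowCz rowCur (rowRepN rowTh wTrans zRep zBoot S64.rowGlue)
      (rowCkN S64.rowCut (S64.rowEq1 rowCl0) (S64.rowEq2 rowCl0) S64.rowStrm))
    (rowBd rowChart0 (rowSmall wMix wZt rowTh wTrans wGp)) aCore

theorem aSmR : SmRS :=
  rowSmR (S64.rowPer rowChart xUcP (rowTriA wDp) rowCl0 xDefP xGlob rowCT rowSpin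
      (rowCid rowCl0 (rowIdn wTrans wZt xCrl)) (rowZone rowTh xZ1 xZ2 (rowClass rowCl0)) rowJetZ
      rowStdy S64.rowSin)
    (rowNb S64.rowYz (S64.rowNh S64.rowCha) rowCz rowWRes aHy) (rowZn aHy) aZon

theorem aGeo : S64.GeoS := S64.rowGeo rowNear2 (S64.rowOsc S64.rowCha)

end

open H64 H77 in
theorem aKey {ρ : P → ℝ} (hρ : ContDiff ℝ ∞ ρ) (hreg : ∀ x, ρ x = 0 → fderiv ℝ ρ x ≠ 0)
    (hb : Bornology.IsBounded {x | ρ x < 0}) (hc : IsConnected {x | ρ x < 0})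
    (g : Fin 2 → L2 {x | ρ x < 0})
    (H : IsPreconnected {x | ρ x = 0} ∨ (∃ x₀, ρ x₀ = 0 ∧ 0 < curvature ρ x₀ ∧
        dcurvature ρ x₀ ≠ 0 ∧ ∀ δ : ℝ, 0 < δ → ∃ φ, Test ({x | ρ x < 0} ∩ Metric.ball x₀ δ) φ ∧
          ∫ x in {x | ρ x < 0}, (g 0 x * pd (ee 1) φ x - g 1 x * pd (ee 0) φ x) ≠ 0) ∨
      Circ ρ ∨ (∃ x₀, ρ x₀ = 0 ∧ 0 < curvature ρ x₀ ∧ ¬ Exc ρ {x | ρ x < 0} g x₀) ∨
      ∃ G, CurlIs {x | ρ x < 0} g {x | ρ x < 0} G)
    (R : ℝ) (a w : ℝ → E6) (hP : Pv {x | ρ x < 0} (fun j => xt {x | ρ x < 0} (g j)) R a w)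
    (tu : TU a) (tj : TJ a) (hy : ∀ t, w t ∈ Ys {x | ρ x < 0}) :
    (∃ t, t ≤ 0 ∧ w t = 0) ∨ ∀ t, t < 0 → a t = 0 := by
  have m := (isOpen_lt hρ.continuous (continuous_const (y := (0 : ℝ)))).measurableSet
  by_cases hci : Circ ρ
  · exact xCirc ρ _ R a w hρ hreg hc.2 hci hP tu hy
  rcases H with H | ⟨x, h0, hk, hd, H⟩ | H | ⟨x, h0, hk, hx⟩ | ⟨G, hG⟩
  · obtain ⟨x, h0, hk, hd⟩ := aGeo ρ hρ hreg hb hc.1 H hci
    exact aSmR ρ x _ R a w hρ hreg hb hc.2 h0 hk hd hP tu tj (Or.inl H)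
  · refine aSmR ρ x _ R a w hρ hreg hb hc.2 h0 hk hd hP tu tj (Or.inr fun δ hδ => ?_)
    obtain ⟨φ, h1, h2⟩ := H δ hδ
    exact ⟨φ, h1, fun e => h2 (by rw [S64.curl_eq m g h1, e, neg_zero])⟩
  · exact absurd H hci
  · refine Or.inl ((xExc ρ x _ R a w hρ hreg hb hc.2 h0 hk hP tu).resolve_right ?_)
    exact fun ⟨c, r, r0, G, l, d, e⟩ => hx ⟨c, r, r0, G, l, (curlIs_iff m g G).2 d, e⟩
  · obtain ⟨x, h0, hk⟩ := exists_convex hρ hreg hb hc.1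
    exact or_iff_not_imp_left.2 fun hw => (S64.xUniq ρ x _ R a w hρ hc.2 h0 hk
      (fun _ _ => ⟨G, (curlIs_iff m g G).1 hG⟩) hP).resolve_left hw

end Pool.Agent.MP_ed9623_an.R1
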