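import Pool.Agent.MP_ed9623_an.S64.AHardy
import Pool.Agent.MP_ed9623_an.S64.ACarZ
import Pool.Agent.MP_ed9623_an.S64.AHeatI
import Pool.Agent.MP_ed9623_an.S64.AHeat
import Pool.Agent.MP_ed9623_an.S64.ASy
import Pool.Agent.MP_ed9623_an.S64.AHeatV
import Pool.Agent.MP_ed9623_an.S64.ATH
import Pool.Agent.MP_ed9623_an.S64.ATC
import Pool.Agent.MP_ed9623_an.S64.ARwB
import Pool.Agent.MP_ed9623_an.S64.ABoot
import Pool.Agent.MP_ed9623_an.S64.AHarR
import Pool.Agent.MP_ed9623_an.S64.AInvR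
import Pool.Agent.MP_ed9623_an.S64.AQuad
import Pool.Agent.MP_ed9623_an.S64.ARec
import Pool.Agent.MP_ed9623_an.S64.AFinR
import Pool.Agent.MP_ed9623_an.S64.AMc
import Pool.Agent.MP_ed9623_an.S64.AUCh
import Pool.Agent.MP_ed9623_an.S64.AUCe
import Pool.Agent.MP_ed9623_an.S64.AUNh
import Pool.Agent.MP_ed9623_an.S64.AUNe
import Pool.Agent.MP_ed9623_an.S64.AXM
import Pool.Agent.MP_ed9623_an.S64.AXR
import Pool.Agent.MP_ed9623_an.S64.ARm
import Pool.Agent.MP_ed9623_an.S64.ASt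
import Pool.Agent.MP_ed9623_an.S64.ABs
import Pool.Agent.MP_ed9623_an.S64.ACl
import Pool.Agent.MP_ed9623_an.S64.AEx
import Pool.Agent.MP_ed9623_an.S64.AExI
import Pool.Agent.MP_ed9623_an.S64.ARd
import Pool.Agent.MP_ed9623_an.S64.ALX
import Pool.Agent.MP_ed9623_an.S64.AFT
import Pool.Agent.MP_ed9623_an.S64.AUE
import Pool.Agent.MP_ed9623_an.S64.LTm
import Pool.Agent.MP_ed9623_an.S64.LFl
import Pool.Agent.MP_ed9623_an.S64.LId
import Pool.Agent.MP_ed9623_an.S64.LVan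
import Pool.Agent.MP_ed9623_an.S64.LFd
import Pool.Agent.MP_ed9623_an.S64.LIbp
import Pool.Agent.MP_ed9623_an.S64.LInt3
import Pool.Agent.MP_ed9623_an.S64.LPb0
import Pool.Agent.MP_ed9623_an.S64.LPb
import Pool.Agent.MP_ed9623_an.S64.LLz
import Pool.Agent.MP_ed9623_an.S64.LLnE
import Pool.Agent.MP_ed9623_an.S64.GDiv
import Pool.Agent.MP_ed9623_an.S64.GUNs
import Pool.Agent.MP_ed9623_an.S64.GSig
import Pool.Agent.MP_ed9623_an.S64.GMcE
import Pool.Agent.MP_ed9623_an.S64.GUEg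
import Pool.Agent.MP_ed9623_an.S64.GFTg
import Pool.Agent.MP_ed9623_an.S64.GUE1
import Pool.Agent.MP_ed9623_an.S64.GJet
import Pool.Agent.MP_ed9623_an.S64.GUE2
import Pool.Agent.MP_ed9623_an.S64.GFTj
import Pool.Agent.MP_ed9623_an.S64.GFTs
import Pool.Agent.MP_ed9623_an.S64.GNoU
import Pool.Agent.MP_ed9623_an.S64.GExt
import Pool.Agent.MP_ed9623_an.S64.GZW
import Pool.Agent.MP_ed9623_an.S64.GRad
import Pool.Agent.MP_ed9623_an.S64.GFA
import Pool.Agent.MP_ed9623_an.S64.GDC1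
import Pool.Agent.MP_ed9623_an.S64.GW1
import Pool.Agent.MP_ed9623_an.S64.GHC
import Pool.Agent.MP_ed9623_an.S64.GHD

/-! The smooth local analysis. -/

namespace Pool.Agent.MP_ed9623_an.S64.Y

theorem yHardy : HardyS := rowHardy
theorem yCarZ : CarZS := rowCarZ
theorem yHeatI : HeatIS := rowHeatI
theorem yHeat : HeatS := rowHeat yHeatI
theorem ySy : SyS := rowSy
theorem yHeatV : HeatVS := rowHeatV ySy
theorem yTH : THS := rowTH yHardy
theorem yTC : TCS := rowTC yCarZ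
theorem yRwB : RwBS := rowRwB
theorem yBoot : BootS := rowBoot
theorem yHarR : HarRS := rowHarR ySy yTH
theorem yInvR : InvRS := rowInvR yHeat yHeatV
theorem yQuad : QuadS := rowQuad
theorem yRec : RecS := rowRec
theorem yFinR : FinRS := rowFinR yRec
theorem yMc : McS := rowMc yRwB yBoot yHarR yInvR yQuad yFinR
theorem yUCh : UChS := rowUCh yTH
theorem yUCe : UCeS := rowUCe yTC
theorem yUNh : UNS (-1) := rowUNh ySy yUCh
theorem yUNe : UNS 1 := rowUNe ySy yUCe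
theorem yXM : XMS := rowXM
theorem yXR : XRS := rowXR yXM
theorem yRm : RmS := rowRm
theorem ySt : StS := rowSt
theorem yBs : BsS := rowBs yXM yXR yRm ySt
theorem yCl : ClS := rowCl yBs
theorem yEx : ExS := rowEx yXM yXR yRm
theorem yExI : ExIS := rowExI yXM yXR yRm
theorem yRd : RdS := rowRd yRm ySt yBs yEx yExI
theorem yLX : LXS := rowLX yXM yRm yEx
theorem yFT : FTS := rowFT yXM yXR yRm yCl yEx yRd yLX
theorem yUE : UES := rowUE yXM yXR yRm ySt yBs yCl
theorem yTm : TmS := rowTm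
theorem yFl : FlS := rowFl
theorem yId : IdS := rowId
theorem yVan : VanS := rowVan
theorem yFd : FdS := rowFd
theorem yIbp : IbpS := rowIbp
theorem yInt3 : Int3S := rowInt3 yFd yIbp
theorem yPb0 : Pb0S := rowPb0 yInt3
theorem yPb : PbS := rowPb yPb0
theorem yLz : LzS := rowLz yTm yId yVan yPb
theorem yLnE : LnES := rowLnE yFl yLz
theorem yDiv : DivS := rowDiv
theorem yUNs : UNsS := rowUNs yLnE yDiv yUNe yUNh
theorem ySig : SigS ∧ RtS := rowSig
theorem yMcE : McES := rowMcE yLnE yDiv yMc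
theorem yUEg : UEgS := rowUEg yMcE yDiv yUE
theorem yFTg : FTgS := rowFTg yMcE yDiv yFT
theorem yUE1 : UE1S := rowUE1 ySig.2 yUEg
theorem yJet : JetS := rowJet
theorem yUE2 : UE2S := rowUE2 ySig.2 yUEg yJet
theorem yFTj : FTjS := rowFTj
theorem yFTs : FTsS := rowFTs ySig.2 yFTg yFTj
theorem yNoU : NoUS := rowNoU
theorem yExt : ExtS := rowExt
theorem yZW : ZWS := rowZW yExt
theorem yRad : RadS := rowRad
theorem yFA : FAS := rowFA yExt yRad
theorem yDC1 : DC1S := rowDC1 yUNs yNoU yFA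
theorem yW1 : W1S := rowW1 yUE1 yNoU
theorem yHC : HCS := rowHC yFTs yNoU yW1
theorem yHD : HDS := rowHD yFTs yUE2 yNoU yW1 yZW

end Pool.Agent.MP_ed9623_an.S64.Y
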