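import Pool.Agent.MP_ed9623_an.R1.Spec

/-! Unique continuation for the defect of periodicity. -/

open MeasureTheory Filter Topology Set
open scoped ContDiff

namespace Pool.Agent.MP_ed9623_an.R1

open H64 (pd)
open H77

namespace XHy

theorem step {l₁ l₂ : E6 →L[ℝ] ℝ} {W : ℝ → E6} (hW : ContDiff ℝ ∞ W)
    (h : ∀ t, l₁ (deriv W t) + l₂ (W t) = 0) (t : ℝ) :
    l₁ (deriv (deriv W) t) + l₂ (deriv W t) = 0 := by
  have h1 := (l₁.hasFDerivAt.comp_hasDerivAt t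
    (sm_hasDerivAt (contDiff_infty_iff_deriv.1 hW).2 t)).add
    (l₂.hasFDerivAt.comp_hasDerivAt t (sm_hasDerivAt hW t))
  exact h1.unique ((hasDerivAt_const t (0 : ℝ)).congr_of_eventuallyEq (Eventually.of_forall h))

theorem sm_yw (n : ℝ) {w : ℝ → E6} (hw : ContDiff ℝ ∞ w) : ContDiff ℝ ∞ (yw n w) :=
  (contDiff_infty_iff_deriv.1 (contDiff_infty_iff_deriv.1 hw).2).2.add (hw.const_smul n)

theorem deriv_yw (n : ℝ) {w : ℝ → E6} (hw : ContDiff ℝ ∞ w) (t : ℝ) :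
    deriv (yw n w) t = deriv (deriv (deriv w)) t + n • deriv w t :=
  ((sm_hasDerivAt (contDiff_infty_iff_deriv.1 (contDiff_infty_iff_deriv.1 hw).2).2 t).add
    ((sm_hasDerivAt hw t).const_smul n)).deriv

theorem yw_mem (n : ℝ) {w : ℝ → E6} {S : Submodule ℝ E6} (hS : IsClosed (S : Set E6))
    (h : ∀ t, w t ∈ S) (t : ℝ) : yw n w t ∈ S :=
  S.add_mem (deriv_mem hS (Eventually.of_forall fun _ => deriv_mem hS (Eventually.of_forall h)))
    (S.smul_mem n (h t))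

theorem tl_zero {B : Set P} {a w ζ : Fin 2 → P → ℝ} (ha : ∀ j, Van B (a j))
    (hζ : ∀ j, Test B (ζ j)) : tl (fun _ => 0) a w ζ = 0 ∧ tl (fun _ => 0) w a ζ = 0 := by
  constructor <;> refine Finset.sum_eq_zero fun j _ => Finset.sum_eq_zero fun i _ =>
    integral_eq_zero_of_ae ?_
  · filter_upwards [ha i] with p hp
    by_cases h : p ∈ B
    · simp [hp h]
    · simp [((hζ j).dd Gam.zero i).off h]
  · filter_upwards [ha j] with p hp
    by_cases h : p ∈ B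
    · simp [hp h]
    · simp [((hζ j).dd Gam.zero i).off h]

theorem heat {n R : ℝ} {Ω B : Set P} {g : Fin 2 → P → ℝ} {a w : ℝ → E6} (h : Pv Ω g R a w)
    (hB : B ⊆ Ω) (ha : ∀ t j, Van B (vl (a t) j)) (t : ℝ) {ζ : Fin 2 → P → ℝ}
    (hζ : ∀ j, Test B (ζ j)) :
    ip (vl (deriv (yw n w) t)) ζ + di (fun _ => 0) (gj (yw n w t)) ζ = 0 := by
  obtain ⟨l₁, h1⟩ := exists_ip fun j => (hζ j).m2
  obtain ⟨l₂, h2⟩ := exists_di fun j => (hζ j).top
  have k0 : ∀ t, l₁ (deriv w t) + l₂ (w t) = 0 := fun t => by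
    have := h.e1 t ζ fun j => (hζ j).mono hB
    rwa [E1, (tl_zero (ha t) hζ).1, (tl_zero (ha t) hζ).2, sub_zero, sub_zero, ← h1, ← h2] at this
  have k2 := step (contDiff_infty_iff_deriv.1 h.sw).2 (step h.sw k0) t
  rw [← h1, ← h2, deriv_yw n h.sw, yw, map_add, map_add, map_smul, map_smul, smul_eq_mul,
    smul_eq_mul]
  linear_combination k2 + n * k0 t

theorem ht {n R : ℝ} {Ω B : Set P} {g : Fin 2 → P → ℝ} {a w : ℝ → E6} (h : Pv Ω g R a w)
    (hB : B ⊆ Ω) (ha : ∀ t j, Van B (vl (a t) j)) (t : ℝ) :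
    Ht B 0 (vl (yw n w t)) (gj (yw n w t)) (vl (deriv (yw n w) t)) fun _ _ => 0 := by
  refine ⟨fun _ => ⟨M2.zero, nm_zero.le⟩, fun j φ hφ => ?_, fun ψ _ => by simp [nm_zero]⟩
  have k := heat (n := n) h hB ha t (ζ := fun k => if k = j then φ else fun _ => 0) fun k => by
    split_ifs
    exacts [hφ, Test.zero B]
  rw [ip, di, Finset.sum_eq_single j (fun k _ hk => by simp [hk]) (by simp),
    Finset.sum_eq_single j (fun k _ hk => by simp [hk, dd_zero, H64.pd_zero_fun]) (by simp)] at k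
  simpa [dd_zero] using k

end XHy

theorem rowHy : OfHy := by
  intro hU n Ω B g R a w I h oB cB hB oI ha hx
  exact hU I B (yw n w) oI oB cB (XHy.sm_yw n h.sw)
    (XHy.yw_mem n (isClosed_YZ univ) fun s => ⟨(h.mw s).1.1, fun ix => ((h.mw s).1.2 ix).mono
      (compl_subset_compl.2 (subset_univ _))⟩)
    (fun x hx => ⟨B, 0, oB, hx, le_rfl, fun t _ => ⟨_, XHy.ht h hB ha t⟩⟩) hx

end Pool.Agent.MP_ed9623_an.R1
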