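import Pool.Agent.MP_ed9623_an.R1.Spec

/-! Uniqueness for every force. -/

open MeasureTheory Filter Topology Set

namespace Pool.Agent.MP_ed9623_an.R1

theorem rowSmR : OfSmR := by
  intro hPer hNb hZn hZon ρ x g R a w hρ hreg hb hc hx hk hdk hP hT hJ hor
  have hO : IsOpen {x | ρ x < 0} := isOpen_lt hρ.continuous continuous_const
  rcases hPer ρ x g R a w hρ hreg hb hc hx hk hdk hP hT with h | ⟨h, δ, hδ, h'⟩ | ⟨n, hn, h⟩
  · exact Or.inl h
  · obtain ⟨θ, hθ, k⟩ := hor.resolve_left h δ hδ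
    exact absurd (h' θ hθ) k
  · obtain ⟨N, o, c, s, v, y, hy, r⟩ := hNb ρ x n g R a w hρ hx (hreg x hx) hk hn hP h
    obtain ⟨Z, hN, hZ⟩ := hZn n _ N g R a w hn hO hP hT hJ o c ⟨y, hy⟩ s v
    exact Or.inr fun t _ => H77.eq_zero_of_van (hP.ma t).1
      (hZon ρ n Z g R a w hρ hreg hb hc hZ ⟨y, hN hy, r⟩ t)

end Pool.Agent.MP_ed9623_an.R1
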